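import Pool.Agent.Lib.MP_42948a_nt.TF.A1

/-!
# Multiplication by a prime (job E2)

Full proof of `dom`. The left side is `∑ (y, n) ∈ PW d b b' ×ˢ EW d α i a a', g (y n) / (y n)`.
(1) If `y ∈ PW d b b' = primesOff d ⌊d^b⌋ ⌊d^b'⌋` and `n ∈ EW d α i a a'` then `m = y n ∈ EW d α (i+1) (a+b) (a'+b')`:
`y` is a prime, `y > ⌊d^b⌋`, hence `(y:ℝ) > d^b` (`Nat.lt_of_floor_lt`), `y ≤ ⌊d^b'⌋ ≤ d^b'`; the same for `n` (`> d^a`, `≤ d^a'`); so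
`d^(a+b) < y n ≤ d^(a'+b')` (`Real.rpow_add`, `0 < d`), whence `⌊d^(a+b)⌋ < y n ≤ ⌊d^(a'+b')⌋` (`Nat.floor_lt`, `Nat.le_floor`).
`Rough`: `Rough.mul`; `y` itself is rough at `⌊d^α⌋ ≤ ⌊d^b⌋ < y` (`Nat.floor_mono`, `Real.rpow_le_rpow_of_exponent_le`, `1 ≤ d`).
Coprime: `Nat.Coprime.mul_left`-type lemma (`y ∤ d` prime). `cardFactors (y n) = 1 + i` (`ArithmeticFunction.cardFactors_mul`, `cardFactors_apply_prime`).
(2) For fixed `m` the number of pairs `(y, n)` with `y n = m` is at most the number of primes `y ∣ m`, which is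
`m.primeFactors.card ≤ cardFactors m = i + 1` (`ArithmeticFunction.cardDistinctFactors_le_cardFactors` or
`Nat.primeFactorsList` length). So `∑ (y, n) h (y n) ≤ (i + 1) ∑ m, h m` with `h m = g m / m ≥ 0`
(`Finset.sum_fiberwise_of_maps_to` then `Finset.sum_le_sum`, `Finset.card_le_card_of_injOn` with the projection `(y, n) ↦ y`).
`EW_one`: `n ∈ EW d α 1 a b` iff `n` prime (`ArithmeticFunction.cardFactors_eq_one_iff_prime`), in the window, coprime to `d`, and `> ⌊d^α⌋`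
(automatic as `α ≤ a`).
-/

namespace Pool.Agent.Lib.MP_42948a_nt.TF

open Finset Pool.Agent.Lib.MP_42948a_nt.OA Pool.Agent.Lib.MP_42948a_nt.TQ

private theorem E2_floor {d : ℕ} (hd : 1 ≤ d) {a b : ℝ} (h : a ≤ b) :
    ⌊(d : ℝ) ^ a⌋₊ ≤ ⌊(d : ℝ) ^ b⌋₊ :=
  Nat.floor_le_floor (Real.rpow_le_rpow_of_exponent_le (by exact_mod_cast hd) h)

private theorem E2_rough {z p : ℕ} (hp : p.Prime) (h : z < p) : Rough z p := by
  refine ⟨hp.pos, fun q hq hqp => ?_⟩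
  rw [(Nat.prime_dvd_prime_iff_eq hq hp).1 hqp]
  exact h

theorem mem_PW {d : ℕ} {a b : ℝ} {p : ℕ} : p ∈ PW d a b ↔ p.Prime ∧ ⌊(d : ℝ) ^ a⌋₊ < p ∧ p ≤ ⌊(d : ℝ) ^ b⌋₊ ∧ ¬ p ∣ d := by
  classical
  unfold PW primesOff
  rw [mem_filter, mem_Icc]
  constructor
  · rintro ⟨⟨_, h2⟩, h3, h4, h5⟩
    exact ⟨h3, h4, h2, h5⟩
  · rintro ⟨h1, h2, h3, h4⟩
    exact ⟨⟨h1.one_le, h3⟩, h1, h2, h4⟩

theorem mem_EW {d : ℕ} {α : ℝ} {i : ℕ} {a b : ℝ} {n : ℕ} : n ∈ EW d α i a b ↔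
    (⌊(d : ℝ) ^ a⌋₊ < n ∧ n ≤ ⌊(d : ℝ) ^ b⌋₊) ∧ Rough ⌊(d : ℝ) ^ α⌋₊ n ∧ n.Coprime d ∧ ArithmeticFunction.cardFactors n = i := by
  classical
  rw [EW, mem_filter, mem_Ioc]

theorem PW_coprime {d : ℕ} {a b : ℝ} {p : ℕ} (h : p ∈ PW d a b) : p.Coprime d := by
  obtain ⟨h1, _, _, h4⟩ := mem_PW.1 h
  exact (Nat.Prime.coprime_iff_not_dvd h1).2 h4

theorem PW_mono {d : ℕ} (hd : 1 ≤ d) {a a' b b' : ℝ} (h1 : a' ≤ a) (h2 : b ≤ b') : PW d a b ⊆ PW d a' b' := by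
  intro p hp
  obtain ⟨h3, h4, h5, h6⟩ := mem_PW.1 hp
  exact mem_PW.2 ⟨h3, (E2_floor hd h1).trans_lt h4, h5.trans (E2_floor hd h2), h6⟩

theorem EW_mono {d : ℕ} (hd : 1 ≤ d) {α : ℝ} {i : ℕ} {a a' b b' : ℝ} (h1 : a' ≤ a) (h2 : b ≤ b') :
    EW d α i a b ⊆ EW d α i a' b' := by
  intro n hn
  obtain ⟨⟨h3, h4⟩, h5⟩ := mem_EW.1 hn
  exact mem_EW.2 ⟨⟨(E2_floor hd h1).trans_lt h3, h4.trans (E2_floor hd h2)⟩, h5⟩

theorem EW_one {d : ℕ} (hd : 1 ≤ d) {α a b : ℝ} (h : α ≤ a) : EW d α 1 a b = PW d a b := by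
  ext n
  rw [mem_EW, mem_PW]
  constructor
  · rintro ⟨⟨h1, h2⟩, h3, h4, h5⟩
    have hp : n.Prime := ArithmeticFunction.cardFactors_eq_one_iff_prime.1 h5
    exact ⟨hp, h1, h2, (Nat.Prime.coprime_iff_not_dvd hp).1 h4⟩
  · rintro ⟨hp, h1, h2, h3⟩
    exact ⟨⟨h1, h2⟩, E2_rough hp ((E2_floor hd h).trans_lt h1),
      (Nat.Prime.coprime_iff_not_dvd hp).2 h3, ArithmeticFunction.cardFactors_eq_one_iff_prime.2 hp⟩

theorem EW_coprime {d : ℕ} {α : ℝ} {i : ℕ} {a b : ℝ} {n : ℕ} (h : n ∈ EW d α i a b) : n.Coprime d := by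
  exact (mem_EW.1 h).2.2.1

theorem dom (d : ℕ) (hd : 1 ≤ d) (α a a' b b' : ℝ) (i : ℕ) (hb : α ≤ b) (g : ℕ → ℝ) (hg : ∀ n, 0 ≤ g n) :
    ∑ y ∈ PW d b b', 1 / (y : ℝ) * ∑ n ∈ EW d α i a a', 1 / (n : ℝ) * g (y * n) ≤
      (i + 1 : ℝ) * ∑ m ∈ EW d α (i + 1) (a + b) (a' + b'), 1 / (m : ℝ) * g m := by
  classical
  have hd0 : (0 : ℝ) < d := by exact_mod_cast hd
  have hmaps : ∀ q ∈ PW d b b' ×ˢ EW d α i a a', q.1 * q.2 ∈ EW d α (i + 1) (a + b) (a' + b') := by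
    intro q hq
    obtain ⟨hq1, hq2⟩ := mem_product.1 hq
    obtain ⟨h1, h2, h3, h4⟩ := mem_PW.1 hq1
    obtain ⟨⟨h5, h6⟩, h7, h8, h9⟩ := mem_EW.1 hq2
    have e1 : (d : ℝ) ^ b < (q.1 : ℝ) := Nat.lt_of_floor_lt h2
    have e2 : (q.1 : ℝ) ≤ (d : ℝ) ^ b' := (Nat.le_floor_iff (Real.rpow_nonneg hd0.le _)).1 h3
    have e3 : (d : ℝ) ^ a < (q.2 : ℝ) := Nat.lt_of_floor_lt h5
    have e4 : (q.2 : ℝ) ≤ (d : ℝ) ^ a' := (Nat.le_floor_iff (Real.rpow_nonneg hd0.le _)).1 h6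
    have e5 : (0 : ℝ) < (d : ℝ) ^ b := Real.rpow_pos_of_pos hd0 _
    have e6 : (0 : ℝ) < (d : ℝ) ^ a := Real.rpow_pos_of_pos hd0 _
    rw [mem_EW]
    refine ⟨⟨?_, ?_⟩, ?_, ?_, ?_⟩
    · rw [Nat.floor_lt (Real.rpow_nonneg hd0.le _), Real.rpow_add hd0, mul_comm, Nat.cast_mul]
      exact mul_lt_mul'' e1 e3 e5.le e6.le
    · rw [Nat.le_floor_iff (Real.rpow_nonneg hd0.le _), Real.rpow_add hd0, mul_comm _ ((d : ℝ) ^ b'),
        Nat.cast_mul]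
      exact mul_le_mul e2 e4 (Nat.cast_nonneg _) (Real.rpow_nonneg hd0.le _)
    · exact (E2_rough h1 ((E2_floor hd hb).trans_lt h2)).mul h7
    · exact Nat.Coprime.mul_left ((Nat.Prime.coprime_iff_not_dvd h1).2 h4) h8
    · have hn0 : q.2 ≠ 0 := h7.1.ne'
      rw [ArithmeticFunction.cardFactors_mul h1.ne_zero hn0,
        ArithmeticFunction.cardFactors_apply_prime h1, h9, Nat.add_comm]
  have hlhs : ∑ y ∈ PW d b b', 1 / (y : ℝ) * ∑ n ∈ EW d α i a a', 1 / (n : ℝ) * g (y * n) =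
      ∑ q ∈ PW d b b' ×ˢ EW d α i a a', 1 / ((q.1 * q.2 : ℕ) : ℝ) * g (q.1 * q.2) := by
    rw [sum_product]
    refine sum_congr rfl fun y _ => ?_
    rw [mul_sum]
    refine sum_congr rfl fun n _ => ?_
    push_cast
    rw [← mul_assoc, one_div_mul_one_div]
  rw [hlhs, ← sum_fiberwise_of_maps_to hmaps, mul_sum]
  refine sum_le_sum fun m hm => ?_
  have h1 : ∀ q ∈ (PW d b b' ×ˢ EW d α i a a').filter (fun q => q.1 * q.2 = m),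
      1 / ((q.1 * q.2 : ℕ) : ℝ) * g (q.1 * q.2) = 1 / (m : ℝ) * g m := by
    intro q hq
    rw [(mem_filter.1 hq).2]
  rw [sum_congr rfl h1, sum_const, nsmul_eq_mul]
  refine mul_le_mul_of_nonneg_right ?_ (mul_nonneg (by positivity) (hg m))
  obtain ⟨_, h7, _, h9⟩ := mem_EW.1 hm
  have h2 : ((PW d b b' ×ˢ EW d α i a a').filter (fun q => q.1 * q.2 = m)).card ≤
      m.primeFactors.card := by
    refine card_le_card_of_injOn (fun q => q.1) ?_ ?_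
    · intro q hq
      obtain ⟨hq1, hq2⟩ := mem_filter.1 (mem_coe.1 hq)
      exact mem_coe.2 (Nat.mem_primeFactors.2 ⟨(mem_PW.1 (mem_product.1 hq1).1).1,
        ⟨q.2, hq2.symm⟩, h7.1.ne'⟩)
    · intro q hq q' hq' hqq
      obtain ⟨hq1, hq2⟩ := mem_filter.1 (mem_coe.1 hq)
      obtain ⟨hq3, hq4⟩ := mem_filter.1 (mem_coe.1 hq')
      have h3 : q.1 = q'.1 := hqq
      have h4 : 0 < q.1 := (mem_PW.1 (mem_product.1 hq1).1).1.pos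
      refine Prod.ext h3 ?_
      rw [← h3, ← hq2] at hq4
      exact (Nat.eq_of_mul_eq_mul_left h4 hq4).symm
  have h3 : m.primeFactors.card ≤ i + 1 := by
    rw [← h9, ArithmeticFunction.cardFactors_apply]
    exact List.toFinset_card_le _
  exact_mod_cast h2.trans h3

end Pool.Agent.Lib.MP_42948a_nt.TF
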