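import Pool.Agent.Lib.MP_42948a_nt.TF.Defs
import Pool.Agent.Lib.MP_42948a_nt.OM.B1
import Pool.Agent.Lib.MP_42948a_nt.OM.E0
import Pool.Agent.Lib.MP_42948a_nt.PS.B1c

/-!
# Mertens' theorem for windows, uniformly (job M1)

The sum of `1 / p` over the primes `p ∈ (d ^ a, d ^ b]` not dividing `d` is `log (b / a) + O(1 / log d)`, uniformly for `a0 ≤ a ≤ b ≤ b0`.
Proof: `|∑_{z < p ≤ N} 1/p - log (log N / log z)| ≤ (C + 1) / log z` for `2 ≤ z ≤ N` (`M1_mertens`) by partial summation (`OM.abel_mono`) from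
`OM.prime_log_sum`; then `z = ⌊d^a⌋`, `N = ⌊d^b⌋`, and the primes dividing `d` (`PS.few_prime_divisors`).
-/

namespace Pool.Agent.Lib.MP_42948a_nt.TF

open Finset Pool.Agent.Lib.MP_42948a_nt.OA Pool.Agent.Lib.MP_42948a_nt.TQ

private theorem M1_tel (z : ℕ) (f : ℕ → ℝ) (u : ℕ) (hu : z ≤ u) :
    ∑ n ∈ Ioc z u, (f n - f (n - 1)) = f u - f z := by
  induction u, hu using Nat.le_induction with
  | base => simp
  | succ n hn ih =>
    rw [Finset.sum_Ioc_succ_top (by omega), ih]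
    simp

private theorem M1_log_pos {n : ℕ} (hn : 2 ≤ n) : 0 < Real.log (n : ℝ) := by
  apply Real.log_pos
  exact_mod_cast (show 1 < n by omega)

private theorem M1_log_mono (n : ℕ) (hn : 1 ≤ n) : Real.log (n : ℝ) ≤ Real.log ((n + 1 : ℕ) : ℝ) := by
  apply Real.log_le_log
  · exact_mod_cast hn
  · exact_mod_cast Nat.le_succ n

private theorem M1_log_step (n : ℕ) (hn : 1 ≤ n) :
    Real.log ((n + 1 : ℕ) : ℝ) - Real.log (n : ℝ) ≤ 1 := by
  have h0 : (0 : ℝ) < n := by exact_mod_cast hn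
  have h1 : (1 : ℝ) ≤ n := by exact_mod_cast hn
  have h2 : (0 : ℝ) < ((n + 1 : ℕ) : ℝ) := by push_cast; linarith
  rw [← Real.log_div h2.ne' h0.ne']
  have h3 := Real.log_le_sub_one_of_pos (div_pos h2 h0)
  have h4 : ((n + 1 : ℕ) : ℝ) / n ≤ 2 := by
    rw [div_le_iff₀ h0]
    push_cast
    linarith
  linarith

/-- Mertens' second theorem with the error term `O(1 / log z)`. -/
private theorem M1_mertens : ∃ C : ℝ, 0 ≤ C ∧ ∀ z N : ℕ, 2 ≤ z → z ≤ N →
    |∑ p ∈ (Ioc z N).filter Nat.Prime, (1 : ℝ) / p - Real.log (Real.log N / Real.log z)| ≤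
      (C + 1) / Real.log z := by
  obtain ⟨C, hC0, hC⟩ := OM.prime_log_sum
  refine ⟨C, hC0, ?_⟩
  intro z N hz hN
  have hlz := M1_log_pos hz
  have hlN := M1_log_pos (le_trans hz hN)
  set g : ℕ → ℝ := fun n => 1 / Real.log (n : ℝ) with hg
  set s : ℕ → ℝ := fun n => Real.log (n : ℝ) - Real.log ((n - 1 : ℕ) : ℝ) with hs
  set t : ℕ → ℝ := fun n => if n.Prime then Real.log n / n else 0 with ht
  have hg0 : ∀ n, z < n → 0 ≤ g n := fun n hn => div_nonneg zero_le_one (M1_log_pos (by omega)).le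
  have hanti : ∀ n, z < n → g (n + 1) ≤ g n := fun n hn =>
    one_div_le_one_div_of_le (M1_log_pos (by omega)) (M1_log_mono n (by omega))
  have hsum : ∀ u, z < u → ∑ n ∈ Ioc z u, (t n - s n) =
      ∑ p ∈ (Ioc z u).filter Nat.Prime, Real.log p / p - (Real.log u - Real.log z) := by
    intro u hu
    rw [Finset.sum_sub_distrib, ht, ← Finset.sum_filter, hs, M1_tel z (fun n => Real.log (n : ℝ)) u hu.le]
  have hab1 := OM.abel_mono (fun n => t n - s n) g C hC0 z N hg0 hanti (fun u hu => by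
    rw [hsum u hu]
    exact (abs_le.1 (hC z u (by omega) hu.le)).2)
  have hab2 := OM.abel_mono (fun n => -(t n - s n)) g C hC0 z N hg0 hanti (fun u hu => by
    rw [Finset.sum_neg_distrib, hsum u hu]
    linarith [(abs_le.1 (hC z u (by omega) hu.le)).1])
  have hgz : g (z + 1) ≤ 1 / Real.log z :=
    one_div_le_one_div_of_le hlz (M1_log_mono z (by omega))
  have hCg : C * g (z + 1) ≤ C * (1 / Real.log z) := mul_le_mul_of_nonneg_left hgz hC0
  have e1 : ∑ n ∈ Ioc z N, t n * g n = ∑ p ∈ (Ioc z N).filter Nat.Prime, (1 : ℝ) / p := by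
    rw [Finset.sum_filter]
    refine Finset.sum_congr rfl fun p hp => ?_
    rw [mem_Ioc] at hp
    simp only [ht, hg]
    split_ifs
    · have h3 := (M1_log_pos (show 2 ≤ p by omega)).ne'
      have h4 : (p : ℝ) ≠ 0 := by
        have : p ≠ 0 := by omega
        exact_mod_cast this
      field_simp
    · ring
  have e2 : ∑ n ∈ Ioc z N, (t n - s n) * g n =
      ∑ p ∈ (Ioc z N).filter Nat.Prime, (1 : ℝ) / p - ∑ n ∈ Ioc z N, s n * g n := by
    rw [← e1, ← Finset.sum_sub_distrib]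
    exact Finset.sum_congr rfl fun n _ => by ring
  have e3 : ∑ n ∈ Ioc z N, -(t n - s n) * g n =
      -(∑ p ∈ (Ioc z N).filter Nat.Prime, (1 : ℝ) / p - ∑ n ∈ Ioc z N, s n * g n) := by
    rw [← e2, ← Finset.sum_neg_distrib]
    exact Finset.sum_congr rfl fun n _ => by ring
  rw [e2] at hab1
  rw [e3] at hab2
  -- the smooth sum
  have hup : ∑ n ∈ Ioc z N, s n * g n ≤ Real.log (Real.log N) - Real.log (Real.log z) := by
    rw [← M1_tel z (fun n => Real.log (Real.log (n : ℝ))) N hN]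
    refine Finset.sum_le_sum fun n hn => ?_
    rw [mem_Ioc] at hn
    obtain ⟨m, rfl⟩ : ∃ m, n = m + 1 := ⟨n - 1, by omega⟩
    have hv := M1_log_pos (show 2 ≤ m by omega)
    have hu := M1_log_pos (show 2 ≤ m + 1 by omega)
    have h2 := Real.log_le_sub_one_of_pos (div_pos hv hu)
    rw [Real.log_div hv.ne' hu.ne'] at h2
    have h3 : (Real.log ((m + 1 : ℕ) : ℝ) - Real.log (m : ℝ)) * (1 / Real.log ((m + 1 : ℕ) : ℝ)) =
        1 - Real.log (m : ℝ) / Real.log ((m + 1 : ℕ) : ℝ) := by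
      field_simp
    simp only [hs, hg, Nat.add_sub_cancel]
    rw [h3]
    linarith
  have hlow : Real.log (Real.log N) - Real.log (Real.log z) - 1 / Real.log z ≤
      ∑ n ∈ Ioc z N, s n * g n := by
    have h1 : (Real.log (Real.log N) + 1 / Real.log N) - (Real.log (Real.log z) + 1 / Real.log z) ≤
        ∑ n ∈ Ioc z N, s n * g n := by
      rw [← M1_tel z (fun n => Real.log (Real.log (n : ℝ)) + 1 / Real.log (n : ℝ)) N hN]
      refine Finset.sum_le_sum fun n hn => ?_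
      rw [mem_Ioc] at hn
      obtain ⟨m, rfl⟩ : ∃ m, n = m + 1 := ⟨n - 1, by omega⟩
      have hv := M1_log_pos (show 2 ≤ m by omega)
      have hu := M1_log_pos (show 2 ≤ m + 1 by omega)
      have hstep := M1_log_step m (by omega)
      have hmono := M1_log_mono m (by omega)
      have h2 := Real.log_le_sub_one_of_pos (div_pos hu hv)
      rw [Real.log_div hu.ne' hv.ne'] at h2
      simp only [hs, hg, Nat.add_sub_cancel]
      set u := Real.log ((m + 1 : ℕ) : ℝ) with hudef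
      set v := Real.log (m : ℝ) with hvdef
      have h3 : u / v - 1 + 1 / u - 1 / v ≤ (u - v) * (1 / u) := by
        rw [← sub_nonneg]
        have h4 : (u - v) * (1 / u) - (u / v - 1 + 1 / u - 1 / v) = (u - v) * (1 - (u - v)) / (u * v) := by
          field_simp
          ring
        rw [h4]
        exact div_nonneg (mul_nonneg (by linarith) (by linarith)) (mul_pos hu hv).le
      linarith
    have h2 : 0 ≤ 1 / Real.log N := by positivity
    linarith
  rw [Real.log_div hlN.ne' hlz.ne', abs_le]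
  have h5 : (C + 1) / Real.log z = C * (1 / Real.log z) + 1 / Real.log z := by ring
  rw [h5]
  have h6 : 0 ≤ 1 / Real.log z := by positivity
  constructor <;> linarith

/-- The logarithm of the floor. -/
private theorem M1_floor {x : ℝ} (hx : 2 ≤ Real.log x) (hx0 : 0 < x) :
    0 < Real.log (⌊x⌋₊ : ℝ) ∧ Real.log x / 2 ≤ Real.log (⌊x⌋₊ : ℝ) ∧
    |Real.log (Real.log (⌊x⌋₊ : ℝ)) - Real.log (Real.log x)| ≤ 2 / Real.log x := by
  have h1 : (3 : ℝ) ≤ x := by
    have := Real.log_le_sub_one_of_pos hx0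
    linarith
  have h2 : x / 2 ≤ (⌊x⌋₊ : ℝ) := by
    have := Nat.lt_floor_add_one x
    linarith
  have h3 : (⌊x⌋₊ : ℝ) ≤ x := Nat.floor_le hx0.le
  have h4 : Real.log x - 1 ≤ Real.log (⌊x⌋₊ : ℝ) := by
    have h5 : Real.log (x / 2) ≤ Real.log (⌊x⌋₊ : ℝ) := Real.log_le_log (by positivity) h2
    rw [Real.log_div hx0.ne' (by norm_num)] at h5
    have := Real.log_two_lt_d9
    linarith
  have h5 : Real.log (⌊x⌋₊ : ℝ) ≤ Real.log x := Real.log_le_log (by linarith) h3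
  have hl : 0 < Real.log (⌊x⌋₊ : ℝ) := by linarith
  have hL : 0 < Real.log x := by linarith
  refine ⟨hl, by linarith, ?_⟩
  have h6 : Real.log (Real.log (⌊x⌋₊ : ℝ)) ≤ Real.log (Real.log x) := Real.log_le_log hl h5
  have h7 : Real.log (Real.log x) - Real.log (Real.log (⌊x⌋₊ : ℝ)) ≤ 2 / Real.log x := by
    have h8 := Real.log_le_sub_one_of_pos (div_pos hL hl)
    rw [Real.log_div hL.ne' hl.ne'] at h8
    have h9 : Real.log x / Real.log (⌊x⌋₊ : ℝ) - 1 ≤ 2 / Real.log x := by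
      rw [div_sub_one hl.ne', div_le_div_iff₀ hl hL]
      nlinarith
    linarith
  rw [abs_le]
  have h9 : 0 ≤ 2 / Real.log x := by positivity
  constructor <;> linarith

/-- The primes of the window, all and those not dividing `d`. -/
private theorem M1_divisors (a0 : ℝ) (ha0 : 0 < a0) (d : ℕ) (hd : 2 ≤ d) (a b : ℝ) (ha : a0 ≤ a) :
    ∑ p ∈ PW d a b, 1 / (p : ℝ) ≤
      ∑ p ∈ (Ioc ⌊(d : ℝ) ^ a⌋₊ ⌊(d : ℝ) ^ b⌋₊).filter Nat.Prime, (1 : ℝ) / p ∧
    ∑ p ∈ (Ioc ⌊(d : ℝ) ^ a⌋₊ ⌊(d : ℝ) ^ b⌋₊).filter Nat.Prime, (1 : ℝ) / p ≤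
      ∑ p ∈ PW d a b, 1 / (p : ℝ) + 1 / (a0 * (a0 * Real.log d)) := by
  have hd1 : (1 : ℝ) < d := by exact_mod_cast (by omega : 1 < d)
  have hL : 0 < Real.log d := Real.log_pos hd1
  set T := (Ioc ⌊(d : ℝ) ^ a⌋₊ ⌊(d : ℝ) ^ b⌋₊).filter Nat.Prime with hT
  set S := d.primeFactors.filter (fun p : ℕ => (d : ℝ) ^ a0 < p) with hS
  have h1 : PW d a b = T.filter (fun p => ¬ p ∣ d) := by
    ext p
    simp only [PW, primesOff, hT, Finset.mem_filter, Finset.mem_Icc, Finset.mem_Ioc]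
    constructor
    · rintro ⟨⟨_, h2⟩, h3, h4, h5⟩
      exact ⟨⟨⟨h4, h2⟩, h3⟩, h5⟩
    · rintro ⟨⟨⟨h4, h2⟩, h3⟩, h5⟩
      exact ⟨⟨h3.one_lt.le, h2⟩, h3, h4, h5⟩
  have h2 : ∑ p ∈ T, (1 : ℝ) / p = ∑ p ∈ T.filter (fun p => p ∣ d), (1 : ℝ) / p + ∑ p ∈ PW d a b, 1 / (p : ℝ) := by
    rw [h1]
    exact (Finset.sum_filter_add_sum_filter_not T _ _).symm
  have h3 : 0 ≤ ∑ p ∈ T.filter (fun p => p ∣ d), (1 : ℝ) / p :=
    Finset.sum_nonneg fun p _ => by positivity
  have hda : 0 < (d : ℝ) ^ a0 := Real.rpow_pos_of_pos (by linarith) _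
  have h4 : T.filter (fun p => p ∣ d) ⊆ S := by
    intro p hp
    rw [Finset.mem_filter, hT, Finset.mem_filter, Finset.mem_Ioc] at hp
    obtain ⟨⟨⟨h5, _⟩, h6⟩, h7⟩ := hp
    rw [hS, Finset.mem_filter, Nat.mem_primeFactors]
    refine ⟨⟨h6, h7, by omega⟩, ?_⟩
    have h8 := (Nat.floor_lt (Real.rpow_pos_of_pos (by linarith : (0:ℝ) < d) a).le).1 h5
    exact lt_of_le_of_lt (Real.rpow_le_rpow_of_exponent_le hd1.le ha) h8
  have h5 : ∑ p ∈ T.filter (fun p => p ∣ d), (1 : ℝ) / p ≤ 1 / (a0 * (a0 * Real.log d)) := by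
    calc ∑ p ∈ T.filter (fun p => p ∣ d), (1 : ℝ) / p ≤ ∑ p ∈ S, (1 : ℝ) / p :=
          Finset.sum_le_sum_of_subset_of_nonneg h4 fun p _ _ => by positivity
      _ ≤ ∑ p ∈ S, 1 / (d : ℝ) ^ a0 := by
          refine Finset.sum_le_sum fun p hp => ?_
          rw [hS, Finset.mem_filter] at hp
          exact one_div_le_one_div_of_le hda hp.2.le
      _ = (S.card : ℝ) * (1 / (d : ℝ) ^ a0) := by
          rw [Finset.sum_const, nsmul_eq_mul]
      _ ≤ (1 / a0) * (1 / (a0 * Real.log d)) := by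
          refine mul_le_mul (PS.few_prime_divisors a0 ha0 d hd) ?_ (by positivity) (by positivity)
          refine one_div_le_one_div_of_le (by positivity) ?_
          rw [Real.rpow_def_of_pos (by linarith)]
          have := Real.add_one_le_exp (Real.log d * a0)
          linarith
      _ = 1 / (a0 * (a0 * Real.log d)) := by
          rw [one_div_mul_one_div]
  constructor <;> linarith

theorem win (a0 b0 η : ℝ) (ha0 : 0 < a0) (hη : 0 < η) : ∃ d0 : ℕ, ∀ d : ℕ, d0 ≤ d → ∀ a b : ℝ, a0 ≤ a → a ≤ b → b ≤ b0 →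
    |∑ p ∈ PW d a b, 1 / (p : ℝ) - Real.log (b / a)| ≤ η := by
  obtain ⟨C, hC0, hC⟩ := M1_mertens
  set K : ℝ := (2 * (C + 1) + 4 + 1 / a0) / a0 with hK
  have hK0 : 0 < K := by positivity
  have hlim : Filter.Tendsto (fun d : ℕ => Real.log (d : ℝ)) Filter.atTop Filter.atTop :=
    Real.tendsto_log_atTop.comp tendsto_natCast_atTop_atTop
  obtain ⟨d1, hd1⟩ := Filter.eventually_atTop.1 (hlim.eventually_ge_atTop (max (2 / a0) (K / η)))
  refine ⟨max 2 d1, fun d hd a b ha hab _ => ?_⟩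
  have hd2 : 2 ≤ d := (le_max_left _ _).trans hd
  have hL1 := hd1 d ((le_max_right _ _).trans hd)
  have hd1' : (1 : ℝ) < d := by exact_mod_cast (by omega : 1 < d)
  have hd0 : (0 : ℝ) < d := by linarith
  set L := Real.log (d : ℝ) with hL
  have hL0 : 0 < L := Real.log_pos hd1'
  have hLa : 2 ≤ a0 * L := by
    have := (le_max_left _ _).trans hL1
    rw [div_le_iff₀ ha0] at this
    linarith
  have hLK : K / L ≤ η := by
    have := (le_max_right _ _).trans hL1
    rw [div_le_iff₀ hη] at this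
    rw [div_le_iff₀ hL0]
    linarith
  have ha1 : 0 < a := lt_of_lt_of_le ha0 ha
  have hb1 : 0 < b := lt_of_lt_of_le ha1 hab
  have hla : Real.log ((d : ℝ) ^ a) = a * L := Real.log_rpow hd0 a
  have hlb : Real.log ((d : ℝ) ^ b) = b * L := Real.log_rpow hd0 b
  have haL : a0 * L ≤ a * L := mul_le_mul_of_nonneg_right ha hL0.le
  have hbL : a * L ≤ b * L := mul_le_mul_of_nonneg_right hab hL0.le
  obtain ⟨z1, z2, z3⟩ := M1_floor (x := (d : ℝ) ^ a) (by rw [hla]; linarith) (Real.rpow_pos_of_pos hd0 a)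
  obtain ⟨N1, N2, N3⟩ := M1_floor (x := (d : ℝ) ^ b) (by rw [hlb]; linarith) (Real.rpow_pos_of_pos hd0 b)
  rw [hla] at z2 z3
  rw [hlb] at N2 N3
  obtain ⟨D1, D2⟩ := M1_divisors a0 ha0 d hd2 a b ha
  set z := ⌊(d : ℝ) ^ a⌋₊ with hz
  set N := ⌊(d : ℝ) ^ b⌋₊ with hN
  have hz2 : 2 ≤ z := by
    by_contra hcon
    have h1 : z = 0 ∨ z = 1 := by omega
    rcases h1 with h1 | h1 <;> rw [h1] at z1 <;> simp at z1
  have hzN : z ≤ N := Nat.floor_le_floor (Real.rpow_le_rpow_of_exponent_le hd1'.le hab)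
  have hM := hC z N hz2 hzN
  rw [Real.log_div N1.ne' z1.ne'] at hM
  have hba : Real.log (b / a) = Real.log (b * L) - Real.log (a * L) := by
    rw [Real.log_mul hb1.ne' hL0.ne', Real.log_mul ha1.ne' hL0.ne', Real.log_div hb1.ne' ha1.ne']
    ring
  have a0L : 0 < a0 * L := by linarith
  have e1 : (C + 1) / Real.log z ≤ 2 * (C + 1) / (a0 * L) := by
    rw [div_le_div_iff₀ z1 a0L]
    have : a0 * L ≤ 2 * Real.log z := by linarith
    nlinarith [mul_le_mul_of_nonneg_left this (by linarith : 0 ≤ C + 1)]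
  have e2 : 2 / (a * L) ≤ 2 / (a0 * L) := div_le_div_of_nonneg_left (by norm_num) a0L haL
  have e3 : 2 / (b * L) ≤ 2 / (a0 * L) := div_le_div_of_nonneg_left (by norm_num) a0L (haL.trans hbL)
  have e4 : K / L = 2 * (C + 1) / (a0 * L) + 2 / (a0 * L) + 2 / (a0 * L) + 1 / (a0 * (a0 * L)) := by
    rw [hK]
    field_simp
    ring
  rw [hba]
  rw [abs_le] at hM z3 N3 ⊢
  constructor <;> linarith

end Pool.Agent.Lib.MP_42948a_nt.TF
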