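import Pool.Agent.Lib.MP_42948a_nt.TF.A1
import Pool.Agent.Lib.MP_42948a_nt.EK.A1
import Pool.Agent.Lib.MP_42948a_nt.EK.C2a
import Pool.Agent.Lib.MP_42948a_nt.EK.TI6
import Pool.Agent.Lib.MP_42948a_nt.EK.B3
import Pool.Agent.Lib.MP_42948a_nt.SV.Z

/-!
# The bridge from `EK` to `TF`
-/

namespace Pool.Agent.Lib.MP_42948a_nt.TF

open Finset Pool.Agent.Lib.MP_42948a_nt.OA Pool.Agent.Lib.MP_42948a_nt.TQ Pool.Agent.Lib.MP_42948a_nt.PS

/-- the kernel of mean `1` of a finite set of characters -/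
noncomputable def kr {d : ℕ} [NeZero d] (S : Finset (DirichletCharacter ℂ d)) (g : (ZMod d)ˣ) : ℝ :=
  (Fintype.card (ZMod d)ˣ : ℝ) * EK.bt S g

theorem ker_kr {d : ℕ} [NeZero d] (S : Finset (DirichletCharacter ℂ d)) (hS : S.Nonempty) (X : Finset (DirichletCharacter ℂ d))
    (η Q : ℝ) (hX : ∀ χ ∈ X, 1 - η ≤ EK.bh S χ) (hQ : (S.card : ℝ) ^ 2 ≤ Q) : Ker X η Q (kr S) (EK.bh S) where
  nonneg := fun g => mul_nonneg (Nat.cast_nonneg _) (EK.bt_nonneg S g)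
  coef := fun χ => by
    have h1 : SF (kr S) χ = (Fintype.card (ZMod d)ˣ : ℂ) * SF (EK.bt S) χ := by
      unfold SF kr
      rw [mul_sum]
      refine sum_congr rfl fun c _ => ?_
      push_cast
      ring
    rw [h1, EK.SF_bt S hS χ]
    push_cast
    ring
  b_nonneg := fun χ => EK.bh_nonneg S χ
  b_le := fun χ => EK.bh_le_one S χ
  b_one := EK.bh_one S hS
  big := hX
  wn := by
    classical
    have h1 : ∑ χ : DirichletCharacter ℂ d, EK.bh S χ = ∑ χ ∈ (univ : Finset (DirichletCharacter ℂ d)).filter (fun χ => EK.bh S χ ≠ 0), EK.bh S χ := by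
      rw [sum_filter]
      refine sum_congr rfl fun χ _ => ?_
      split_ifs with h
      · rfl
      · push Not at h
        exact h
    rw [h1]
    have h2 : ∑ χ ∈ (univ : Finset (DirichletCharacter ℂ d)).filter (fun χ => EK.bh S χ ≠ 0), EK.bh S χ ≤
        ∑ χ ∈ (univ : Finset (DirichletCharacter ℂ d)).filter (fun χ => EK.bh S χ ≠ 0), (1 : ℝ) :=
      sum_le_sum fun χ _ => EK.bh_le_one S χ
    refine h2.trans ?_
    rw [sum_const, nsmul_eq_mul, mul_one]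
    have h3 : (((univ : Finset (DirichletCharacter ℂ d)).filter (fun χ => EK.bh S χ ≠ 0)).card : ℝ) ≤ ((S.card ^ 2 : ℕ) : ℝ) := by
      exact_mod_cast EK.bh_supp S
    refine h3.trans ?_
    push_cast
    exact hQ

theorem sm_kr {d : ℕ} [NeZero d] (S : Finset (DirichletCharacter ℂ d)) (A : Finset ℕ) (x : (ZMod d)ˣ) :
    sm (kr S) A x = (Fintype.card (ZMod d)ˣ : ℝ) * EK.sm S (EK.CF d A EK.rw1) x := by
  rw [EK.sm_CF]
  unfold sm kr EK.rw1
  rw [mul_sum]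
  refine sum_congr rfl fun n _ => ?_
  rw [mul_comm x]
  ring

/-- the kernel for at most `m` characters -/
theorem kernel_kr (m : ℕ) (η : ℝ) (hη : 0 < η) : ∃ B : ℕ, ∀ (d : ℕ) [NeZero d] (X : Finset (DirichletCharacter ℂ d)),
    X.card ≤ m → ∃ S : Finset (DirichletCharacter ℂ d), S.Nonempty ∧ S.card ≤ B ∧ Ker X η ((B : ℝ) ^ 2) (kr S) (EK.bh S) := by
  obtain ⟨B, hB⟩ := EK.ball m η hη
  refine ⟨B, fun d _ X hX => ?_⟩
  obtain ⟨S, h1, h2, h3⟩ := hB (DirichletCharacter ℂ d) X hX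
  refine ⟨S, h1, h2, ker_kr S h1 X η _ h3 ?_⟩
  have h4 : (S.card : ℝ) ≤ B := by exact_mod_cast h2
  exact pow_le_pow_left₀ (Nat.cast_nonneg _) h4 2

/-- the smoothed coverage by primes and products of two primes, from the scale `83 / 100` on -/
theorem cover_kr (α : ℝ) (hα : 0 < α) (hα1 : α ≤ 9 / 100) : ∃ h0 : ℝ, 0 < h0 ∧ ∀ h : ℝ, 0 < h → h ≤ h0 →
    ∃ c1 : ℝ, 0 < c1 ∧ ∀ B : ℕ, ∃ d0 : ℕ, ∀ d : ℕ, d0 ≤ d → ∀ [NeZero d], ∀ S : Finset (DirichletCharacter ℂ d),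
      S.Nonempty → S.card ≤ B → ∀ a : ℝ, 83 / 100 ≤ a → a ≤ 5 / 4 → ∀ x : (ZMod d)ˣ,
        c1 ≤ sm (kr S) (EW d α 1 a (a + h)) x + sm (kr S) (EW d α 2 a (a + h)) x := by
  classical
  obtain ⟨h0, c, hh0, hc, hcov⟩ := EK.coverage EK.b3 (299 / 500) (83 / 100) (5 / 4) (by norm_num) (by norm_num) (by norm_num)
    (by norm_num) (by norm_num) SV.svp
  refine ⟨h0, hh0, fun h hh hh1 => ⟨c * h, by positivity, fun B => ?_⟩⟩
  obtain ⟨d0, hd0⟩ := hcov h hh hh1 B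
  refine ⟨max d0 2, fun d hd _ S hS hSB a ha1 ha2 x => ?_⟩
  have hd1 : d0 ≤ d := le_trans (le_max_left _ _) hd
  have hd2 : 2 ≤ d := le_trans (le_max_right _ _) hd
  have hdr : (1 : ℝ) ≤ d := by exact_mod_cast (by omega : 1 ≤ d)
  have hdp : (0 : ℝ) < d := by linarith
  have key := hd0 d hd1 S hS hSB a ha1 ha2 x
  refine key.trans ?_
  rw [← sm_kr]
  -- the set of the coverage lies in the union of the two sets
  have hsub : EK.P12 d (9 / 100) a (a + h) ⊆ EW d α 1 a (a + h) ∪ EW d α 2 a (a + h) := by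
    intro n hn
    unfold EK.P12 at hn
    rw [mem_filter, mem_Icc] at hn
    obtain ⟨⟨hn1, hn2⟩, hn3, hn4, hn5, hn6⟩ := hn
    have hr : Rough ⌊(d : ℝ) ^ α⌋₊ n := by
      refine ⟨hn5.1, fun q hq hqn => ?_⟩
      refine lt_of_le_of_lt ?_ (hn5.2 q hq hqn)
      exact Nat.floor_le_floor (Real.rpow_le_rpow_of_exponent_le hdr hα1)
    have hfl : ⌊(d : ℝ) ^ a⌋₊ < n := (Nat.floor_lt (Real.rpow_nonneg hdp.le _)).2 hn3
    have hn7 : 1 < n := by
      have h1 : (1 : ℝ) ≤ (d : ℝ) ^ a := Real.one_le_rpow hdr (by linarith)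
      have h2 : (1 : ℝ) < n := lt_of_le_of_lt h1 hn3
      exact_mod_cast h2
    have hn8 : ArithmeticFunction.cardFactors n ≠ 0 := by
      intro h0
      rw [ArithmeticFunction.cardFactors_eq_zero_iff_eq_zero_or_one] at h0
      omega
    rw [mem_union]
    unfold EW
    rw [mem_filter, mem_filter, mem_Ioc]
    have h12 : ArithmeticFunction.cardFactors n = 1 ∨ ArithmeticFunction.cardFactors n = 2 := by omega
    rcases h12 with h12 | h12
    · exact Or.inl ⟨⟨hfl, hn2⟩, hr, hn4, h12⟩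
    · exact Or.inr ⟨⟨hfl, hn2⟩, hr, hn4, h12⟩
  have hnn : ∀ n : ℕ, 0 ≤ 1 / (n : ℝ) * kr S (x * (ucl d n)⁻¹) := fun n =>
    mul_nonneg (by positivity) (mul_nonneg (Nat.cast_nonneg _) (EK.bt_nonneg S _))
  unfold sm
  refine (sum_le_sum_of_subset_of_nonneg hsub fun n _ _ => hnn n).trans ?_
  rw [← sum_union_inter]
  have h3 : 0 ≤ ∑ n ∈ EW d α 1 a (a + h) ∩ EW d α 2 a (a + h), 1 / (n : ℝ) * kr S (x * (ucl d n)⁻¹) :=
    sum_nonneg fun n _ => hnn n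
  linarith

end Pool.Agent.Lib.MP_42948a_nt.TF
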