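import Pool.Agent.Lib.MP_42948a_nt.TF.Defs
import Pool.Agent.Lib.MP_42948a_nt.EX.M

/-!
# The exceptional end
-/

namespace Pool.Agent.Lib.MP_42948a_nt.TF

open Finset Pool.Agent.Lib.MP_42948a_nt.OA Pool.Agent.Lib.MP_42948a_nt.TQ Pool.Agent.Lib.MP_42948a_nt.PS

private theorem FE_chi {d : ℕ} (ψ : (ZMod d)ˣ →* ℤˣ) {p : ℕ} (hp : p.Coprime d) : chi ψ p = rv ψ (ucl d p) := by
  have h1 : IsUnit (p : ZMod d) := (ZMod.isUnit_iff_coprime p d).2 hp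
  unfold chi rv
  rw [dif_pos h1]
  have h2 : h1.unit = ucl d p := by
    ext
    rw [ucl_val hp]
    rfl
  rw [h2]

private theorem FE_sum {d : ℕ} (ψ : (ZMod d)ˣ →* ℤˣ) (a b κ : ℝ)
    (h : ∑ p ∈ PW d a b, 1 / (p : ℝ) * (1 + rv ψ (ucl d p)) ≤ κ) :
    ∑ p ∈ (primesOff d ⌊(d : ℝ) ^ a⌋₊ ⌊(d : ℝ) ^ b⌋₊).filter (fun p => chi ψ p = 1), 1 / (p : ℝ) ≤ κ := by
  refine le_trans ?_ h
  have hnn : ∀ p ∈ PW d a b, 0 ≤ 1 / (p : ℝ) * (1 + rv ψ (ucl d p)) := by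
    intro p _
    refine mul_nonneg (by positivity) ?_
    unfold rv
    rcases Int.units_eq_one_or (ψ (ucl d p)) with h1 | h1 <;> rw [h1] <;> norm_num
  refine le_trans ?_ (sum_le_sum_of_subset_of_nonneg (filter_subset (fun p => chi ψ p = 1) (PW d a b)) fun p hp _ => hnn p hp)
  refine sum_le_sum fun p hp => ?_
  rw [mem_filter] at hp
  have h2 : p.Coprime d := by
    have h3 := hp.1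
    unfold primesOff at h3
    rw [mem_filter] at h3
    exact (Nat.Prime.coprime_iff_not_dvd h3.2.1).2 h3.2.2.2
  rw [← FE_chi ψ h2, hp.2]
  have h4 : 0 ≤ 1 / (p : ℝ) := by positivity
  linarith

theorem exc_end (ε0 : ℝ) (h0 : 0 < ε0) (h1 : ε0 ≤ 1 / 1000) : ∃ κ α0 : ℝ, 0 < κ ∧ 0 < α0 ∧ ∀ α : ℝ, 0 < α → α ≤ α0 →
    ∃ d0 : ℕ, ∀ d : ℕ, d0 ≤ d → ∀ [NeZero d], ∀ ψ : (ZMod d)ˣ →* ℤˣ, ψ ≠ 1 →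
      ∑ p ∈ PW d α (1 / 2 + ε0), 1 / (p : ℝ) * (1 + rv ψ (ucl d p)) ≤ κ →
      ∑ p ∈ PW d (1 + ε0) (1 + 2 * ε0), 1 / (p : ℝ) * (1 + rv ψ (ucl d p)) ≤ κ →
      ∀ c : (ZMod d)ˣ, ψ c = 1 → ∃ q m1 m2 : ℕ, q.Prime ∧ m1.Prime ∧ m2.Prime ∧ ⌊(d : ℝ) ^ α⌋₊ < q ∧
        ⌊(d : ℝ) ^ α⌋₊ < m1 ∧ ⌊(d : ℝ) ^ α⌋₊ < m2 ∧ (q : ℝ) ≤ (d : ℝ) ^ (1 + 2 * ε0) ∧ (m1 : ℝ) ≤ (d : ℝ) ^ (1 + 2 * ε0) ∧
        (m2 : ℝ) ≤ (d : ℝ) ^ (2 * α) ∧ ((q * m1 * m2 : ℕ) : ZMod d) = (c : ZMod d) := by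
  obtain ⟨κ, hκ, α0, hα0, h⟩ := EX.exceptional ε0 h0 (by linarith)
  refine ⟨κ, α0, hκ, hα0, fun α hα hα1 => ?_⟩
  obtain ⟨d0, hd0⟩ := h α hα hα1
  exact ⟨d0, fun d hd _ ψ hψ hs1 hs2 c hc => hd0 d hd ψ hψ (FE_sum ψ _ _ κ hs1) (FE_sum ψ _ _ κ hs2) c hc⟩

end Pool.Agent.Lib.MP_42948a_nt.TF
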