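import Pool.Agent.Lib.MP_42948a_nt.TF.E2

/-!
# The error function of a window (job E3)

`eI` is the error of `link` for the window `(a, a + h]` and the multiplier `y`.
Full proof of `esum`. For fixed `x` apply `dom` with `g m = β (x * (ucl d m)⁻¹) ≥ 0`, `i = 1`: for `y ∈ PW d b b'` (coprime to `d`) and
`n ∈ EW d α 1 a (a+h)`: `g (y n) = β (x (ucl y)⁻¹ (ucl n)⁻¹)` (`ucl_mul`), so the left side of `dom` is
`∑ y ∈ PW d b b', 1/y * sm β (EW d α 1 a (a + h)) (x * (ucl y)⁻¹)`, and the right side `2 * sm β (EW d α 2 (a+b) (a+h+b')) x`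
`≤ 2 * sm β (EW d α 2 (1+ε0) (1+2*ε0)) x` (`sm_mono`, `EW_mono`, `hb1`, `hb2`). Multiply by `s x ≥ 0` and average over `x` (`av_sum`, `av_mul_left`):
`∑ y, 1/y * av (s x * sm β (EW 1) (x/y)) ≤ 2 E`. The same with `i = 2`, `1 - s x ≥ 0` and `EW d α 3`: `≤ 3 E`. Total `5 E`.
-/

namespace Pool.Agent.Lib.MP_42948a_nt.TF

open Finset Pool.Agent.Lib.MP_42948a_nt.OA Pool.Agent.Lib.MP_42948a_nt.TQ

/-- the error of `link` for the window `(a, a + h]` and the multiplier `y` -/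
noncomputable def eI {d : ℕ} [NeZero d] (β s : (ZMod d)ˣ → ℝ) (α a h : ℝ) (y : (ZMod d)ˣ) : ℝ :=
  av (fun x => s x * sm β (EW d α 1 a (a + h)) (x * y⁻¹)) + av (fun x => (1 - s x) * sm β (EW d α 2 a (a + h)) (x * y⁻¹))

theorem eI_nonneg {d : ℕ} [NeZero d] {β s : (ZMod d)ˣ → ℝ} (hβ : ∀ g, 0 ≤ β g) (hs : ∀ x, s x = 0 ∨ s x = 1) (α a h : ℝ)
    (y : (ZMod d)ˣ) : 0 ≤ eI β s α a h y := by
  have h0 : ∀ x, 0 ≤ s x ∧ 0 ≤ 1 - s x := by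
    intro x
    rcases hs x with h1 | h1 <;> rw [h1] <;> norm_num
  refine add_nonneg (av_nonneg fun x => ?_) (av_nonneg fun x => ?_)
  · exact mul_nonneg (h0 x).1 (sm_nonneg hβ _ _)
  · exact mul_nonneg (h0 x).2 (sm_nonneg hβ _ _)

private theorem E3_pt {d : ℕ} [NeZero d] {β : (ZMod d)ˣ → ℝ} (hβ : ∀ g, 0 ≤ β g)
    (α ε0 a h b b' : ℝ) (hb : α ≤ b) (hb1 : 1 + ε0 ≤ a + b) (hb2 : a + h + b' ≤ 1 + 2 * ε0)
    (i : ℕ) (x : (ZMod d)ˣ) :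
    ∑ y ∈ PW d b b', 1 / (y : ℝ) * sm β (EW d α i a (a + h)) (x * (ucl d y)⁻¹) ≤
      (i + 1 : ℝ) * sm β (EW d α (i + 1) (1 + ε0) (1 + 2 * ε0)) x := by
  have hd : 1 ≤ d := Nat.one_le_iff_ne_zero.2 (NeZero.ne d)
  have h1 := dom d hd α a (a + h) b b' i hb (fun m => β (x * (ucl d m)⁻¹)) (fun n => hβ _)
  have h2 : ∑ y ∈ PW d b b', 1 / (y : ℝ) * sm β (EW d α i a (a + h)) (x * (ucl d y)⁻¹) =
      ∑ y ∈ PW d b b', 1 / (y : ℝ) * ∑ n ∈ EW d α i a (a + h), 1 / (n : ℝ) *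
        β (x * (ucl d (y * n))⁻¹) := by
    refine sum_congr rfl fun y hy => ?_
    rw [sm]
    refine congrArg (fun t => 1 / (y : ℝ) * t) (sum_congr rfl fun n hn => ?_)
    rw [ucl_mul (PW_coprime hy) (EW_coprime hn), mul_inv, mul_assoc]
  rw [h2]
  refine h1.trans ?_
  have h3 : (0 : ℝ) ≤ (i : ℝ) + 1 := by positivity
  refine mul_le_mul_of_nonneg_left ?_ h3
  exact sm_mono hβ (EW_mono hd hb1 hb2) x

private theorem E3_av {d : ℕ} [NeZero d] {β : (ZMod d)ˣ → ℝ} (hβ : ∀ g, 0 ≤ β g)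
    (α ε0 a h b b' : ℝ) (hb : α ≤ b) (hb1 : 1 + ε0 ≤ a + b) (hb2 : a + h + b' ≤ 1 + 2 * ε0)
    (i : ℕ) (w : (ZMod d)ˣ → ℝ) (hw : ∀ x, 0 ≤ w x) :
    ∑ y ∈ PW d b b', 1 / (y : ℝ) *
        av (fun x => w x * sm β (EW d α i a (a + h)) (x * (ucl d y)⁻¹)) ≤
      (i + 1 : ℝ) * av (fun x => w x * sm β (EW d α (i + 1) (1 + ε0) (1 + 2 * ε0)) x) := by
  have h1 : ∑ y ∈ PW d b b', 1 / (y : ℝ) *
      av (fun x => w x * sm β (EW d α i a (a + h)) (x * (ucl d y)⁻¹)) =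
      av (fun x => ∑ y ∈ PW d b b', 1 / (y : ℝ) *
        (w x * sm β (EW d α i a (a + h)) (x * (ucl d y)⁻¹))) := by
    rw [av_sum]
    refine sum_congr rfl fun y _ => ?_
    rw [av_mul_left]
  rw [h1, ← av_mul_left]
  refine av_mono fun x => ?_
  have h2 : ∑ y ∈ PW d b b', 1 / (y : ℝ) *
      (w x * sm β (EW d α i a (a + h)) (x * (ucl d y)⁻¹)) =
      w x * ∑ y ∈ PW d b b', 1 / (y : ℝ) *
        sm β (EW d α i a (a + h)) (x * (ucl d y)⁻¹) := by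
    rw [mul_sum]
    refine sum_congr rfl fun y _ => ?_
    ring
  have h3 := mul_le_mul_of_nonneg_left (E3_pt hβ α ε0 a h b b' hb hb1 hb2 i x) (hw x)
  rw [h2]
  refine h3.trans (le_of_eq ?_)
  ring

theorem esum {d : ℕ} [NeZero d] {β s : (ZMod d)ˣ → ℝ} (hβ : ∀ g, 0 ≤ β g) (hs : ∀ x, s x = 0 ∨ s x = 1)
    (α ε0 a h b b' : ℝ) (hb : α ≤ b) (hb1 : 1 + ε0 ≤ a + b) (hb2 : a + h + b' ≤ 1 + 2 * ε0) (E : ℝ)
    (hE2 : av (fun x => s x * sm β (EW d α 2 (1 + ε0) (1 + 2 * ε0)) x) ≤ E)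
    (hE3 : av (fun x => (1 - s x) * sm β (EW d α 3 (1 + ε0) (1 + 2 * ε0)) x) ≤ E) :
    ∑ y ∈ PW d b b', 1 / (y : ℝ) * eI β s α a h (ucl d y) ≤ 5 * E := by
  have h0 : ∀ x, 0 ≤ s x ∧ 0 ≤ 1 - s x := by
    intro x
    rcases hs x with h1 | h1 <;> rw [h1] <;> norm_num
  have h1 := E3_av hβ α ε0 a h b b' hb hb1 hb2 1 s (fun x => (h0 x).1)
  have h2 := E3_av hβ α ε0 a h b b' hb hb1 hb2 2 (fun x => 1 - s x) (fun x => (h0 x).2)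
  have h3 : ∑ y ∈ PW d b b', 1 / (y : ℝ) * eI β s α a h (ucl d y) =
      ∑ y ∈ PW d b b', 1 / (y : ℝ) *
        av (fun x => s x * sm β (EW d α 1 a (a + h)) (x * (ucl d y)⁻¹)) +
      ∑ y ∈ PW d b b', 1 / (y : ℝ) *
        av (fun x => (1 - s x) * sm β (EW d α 2 a (a + h)) (x * (ucl d y)⁻¹)) := by
    rw [← sum_add_distrib]
    refine sum_congr rfl fun y _ => ?_
    rw [eI, mul_add]
  rw [h3]
  have h4 : ((1 : ℕ) : ℝ) + 1 = 2 := by norm_num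
  have h5 : ((2 : ℕ) : ℝ) + 1 = 3 := by norm_num
  rw [h4] at h1
  rw [h5] at h2
  have h6 := h1.trans (mul_le_mul_of_nonneg_left hE2 (by norm_num : (0 : ℝ) ≤ 2))
  have h7 := h2.trans (mul_le_mul_of_nonneg_left hE3 (by norm_num : (0 : ℝ) ≤ 3))
  linarith

end Pool.Agent.Lib.MP_42948a_nt.TF
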