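import Pool.Agent.Lib.MP_42948a_nt.TF.A1

/-!
# The sign of the real character on the numbers of a window (job G1)

Full proof. `F = sm β A`, `f = 2 s - 1`, `bψ = b χ ∈ [1 - η, 1]` (`hK.big`, `hK.b_le`).
(1) `av F = ∑ n ∈ A, 1/n` (`av_sm`).
(2) `av (F · rv ψ) = bψ ∑ n ∈ A, 1/n rv ψ (ucl d n)`: `av (fun x => β (x u⁻¹) rv ψ x) = rv ψ u * av (β · rv ψ)` (`av_shift`, `ψ` multiplicative) and
`φ * av (β · rv ψ) = ∑ g, β g rv ψ g = SF β χ = φ b χ` (`rv ψ g = ev χ g` is real, so `conj (ev χ g) = rv ψ g`).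
(3) `∑ 1/n (1 - σ rv ψ (ucl n)) = av F - σ ∑ 1/n rv ψ(..) ≤ av F - σ bψ ∑ 1/n rv ψ(..) + (1 - bψ) ∑ 1/n = av (F (1 - σ rv ψ)) + (1 - bψ) av F`
(because `|σ rv ψ| = 1`), and `(1 - bψ) av F ≤ η C`.
(4) `F (1 - σ rv ψ) = 2 (1 - s) F + F (f - σ rv ψ) ≤ 2 (1 - s) F + C |f - σ rv ψ|`, average `≤ 2 E + C η5`.
`signs'` is `signs` for `1 - s` and `-σ`.
-/

namespace Pool.Agent.Lib.MP_42948a_nt.TF

open Finset Pool.Agent.Lib.MP_42948a_nt.OA Pool.Agent.Lib.MP_42948a_nt.TQ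

private theorem G1_rv_mul {d : ℕ} (ψ : (ZMod d)ˣ →* ℤˣ) (x y : (ZMod d)ˣ) :
    rv ψ (x * y) = rv ψ x * rv ψ y := by
  unfold rv
  rw [map_mul, Units.val_mul, Int.cast_mul]

private theorem G1_rv_val {d : ℕ} (ψ : (ZMod d)ˣ →* ℤˣ) (x : (ZMod d)ˣ) :
    rv ψ x = 1 ∨ rv ψ x = -1 := by
  unfold rv
  rcases Int.units_eq_one_or (ψ x) with h | h
  · left
    rw [h]
    norm_num
  · right
    rw [h]
    norm_num

private theorem G1_av_rv {d : ℕ} [NeZero d] {X : Finset (DirichletCharacter ℂ d)} {η Q : ℝ}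
    {β : (ZMod d)ˣ → ℝ} {b : DirichletCharacter ℂ d → ℝ} (hK : Ker X η Q β b)
    (ψ : (ZMod d)ˣ →* ℤˣ) (χ : DirichletCharacter ℂ d)
    (hχ : ∀ x, ev χ x = ((rv ψ x : ℝ) : ℂ)) : av (fun x => β x * rv ψ x) = b χ := by
  have h1 := hK.coef χ
  unfold SF at h1
  have h2 : ∑ c : (ZMod d)ˣ, (β c : ℂ) * (starRingEnd ℂ) (ev χ c) =
      ((∑ c : (ZMod d)ˣ, β c * rv ψ c : ℝ) : ℂ) := by
    rw [Complex.ofReal_sum]
    refine sum_congr rfl fun c _ => ?_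
    rw [hχ, Complex.conj_ofReal, Complex.ofReal_mul]
  rw [h2] at h1
  have h3 := Complex.ofReal_injective h1
  unfold av
  rw [h3]
  have h4 : ((Fintype.card (ZMod d)ˣ : ℕ) : ℝ) ≠ 0 := Nat.cast_ne_zero.2 Fintype.card_ne_zero
  rw [mul_comm, mul_div_assoc, div_self h4, mul_one]

private theorem G1_av_F {d : ℕ} [NeZero d] {X : Finset (DirichletCharacter ℂ d)} {η Q : ℝ}
    {β : (ZMod d)ˣ → ℝ} {b : DirichletCharacter ℂ d → ℝ} (hK : Ker X η Q β b)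
    (ψ : (ZMod d)ˣ →* ℤˣ) (χ : DirichletCharacter ℂ d)
    (hχ : ∀ x, ev χ x = ((rv ψ x : ℝ) : ℂ)) (A : Finset ℕ) :
    av (fun x => sm β A x * rv ψ x) = b χ * ∑ n ∈ A, 1 / (n : ℝ) * rv ψ (ucl d n) := by
  have h1 : (fun x => sm β A x * rv ψ x) = fun x => ∑ n ∈ A, (fun x => 1 / (n : ℝ) *
      (fun x => (fun y => rv ψ (ucl d n) * (β y * rv ψ y)) (x * (ucl d n)⁻¹)) x) x := by
    funext x
    unfold sm
    rw [sum_mul]
    refine sum_congr rfl fun n _ => ?_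
    have h2 : rv ψ x = rv ψ (ucl d n) * rv ψ (x * (ucl d n)⁻¹) := by
      rw [← G1_rv_mul, mul_comm (ucl d n), inv_mul_cancel_right]
    change _ = 1 / (n : ℝ) * (rv ψ (ucl d n) * (β (x * (ucl d n)⁻¹) * rv ψ (x * (ucl d n)⁻¹)))
    rw [h2]
    ring
  rw [h1, av_sum, mul_sum]
  refine sum_congr rfl fun n _ => ?_
  rw [av_mul_left, av_shift (fun y => rv ψ (ucl d n) * (β y * rv ψ y)), av_mul_left,
    G1_av_rv hK ψ χ hχ]
  ring

theorem signs {d : ℕ} [NeZero d] {X : Finset (DirichletCharacter ℂ d)} {η Q : ℝ} {β : (ZMod d)ˣ → ℝ}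
    {b : DirichletCharacter ℂ d → ℝ} (hK : Ker X η Q β b) (hη : 0 ≤ η) (ψ : (ZMod d)ˣ →* ℤˣ) (χ : DirichletCharacter ℂ d)
    (hχ : ∀ x, ev χ x = ((rv ψ x : ℝ) : ℂ)) (hχX : χ ∈ X) (A : Finset ℕ) (C : ℝ)
    (hC : ∀ x : (ZMod d)ˣ, sm β A x ≤ C) (s : (ZMod d)ˣ → ℝ) (hs : ∀ x, s x = 0 ∨ s x = 1) (σ : ℝ) (hσ : σ = 1 ∨ σ = -1)
    (η5 E : ℝ) (hf : av (fun x => |2 * s x - 1 - σ * rv ψ x|) ≤ η5) (hE : av (fun x => (1 - s x) * sm β A x) ≤ E) :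
    ∑ n ∈ A, 1 / (n : ℝ) * (1 - σ * rv ψ (ucl d n)) ≤ 2 * E + C * η5 + C * η := by
  have hβ := hK.nonneg
  have hF0 : ∀ x, 0 ≤ sm β A x := fun x => sm_nonneg hβ A x
  have hC0 : 0 ≤ C := (hF0 1).trans (hC 1)
  obtain ⟨S1, eS1⟩ : ∃ S1, S1 = ∑ n ∈ A, 1 / (n : ℝ) := ⟨_, rfl⟩
  obtain ⟨S2, eS2⟩ : ∃ S2, S2 = ∑ n ∈ A, 1 / (n : ℝ) * rv ψ (ucl d n) := ⟨_, rfl⟩
  have h1 : av (sm β A) = S1 := by rw [eS1]; exact av_sm hK A
  have h2 : av (fun x => sm β A x * rv ψ x) = b χ * S2 := by rw [eS2]; exact G1_av_F hK ψ χ hχ A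
  have h3 : ∑ n ∈ A, 1 / (n : ℝ) * (1 - σ * rv ψ (ucl d n)) = S1 - σ * S2 := by
    rw [eS1, eS2, mul_sum, ← sum_sub_distrib]
    exact sum_congr rfl fun n _ => by ring
  have h4 : 0 ≤ S1 + σ * S2 := by
    rw [eS1, eS2, mul_sum, ← sum_add_distrib]
    refine sum_nonneg fun n _ => ?_
    have e1 : (0 : ℝ) ≤ 1 / (n : ℝ) := by positivity
    have e2 : 0 ≤ 1 + σ * rv ψ (ucl d n) := by
      rcases hσ with h | h <;> rcases G1_rv_val ψ (ucl d n) with h' | h' <;> rw [h, h'] <;> norm_num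
    have e3 := mul_nonneg e1 e2
    linarith
  have h5 : S1 ≤ C := by
    rw [← h1, ← av_const (d := d) C]
    exact av_mono hC
  have h50 : 0 ≤ S1 := by
    rw [← h1]
    exact av_nonneg hF0
  have hb1 := hK.big χ hχX
  have hb2 := hK.b_le χ
  have h6 : av (fun x => sm β A x + (-σ) * (sm β A x * rv ψ x)) = S1 - σ * (b χ * S2) := by
    rw [av_add, av_mul_left, h2]
    have h1' : av (fun x => sm β A x) = S1 := h1
    rw [h1']
    ring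
  have h7 : av (fun x => sm β A x + (-σ) * (sm β A x * rv ψ x)) ≤
      av (fun x => 2 * ((1 - s x) * sm β A x) + C * |2 * s x - 1 - σ * rv ψ x|) := by
    refine av_mono fun x => ?_
    have e1 : sm β A x * (2 * s x - 1 - σ * rv ψ x) ≤ C * |2 * s x - 1 - σ * rv ψ x| :=
      (mul_le_mul_of_nonneg_left (le_abs_self _) (hF0 x)).trans
        (mul_le_mul_of_nonneg_right (hC x) (abs_nonneg _))
    have e2 : sm β A x + (-σ) * (sm β A x * rv ψ x) =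
      2 * ((1 - s x) * sm β A x) + sm β A x * (2 * s x - 1 - σ * rv ψ x) := by ring
    rw [e2]
    linarith
  have h71 : av (fun x => 2 * ((1 - s x) * sm β A x) + C * |2 * s x - 1 - σ * rv ψ x|) =
      2 * av (fun x => (1 - s x) * sm β A x) + C * av (fun x => |2 * s x - 1 - σ * rv ψ x|) := by
    rw [av_add, av_mul_left, av_mul_left]
  rw [h6, h71] at h7
  have h8 : C * av (fun x => |2 * s x - 1 - σ * rv ψ x|) ≤ C * η5 := mul_le_mul_of_nonneg_left hf hC0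
  have h9 : (1 - b χ) * S1 ≤ η * C := mul_le_mul (by linarith) h5 h50 hη
  have h10 : 0 ≤ (1 - b χ) * (S1 + σ * S2) := mul_nonneg (by linarith) h4
  rw [h3]
  have h11 : S1 - σ * S2 = (S1 - σ * (b χ * S2)) + (1 - b χ) * S1 -
      (1 - b χ) * (S1 + σ * S2) := by ring
  rw [h11]
  linarith


theorem signs' {d : ℕ} [NeZero d] {X : Finset (DirichletCharacter ℂ d)} {η Q : ℝ} {β : (ZMod d)ˣ → ℝ}
    {b : DirichletCharacter ℂ d → ℝ} (hK : Ker X η Q β b) (hη : 0 ≤ η) (ψ : (ZMod d)ˣ →* ℤˣ) (χ : DirichletCharacter ℂ d)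
    (hχ : ∀ x, ev χ x = ((rv ψ x : ℝ) : ℂ)) (hχX : χ ∈ X) (A : Finset ℕ) (C : ℝ)
    (hC : ∀ x : (ZMod d)ˣ, sm β A x ≤ C) (s : (ZMod d)ˣ → ℝ) (hs : ∀ x, s x = 0 ∨ s x = 1) (σ : ℝ) (hσ : σ = 1 ∨ σ = -1)
    (η5 E : ℝ) (hf : av (fun x => |2 * s x - 1 - σ * rv ψ x|) ≤ η5) (hE : av (fun x => s x * sm β A x) ≤ E) :
    ∑ n ∈ A, 1 / (n : ℝ) * (1 + σ * rv ψ (ucl d n)) ≤ 2 * E + C * η5 + C * η := by
  have h1 := signs hK hη ψ χ hχ hχX A C hC (fun x => 1 - s x)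
    (fun x => (hs x).symm.imp (fun h => by rw [h]; ring) (fun h => by rw [h]; ring)) (-σ)
    (hσ.symm.imp (fun h => by rw [h]; ring) (fun h => by rw [h])) η5 E ?_ ?_
  · refine Eq.trans_le (sum_congr rfl fun n _ => ?_) h1
    ring
  · refine Eq.trans_le (congrArg av (funext fun x => ?_)) hf
    rw [← abs_neg]
    congr 1
    ring
  · refine Eq.trans_le (congrArg av (funext fun x => ?_)) hE
    ring


end Pool.Agent.Lib.MP_42948a_nt.TF
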