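import Pool.Agent.Lib.MP_42948a_nt.TF.E2

/-!
# Products of primes from windows (job G2)

`rvn ψ n = rv ψ (ucl d n)`. Full proofs.
`pair`: `dom` with `i = 1` (`EW_one`: `EW d α 1 a a' = PW d a a'` as `α ≤ a`) and `g m = 1 - τ rv ψ (ucl d m) ≥ 0`: for `y`, `n` coprime to `d`,
`rv ψ (ucl d (y n)) = rv ψ (ucl y) rv ψ (ucl n)` (`ucl_mul`, `map_mul`). The double sum is `u1 u2 - τ x1 x2` with `u_i = ∑ 1/p`, `x_i = ∑ rv ψ(p) / p`.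
The right side of `dom` is `2 ∑ m ∈ EW d α 2 (a+b) (a'+b'), 1/m g m ≤ 2 ∑ m ∈ EW d α 2 (1+ε0) (1+2ε0), ..` (`EW_mono`, `g ≥ 0`).
`triple`: `dom` with `i = 2` for the third window and then `i = 1` for each fixed `y3` with the function `m ↦ 1 + rv ψ (ucl (y3 m))`; the constants are
`2 * 3 = 6`: `∑ y3 1/y3 ∑ n2 ∈ EW 2 .. 1/n2 (1 + ψ(y3 n2)) ≤ 3 ∑ EW 3`, and for fixed `y3`, `dom` (`i = 1`) bounds
`∑ y1 ∑ y2 1/(y1 y2) (1 + ψ(y3 y1 y2)) ≤ 2 ∑ n2 ∈ EW 2 (a1 + a2) (a1' + a2'), 1/n2 (1 + ψ (y3 n2))`.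
-/

namespace Pool.Agent.Lib.MP_42948a_nt.TF

open Finset Pool.Agent.Lib.MP_42948a_nt.OA Pool.Agent.Lib.MP_42948a_nt.TQ

/-- the weight of a window -/
noncomputable def uw (d : ℕ) (a b : ℝ) : ℝ := ∑ p ∈ PW d a b, 1 / (p : ℝ)

/-- the sum of the real character over a window -/
noncomputable def xw (d : ℕ) (ψ : (ZMod d)ˣ →* ℤˣ) (a b : ℝ) : ℝ := ∑ p ∈ PW d a b, 1 / (p : ℝ) * rv ψ (ucl d p)

theorem rv_val {d : ℕ} (ψ : (ZMod d)ˣ →* ℤˣ) (x : (ZMod d)ˣ) : rv ψ x = 1 ∨ rv ψ x = -1 := by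
  unfold rv
  rcases Int.units_eq_one_or (ψ x) with h | h
  · left
    rw [h, Units.val_one, Int.cast_one]
  · right
    rw [h, Units.val_neg, Units.val_one, Int.cast_neg, Int.cast_one]

theorem rv_mul {d : ℕ} (ψ : (ZMod d)ˣ →* ℤˣ) (x y : (ZMod d)ˣ) : rv ψ (x * y) = rv ψ x * rv ψ y := by
  unfold rv
  rw [map_mul, Units.val_mul, Int.cast_mul]

theorem uw_add_xw {d : ℕ} (ψ : (ZMod d)ˣ →* ℤˣ) (a b : ℝ) :
    uw d a b + xw d ψ a b = ∑ p ∈ PW d a b, 1 / (p : ℝ) * (1 + rv ψ (ucl d p)) := by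
  unfold uw xw
  rw [← sum_add_distrib]
  refine sum_congr rfl fun p _ => ?_
  ring

theorem abs_xw_le {d : ℕ} (ψ : (ZMod d)ˣ →* ℤˣ) (a b : ℝ) : |xw d ψ a b| ≤ uw d a b := by
  unfold uw xw
  refine (abs_sum_le_sum_abs _ _).trans (sum_le_sum fun p _ => ?_)
  have h0 : (0 : ℝ) ≤ 1 / (p : ℝ) := by positivity
  rw [abs_mul, abs_of_nonneg h0]
  rcases rv_val ψ (ucl d p) with h | h
  · rw [h, abs_one, mul_one]
  · rw [h, abs_neg, abs_one, mul_one]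

private theorem G2_double {d : ℕ} (ψ : (ZMod d)ˣ →* ℤˣ) (a a' b b' c : ℝ) :
    ∑ y ∈ PW d b b', 1 / (y : ℝ) * ∑ n ∈ PW d a a', 1 / (n : ℝ) * (1 + c * rv ψ (ucl d (y * n))) =
      uw d a a' * uw d b b' + c * (xw d ψ a a' * xw d ψ b b') := by
  have h1 : ∀ y ∈ PW d b b', 1 / (y : ℝ) * ∑ n ∈ PW d a a', 1 / (n : ℝ) *
      (1 + c * rv ψ (ucl d (y * n))) =
      uw d a a' * (1 / (y : ℝ)) + c * xw d ψ a a' * (1 / (y : ℝ) * rv ψ (ucl d y)) := by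
    intro y hy
    have h2 : ∑ n ∈ PW d a a', 1 / (n : ℝ) * (1 + c * rv ψ (ucl d (y * n))) =
        uw d a a' + c * rv ψ (ucl d y) * xw d ψ a a' := by
      unfold uw xw
      rw [mul_sum, ← sum_add_distrib]
      refine sum_congr rfl fun n hn => ?_
      rw [ucl_mul (PW_coprime hy) (PW_coprime hn), rv_mul]
      ring
    rw [h2]
    ring
  rw [sum_congr rfl h1, sum_add_distrib, ← mul_sum, ← mul_sum]
  show uw d a a' * uw d b b' + c * xw d ψ a a' * xw d ψ b b' = _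
  ring

private theorem G2_nonneg {d : ℕ} (ψ : (ZMod d)ˣ →* ℤˣ) (x : (ZMod d)ˣ) {c : ℝ}
    (hc : c = 1 ∨ c = -1) : 0 ≤ 1 + c * rv ψ x := by
  rcases hc with rfl | rfl <;> rcases rv_val ψ x with h | h <;> rw [h] <;> norm_num

theorem pair {d : ℕ} (hd : 1 ≤ d) (ψ : (ZMod d)ˣ →* ℤˣ) (α ε0 a a' b b' τ E : ℝ) (ha : α ≤ a) (hb : α ≤ b)
    (h1 : 1 + ε0 ≤ a + b) (h2 : a' + b' ≤ 1 + 2 * ε0) (hτ : τ = 1 ∨ τ = -1)
    (hE : ∑ n ∈ EW d α 2 (1 + ε0) (1 + 2 * ε0), 1 / (n : ℝ) * (1 - τ * rv ψ (ucl d n)) ≤ E) :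
    uw d a a' * uw d b b' - τ * (xw d ψ a a' * xw d ψ b b') ≤ 2 * E := by
  have hc : -τ = 1 ∨ -τ = -1 := by
    rcases hτ with rfl | rfl
    · exact Or.inr rfl
    · exact Or.inl (neg_neg 1)
  have hg : ∀ n : ℕ, (0 : ℝ) ≤ 1 + (-τ) * rv ψ (ucl d n) := fun n => G2_nonneg ψ _ hc
  have h := dom d hd α a a' b b' 1 hb (fun n => 1 + (-τ) * rv ψ (ucl d n)) hg
  rw [EW_one hd ha] at h
  have h3 : ∑ m ∈ EW d α (1 + 1) (a + b) (a' + b'), 1 / (m : ℝ) * (1 + (-τ) * rv ψ (ucl d m)) ≤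
      ∑ n ∈ EW d α 2 (1 + ε0) (1 + 2 * ε0), 1 / (n : ℝ) * (1 - τ * rv ψ (ucl d n)) := by
    have h4 : ∑ n ∈ EW d α 2 (1 + ε0) (1 + 2 * ε0), 1 / (n : ℝ) * (1 - τ * rv ψ (ucl d n)) =
        ∑ n ∈ EW d α 2 (1 + ε0) (1 + 2 * ε0), 1 / (n : ℝ) * (1 + (-τ) * rv ψ (ucl d n)) :=
      sum_congr rfl fun n _ => by ring
    rw [h4]
    refine sum_le_sum_of_subset_of_nonneg (EW_mono hd h1 h2) fun n _ _ => ?_
    exact mul_nonneg (by positivity) (hg n)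
  have h5 : ∑ y ∈ PW d b b', 1 / (y : ℝ) * ∑ n ∈ PW d a a', 1 / (n : ℝ) *
      (1 + (-τ) * rv ψ (ucl d (y * n))) ≤ (((1 : ℕ) : ℝ) + 1) *
        ∑ m ∈ EW d α (1 + 1) (a + b) (a' + b'), 1 / (m : ℝ) * (1 + (-τ) * rv ψ (ucl d m)) := h
  rw [G2_double, Nat.cast_one] at h5
  linarith

theorem triple {d : ℕ} (hd : 1 ≤ d) (ψ : (ZMod d)ˣ →* ℤˣ) (α ε0 a a' b b' c c' E : ℝ) (ha : α ≤ a) (hb : α ≤ b) (hc : α ≤ c)
    (h1 : 1 + ε0 ≤ a + b + c) (h2 : a' + b' + c' ≤ 1 + 2 * ε0)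
    (hE : ∑ n ∈ EW d α 3 (1 + ε0) (1 + 2 * ε0), 1 / (n : ℝ) * (1 + rv ψ (ucl d n)) ≤ E) :
    uw d a a' * uw d b b' * uw d c c' + xw d ψ a a' * xw d ψ b b' * xw d ψ c c' ≤ 6 * E := by
  have hg : ∀ n : ℕ, (0 : ℝ) ≤ 1 + rv ψ (ucl d n) := fun n => by
    have := G2_nonneg ψ (ucl d n) (c := 1) (Or.inl rfl)
    rwa [one_mul] at this
  have hA : ∑ y ∈ PW d c c', 1 / (y : ℝ) * ∑ n ∈ EW d α 2 (a + b) (a' + b'), 1 / (n : ℝ) *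
      (1 + rv ψ (ucl d (y * n))) ≤ (((2 : ℕ) : ℝ) + 1) *
        ∑ m ∈ EW d α 3 (a + b + c) (a' + b' + c'), 1 / (m : ℝ) * (1 + rv ψ (ucl d m)) :=
    dom d hd α (a + b) (a' + b') c c' 2 hc (fun n => 1 + rv ψ (ucl d n)) hg
  have h3 : ∑ m ∈ EW d α 3 (a + b + c) (a' + b' + c'), 1 / (m : ℝ) * (1 + rv ψ (ucl d m)) ≤ E := by
    refine le_trans (sum_le_sum_of_subset_of_nonneg (EW_mono hd h1 h2) fun n _ _ => ?_) hE
    exact mul_nonneg (by positivity) (hg n)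
  have hB : ∀ y ∈ PW d c c', uw d a a' * uw d b b' * (1 / (y : ℝ)) +
      xw d ψ a a' * xw d ψ b b' * (1 / (y : ℝ) * rv ψ (ucl d y)) ≤
      2 * (1 / (y : ℝ) * ∑ n ∈ EW d α 2 (a + b) (a' + b'), 1 / (n : ℝ) *
        (1 + rv ψ (ucl d (y * n)))) := by
    intro y hy
    have h := dom d hd α a a' b b' 1 hb (fun n => 1 + rv ψ (ucl d (y * n))) (fun n => hg _)
    rw [EW_one hd ha] at h
    have h5 : ∑ z ∈ PW d b b', 1 / (z : ℝ) * ∑ n ∈ PW d a a', 1 / (n : ℝ) *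
        (1 + rv ψ (ucl d (y * (z * n)))) ≤ (((1 : ℕ) : ℝ) + 1) *
          ∑ m ∈ EW d α 2 (a + b) (a' + b'), 1 / (m : ℝ) * (1 + rv ψ (ucl d (y * m))) := h
    have h6 : ∑ z ∈ PW d b b', 1 / (z : ℝ) * ∑ n ∈ PW d a a', 1 / (n : ℝ) *
        (1 + rv ψ (ucl d (y * (z * n)))) = ∑ z ∈ PW d b b', 1 / (z : ℝ) * ∑ n ∈ PW d a a',
          1 / (n : ℝ) * (1 + rv ψ (ucl d y) * rv ψ (ucl d (z * n))) := by
      refine sum_congr rfl fun z hz => ?_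
      refine congrArg (fun s => 1 / (z : ℝ) * s) (sum_congr rfl fun n hn => ?_)
      rw [ucl_mul (PW_coprime hy) ((PW_coprime hz).mul_left (PW_coprime hn)), rv_mul]
    rw [h6, G2_double, Nat.cast_one] at h5
    have hy0 : (0 : ℝ) ≤ 1 / (y : ℝ) := by positivity
    have h7 := mul_le_mul_of_nonneg_left h5 hy0
    calc _ = 1 / (y : ℝ) * (uw d a a' * uw d b b' +
          rv ψ (ucl d y) * (xw d ψ a a' * xw d ψ b b')) := by ring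
      _ ≤ _ := h7
      _ = _ := by ring
  have hC := sum_le_sum hB
  rw [sum_add_distrib, ← mul_sum, ← mul_sum, ← mul_sum] at hC
  have hD : uw d a a' * uw d b b' * uw d c c' + xw d ψ a a' * xw d ψ b b' * xw d ψ c c' ≤
      2 * ∑ y ∈ PW d c c', 1 / (y : ℝ) * ∑ n ∈ EW d α 2 (a + b) (a' + b'), 1 / (n : ℝ) *
        (1 + rv ψ (ucl d (y * n))) := hC
  rw [Nat.cast_ofNat] at hA
  linarith

end Pool.Agent.Lib.MP_42948a_nt.TF
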