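import Pool.Agent.Lib.MP_42948a_nt.TF.A1

/-!
# The spectrum of the sign function (job S1)

Full proof. `f x = 2 s x - 1 ∈ {1, -1}`, `φ = Fintype.card G`, `a χ = ‖SF f χ‖² / φ²`, `D χ = ∑ y ∈ Y, 1/y * ‖1 + χ y‖²` (for `y` coprime to `d`,
`χ y = ev χ (ucl d y)`, norm `1`). Assume `Y` has `4 η4 > ...` etc. as in the hypotheses.
(1) `∑ χ, a χ = av (f²) = 1` (`TQ.parseval_SF`).
(2) For `y ∈ Y`, `u = ucl d y`: the function `F x = f (x u) + f x` has `SF F χ = (1 + ev χ u) SF f χ` (substitute `x ↦ x u⁻¹`, `conj (ev χ u⁻¹) = ev χ u`),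
so `∑ χ, a χ ‖1 + χ y‖² = av F² ` (`parseval_SF`), and `F x = 2 (s (x u) + s x - 1) ∈ {0, 2, -2}`, `F² = 4 |s(xu) + s x - 1|`. Multiply by `1/y` and sum:
`∑ χ, a χ D χ = 4 ∑ y, 1/y av |s(x ucl y) + s x - 1| ≤ 4 η3`.
(3) For `χ₁ ≠ χ₂`: `ψ = χ₁ * χ₂⁻¹ ≠ 1`, `‖1 - ψ y‖ = ‖χ₂ y - χ₁ y‖ ≤ ‖1 + χ₁ y‖ + ‖1 + χ₂ y‖`, so `D χ₁ + D χ₂ ≥ ½ ∑ 1/y ‖1 - ψ y‖² = ∑ 1/y (1 - Re ψ y) ≥ η4`
(`‖1 - z‖² = 2 - 2 Re z` for `‖z‖ = 1`). So at most one `χ` has `D χ < η4 / 2`.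
(4) The mass of `{χ : D χ ≥ η4/2}` is `≤ 4 η3 / (η4 / 2) = 8 η3 / η4 ≤ 1/2`, so there is exactly one `χ₁` with `D χ₁ < η4 / 2`, and `a χ₁ ≥ 1 - 8 η3 / η4 ≥ 1/2`.
`D χ₁ ≤ 4 η3 / a χ₁ ≤ 8 η3`.
(5) `χ₁` is real: `D χ₁⁻¹ = D χ₁` (`ev χ⁻¹ = conj ev χ`, `‖1 + conj z‖ = ‖1 + z‖`), so `χ₁⁻¹ = χ₁` by (3). So `ev χ₁ x ^ 2 = 1`, `ev χ₁ x = ± 1`, and
`ψ : G →* ℤˣ` with `ev χ₁ x = rv ψ x` (`ψ x = 1` if `ev χ₁ x = 1`, else `-1`; `MonoidHom.mk'`).
(6) `∑ y, 1/y (1 + rv ψ (ucl y)) = D χ₁ / 2 ≤ 4 η3` (`‖1 + z‖² = 2 + 2 z` for `z = ± 1`).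
(7) `SF f χ₁ = ∑ f x rv ψ x =: φ r` real, `|r| ≤ 1`, `r² = a χ₁ ≥ 1 - 8 η3 / η4`, so `|r| ≥ r² ≥ 1 - 8 η3/η4`. `σ = 1` if `r ≥ 0`, else `-1`;
`|f x - σ rv ψ x| = 1 - σ f x rv ψ x` (both are `±1`: the values are `0` or `2`), average: `1 - |r| ≤ 8 η3 / η4`.
(8) `ψ ≠ 1`: otherwise `χ₁ = 1`, `D χ₁ = 4 Wt Y ≥ 4 η4 > η4 / 2`.
-/

namespace Pool.Agent.Lib.MP_42948a_nt.TF

open Finset Pool.Agent.Lib.MP_42948a_nt.OA Pool.Agent.Lib.MP_42948a_nt.TQ Pool.Agent.Lib.MP_42948a_nt.PS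

private theorem S1_shift {d : ℕ} [NeZero d] (f : (ZMod d)ˣ → ℝ) (u : (ZMod d)ˣ) (χ : DirichletCharacter ℂ d) :
    SF (fun x => f (x * u) + f x) χ = (1 + ev χ u) * SF f χ := by
  have hu : ev χ u * ev χ u⁻¹ = 1 := by rw [← ev_mul, mul_inv_cancel, ev_one]
  have h1 : ∑ c : (ZMod d)ˣ, (f (c * u) : ℂ) * (starRingEnd ℂ) (ev χ c) =
      ev χ u * ∑ c : (ZMod d)ˣ, (f c : ℂ) * (starRingEnd ℂ) (ev χ c) := by
    rw [Finset.mul_sum, ← Equiv.sum_comp (Equiv.mulRight u)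
      (fun c => ev χ u * ((f c : ℂ) * (starRingEnd ℂ) (ev χ c)))]
    refine Finset.sum_congr rfl fun c _ => ?_
    simp only [Equiv.coe_mulRight]
    rw [ev_mul, map_mul, conj_ev χ u]
    linear_combination (-(f (c * u) : ℂ) * (starRingEnd ℂ) (ev χ c)) * hu
  have h2 : SF (fun x => f (x * u) + f x) χ =
      ∑ c : (ZMod d)ˣ, (f (c * u) : ℂ) * (starRingEnd ℂ) (ev χ c) +
        ∑ c : (ZMod d)ˣ, (f c : ℂ) * (starRingEnd ℂ) (ev χ c) := by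
    rw [← Finset.sum_add_distrib]
    refine Finset.sum_congr rfl fun c _ => ?_
    rw [Complex.ofReal_add, add_mul]
  rw [h2, h1]
  unfold SF
  ring

private theorem S1_pars {d : ℕ} [NeZero d] (f : (ZMod d)ˣ → ℝ) (u : (ZMod d)ˣ) :
    ∑ χ : DirichletCharacter ℂ d, ‖SF f χ‖ ^ 2 * ‖1 + ev χ u‖ ^ 2 =
      (Fintype.card (ZMod d)ˣ : ℝ) * ∑ x : (ZMod d)ˣ, (f (x * u) + f x) ^ 2 := by
  rw [← parseval_SF]
  refine Finset.sum_congr rfl fun χ _ => ?_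
  rw [S1_shift, norm_mul]
  ring

private theorem S1_nsq (z : ℂ) (hz : ‖z‖ = 1) : ‖1 + z‖ ^ 2 = 2 + 2 * z.re := by
  have h1 : z.re ^ 2 + z.im ^ 2 = 1 := by
    have h := Complex.sq_norm z
    rw [hz, Complex.normSq_apply] at h
    nlinarith
  rw [Complex.sq_norm, Complex.normSq_apply]
  simp only [Complex.add_re, Complex.one_re, Complex.add_im, Complex.one_im]
  nlinarith

private theorem S1_two (z w : ℂ) (hz : ‖z‖ = 1) (hw : ‖w‖ = 1) :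
    1 - (z * (starRingEnd ℂ) w).re ≤ ‖1 + z‖ ^ 2 + ‖1 + w‖ ^ 2 := by
  have h1 : z.re ^ 2 + z.im ^ 2 = 1 := by
    have h := Complex.sq_norm z
    rw [hz, Complex.normSq_apply] at h
    nlinarith
  have h2 : w.re ^ 2 + w.im ^ 2 = 1 := by
    have h := Complex.sq_norm w
    rw [hw, Complex.normSq_apply] at h
    nlinarith
  rw [S1_nsq z hz, S1_nsq w hw]
  simp only [Complex.mul_re, Complex.conj_re, Complex.conj_im]
  nlinarith [sq_nonneg (z.re + w.re + 2), sq_nonneg (z.im + w.im), sq_nonneg (z.re - w.re), sq_nonneg (z.im - w.im)]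

private theorem S1_sgn {d : ℕ} [NeZero d] (χ : DirichletCharacter ℂ d) (h : ∀ x, ev χ x = 1 ∨ ev χ x = -1) :
    ∃ ψ : (ZMod d)ˣ →* ℤˣ, ∀ x, ev χ x = ((rv ψ x : ℝ) : ℂ) := by
  classical
  have h11 : ((-1 : ℂ) = 1) → False := by
    intro h
    have := congrArg Complex.re h
    norm_num at this
  refine ⟨MonoidHom.mk' (fun x => if ev χ x = 1 then 1 else -1) ?_, ?_⟩
  · intro a b
    have hab : ev χ (a * b) = ev χ a * ev χ b := ev_mul χ a b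
    have hn : ¬ ((-1 : ℂ) = 1) := fun h => h11 h
    rcases h a with ha | ha <;> rcases h b with hb | hb
    · rw [ha, hb, one_mul] at hab
      simp only [ha, hb, hab, if_true, one_mul]
    · rw [ha, hb, one_mul] at hab
      simp only [ha, hb, hab, if_neg hn, if_true, one_mul]
    · rw [ha, hb, mul_one] at hab
      simp only [ha, hb, hab, if_neg hn, if_true, mul_one]
    · rw [ha, hb, neg_one_mul, neg_neg] at hab
      simp only [ha, hb, hab, if_neg hn, if_true]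
      norm_num
  · intro x
    unfold rv
    rw [MonoidHom.mk'_apply]
    rcases h x with hx | hx
    · rw [if_pos hx, hx]
      norm_num
    · rw [if_neg (by rw [hx]; exact h11), hx]
      norm_num

private theorem S1_rv {d : ℕ} (ψ : (ZMod d)ˣ →* ℤˣ) (x : (ZMod d)ˣ) : rv ψ x = 1 ∨ rv ψ x = -1 := by
  unfold rv
  rcases Int.units_eq_one_or (ψ x) with h | h
  · left; rw [h]; norm_num
  · right; rw [h]; norm_num

private theorem S1_uniq {ι : Type*} [Fintype ι] [DecidableEq ι] (a D : ι → ℝ) (ha : ∀ i, 0 ≤ a i) (hD : ∀ i, 0 ≤ D i)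
    (h1 : ∑ i, a i = 1) (η3 η4 : ℝ) (hη4 : 0 < η4) (h34 : 16 * η3 ≤ η4) (h2 : ∑ i, a i * D i ≤ 4 * η3)
    (h3 : ∀ i j, i ≠ j → η4 ≤ D i + D j) :
    ∃ i, D i < η4 / 2 ∧ (∀ j, D j < η4 / 2 → j = i) ∧ 1 - 8 * η3 / η4 ≤ a i ∧ D i ≤ 8 * η3 := by
  have hex : ∃ i, D i < η4 / 2 := by
    by_contra hne
    push Not at hne
    have h4 : ∑ i, a i * (η4 / 2) ≤ ∑ i, a i * D i :=
      Finset.sum_le_sum fun i _ => mul_le_mul_of_nonneg_left (hne i) (ha i)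
    rw [← Finset.sum_mul, h1] at h4
    linarith
  obtain ⟨i, hi⟩ := hex
  have hun : ∀ j, D j < η4 / 2 → j = i := by
    intro j hj
    by_contra hne
    have := h3 j i hne
    linarith
  have h5 : (∑ j ∈ univ.erase i, a j) * (η4 / 2) ≤ 4 * η3 := by
    refine le_trans ?_ h2
    rw [Finset.sum_mul, ← Finset.add_sum_erase univ _ (mem_univ i)]
    have h6 : ∑ j ∈ univ.erase i, a j * (η4 / 2) ≤ ∑ j ∈ univ.erase i, a j * D j := by
      refine Finset.sum_le_sum fun j hj => mul_le_mul_of_nonneg_left ?_ (ha j)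
      by_contra hlt
      exact (Finset.mem_erase.mp hj).1 (hun j (not_le.mp hlt))
    have h7 : 0 ≤ a i * D i := mul_nonneg (ha i) (hD i)
    linarith
  have h8 : a i = 1 - ∑ j ∈ univ.erase i, a j := by
    rw [← h1, ← Finset.add_sum_erase univ _ (mem_univ i)]
    ring
  have h9 : 1 - 8 * η3 / η4 ≤ a i := by
    rw [h8]
    have h10 : ∑ j ∈ univ.erase i, a j ≤ 8 * η3 / η4 := by
      rw [le_div_iff₀ hη4]
      linarith
    linarith
  have h11 : a i * D i ≤ 4 * η3 := by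
    refine le_trans ?_ h2
    exact Finset.single_le_sum (f := fun j => a j * D j) (fun j _ => mul_nonneg (ha j) (hD j)) (mem_univ i)
  have h12 : 8 * η3 / η4 ≤ 1 / 2 := by
    rw [div_le_iff₀ hη4]
    linarith
  refine ⟨i, hi, hun, h9, ?_⟩
  have h13 : 1 / 2 ≤ a i := by linarith
  have h14 : 1 / 2 * D i ≤ a i * D i := mul_le_mul_of_nonneg_right h13 (hD i)
  linarith

theorem spectrum {d : ℕ} [NeZero d] (Y : Finset ℕ) (hY : ∀ y ∈ Y, y.Coprime d) (s : (ZMod d)ˣ → ℝ)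
    (hs : ∀ x, s x = 0 ∨ s x = 1) (η3 η4 : ℝ) (hη4 : 0 < η4) (h34 : 16 * η3 ≤ η4) (hWY : η4 ≤ Wt Y)
    (h3 : ∑ y ∈ Y, 1 / (y : ℝ) * av (fun x => |s (x * ucl d y) + s x - 1|) ≤ η3)
    (hV : ∀ χ : DirichletCharacter ℂ d, χ ≠ 1 → η4 ≤ ∑ y ∈ Y, 1 / (y : ℝ) * (1 - (χ (y : ZMod d)).re)) :
    ∃ (ψ : (ZMod d)ˣ →* ℤˣ) (χ : DirichletCharacter ℂ d) (σ : ℝ), (σ = 1 ∨ σ = -1) ∧ ψ ≠ 1 ∧ (∀ x, ev χ x = ((rv ψ x : ℝ) : ℂ)) ∧
      ∑ y ∈ Y, 1 / (y : ℝ) * (1 + rv ψ (ucl d y)) ≤ 4 * η3 ∧ av (fun x => |2 * s x - 1 - σ * rv ψ x|) ≤ 8 * η3 / η4 := by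
  classical
  set f : (ZMod d)ˣ → ℝ := fun x => 2 * s x - 1 with hfdef
  set φ : ℝ := (Fintype.card (ZMod d)ˣ : ℝ) with hφdef
  have hφ : 0 < φ := by
    rw [hφdef]
    exact_mod_cast Fintype.card_pos
  have hf : ∀ x, f x = 1 ∨ f x = -1 := by
    intro x
    rcases hs x with h | h
    · right; rw [hfdef]; simp only [h]; norm_num
    · left; rw [hfdef]; simp only [h]; norm_num
  have hf2 : ∀ x, f x ^ 2 = 1 := by
    intro x
    rcases hf x with h | h <;> rw [h] <;> norm_num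
  have hev : ∀ (χ : DirichletCharacter ℂ d) (y : ℕ), y ∈ Y → χ (y : ZMod d) = ev χ (ucl d y) := by
    intro χ y hy
    rw [ev, ucl_val (hY y hy)]
  have hw : ∀ y : ℕ, 0 ≤ 1 / (y : ℝ) := fun y => by positivity
  set a : DirichletCharacter ℂ d → ℝ := fun χ => ‖SF f χ‖ ^ 2 / φ ^ 2 with hadef
  set D : DirichletCharacter ℂ d → ℝ := fun χ => ∑ y ∈ Y, 1 / (y : ℝ) * ‖1 + ev χ (ucl d y)‖ ^ 2 with hDdef
  have ha : ∀ χ, 0 ≤ a χ := fun χ => by rw [hadef]; positivity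
  have hD : ∀ χ, 0 ≤ D χ := fun χ => Finset.sum_nonneg fun y _ => mul_nonneg (hw y) (by positivity)
  have h1 : ∑ χ, a χ = 1 := by
    rw [hadef, ← Finset.sum_div, parseval_SF, Finset.sum_congr rfl fun x _ => hf2 x, Finset.sum_const, Finset.card_univ,
      nsmul_eq_mul, mul_one, ← hφdef]
    field_simp
  have h2 : ∑ χ, a χ * D χ ≤ 4 * η3 := by
    have e1 : ∀ χ, a χ * D χ = ∑ y ∈ Y, 1 / (y : ℝ) * (1 / φ ^ 2 * (‖SF f χ‖ ^ 2 * ‖1 + ev χ (ucl d y)‖ ^ 2)) := by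
      intro χ
      rw [hadef, hDdef]
      simp only
      rw [Finset.mul_sum]
      refine Finset.sum_congr rfl fun y _ => ?_
      ring
    rw [Finset.sum_congr rfl fun χ _ => e1 χ, Finset.sum_comm]
    have e2 : ∀ y ∈ Y, ∑ χ : DirichletCharacter ℂ d, 1 / (y : ℝ) * (1 / φ ^ 2 * (‖SF f χ‖ ^ 2 * ‖1 + ev χ (ucl d y)‖ ^ 2)) =
        4 * (1 / (y : ℝ) * av (fun x => |s (x * ucl d y) + s x - 1|)) := by
      intro y hy
      rw [← Finset.mul_sum, ← Finset.mul_sum, S1_pars]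
      have e3 : ∀ x, (f (x * ucl d y) + f x) ^ 2 = 4 * |s (x * ucl d y) + s x - 1| := by
        intro x
        rw [hfdef]
        simp only
        rcases hs x with h | h <;> rcases hs (x * ucl d y) with h' | h' <;> rw [h, h'] <;> norm_num
      rw [Finset.sum_congr rfl fun x _ => e3 x, ← Finset.mul_sum, av, ← hφdef]
      field_simp
    rw [Finset.sum_congr rfl e2, ← Finset.mul_sum]
    linarith
  have h4 : ∀ χ₁ χ₂ : DirichletCharacter ℂ d, χ₁ ≠ χ₂ → η4 ≤ D χ₁ + D χ₂ := by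
    intro χ₁ χ₂ hne
    have hne' : χ₁ * χ₂⁻¹ ≠ 1 := fun h => hne (mul_inv_eq_one.mp h)
    refine le_trans (hV _ hne') ?_
    rw [hDdef]
    simp only
    rw [← Finset.sum_add_distrib]
    refine Finset.sum_le_sum fun y hy => ?_
    rw [← mul_add]
    refine mul_le_mul_of_nonneg_left ?_ (hw y)
    rw [hev _ y hy, ev_mul_char, ← conj_ev']
    exact S1_two _ _ (norm_ev _ _) (norm_ev _ _)
  obtain ⟨χ, hχ1, hχ2, hχ3, hχ4⟩ := S1_uniq a D ha hD h1 η3 η4 hη4 h34 h2 h4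
  have hreal : χ⁻¹ = χ := by
    apply hχ2
    have e1 : D χ⁻¹ = D χ := by
      rw [hDdef]
      simp only
      refine Finset.sum_congr rfl fun y _ => ?_
      rw [← conj_ev', S1_nsq _ (by rw [RCLike.norm_conj]; exact norm_ev _ _), S1_nsq _ (norm_ev _ _), Complex.conj_re]
    rw [e1]
    exact hχ1
  have hpm : ∀ x, ev χ x = 1 ∨ ev χ x = -1 := by
    intro x
    have e1 : ev χ x * ev χ x = 1 := by
      rw [← ev_mul_char]
      nth_rw 2 [← hreal]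
      rw [mul_inv_cancel, ev, MulChar.one_apply_coe]
    exact mul_self_eq_one_iff.mp e1
  obtain ⟨ψ, hψ⟩ := S1_sgn χ hpm
  have hDrv : D χ = 2 * ∑ y ∈ Y, 1 / (y : ℝ) * (1 + rv ψ (ucl d y)) := by
    rw [hDdef]
    simp only
    rw [Finset.mul_sum]
    refine Finset.sum_congr rfl fun y _ => ?_
    rw [S1_nsq _ (norm_ev _ _), hψ, Complex.ofReal_re]
    ring
  have hsum : ∑ y ∈ Y, 1 / (y : ℝ) * (1 + rv ψ (ucl d y)) ≤ 4 * η3 := by linarith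
  set r : ℝ := av (fun x => f x * rv ψ x) with hrdef
  have hSF : SF f χ = ((φ * r : ℝ) : ℂ) := by
    rw [hrdef, av, ← hφdef, mul_div_cancel₀ _ hφ.ne', SF, Complex.ofReal_sum]
    refine Finset.sum_congr rfl fun x _ => ?_
    rw [hψ, Complex.conj_ofReal, Complex.ofReal_mul]
  have har : a χ = |r| ^ 2 := by
    rw [hadef]
    simp only
    rw [hSF, Complex.norm_real, Real.norm_eq_abs, abs_mul, abs_of_pos hφ, mul_pow]
    field_simp
  have hr1 : |r| ≤ 1 := by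
    by_contra hgt
    have e1 : a χ ≤ 1 := by
      rw [← h1]
      exact Finset.single_le_sum (f := a) (fun j _ => ha j) (mem_univ χ)
    rw [har] at e1
    nlinarith [abs_nonneg r]
  have hr2 : 1 - 8 * η3 / η4 ≤ |r| := by
    have e1 : |r| ^ 2 ≤ |r| := by nlinarith [abs_nonneg r]
    rw [har] at hχ3
    linarith
  have hkey : ∀ σ : ℝ, (σ = 1 ∨ σ = -1) → σ * r = |r| → av (fun x => |2 * s x - 1 - σ * rv ψ x|) ≤ 8 * η3 / η4 := by
    intro σ hσ hσr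
    have e1 : ∀ x, |2 * s x - 1 - σ * rv ψ x| = 1 + (-σ) * (f x * rv ψ x) := by
      intro x
      have e2 : 2 * s x - 1 = f x := rfl
      rw [e2]
      rcases hf x with h | h <;> rcases S1_rv ψ x with h' | h' <;> rcases hσ with h'' | h'' <;> rw [h, h', h''] <;> norm_num
    have e3 : av (fun x => |2 * s x - 1 - σ * rv ψ x|) = 1 - |r| := by
      rw [show (fun x => |2 * s x - 1 - σ * rv ψ x|) = (fun x => 1 + (-σ) * (f x * rv ψ x)) from funext e1,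
        av_add, av_const, av_mul_left, ← hrdef]
      linarith
    rw [e3]
    linarith
  have hψ1 : ψ ≠ 1 := by
    intro h
    have e1 : D χ = 4 * Wt Y := by
      rw [hDrv, Wt, Finset.mul_sum, Finset.mul_sum]
      refine Finset.sum_congr rfl fun y _ => ?_
      rw [h]
      unfold rv
      rw [MonoidHom.one_apply]
      norm_num
      ring
    linarith
  rcases le_total 0 r with h0 | h0
  · exact ⟨ψ, χ, 1, Or.inl rfl, hψ1, hψ, hsum, hkey 1 (Or.inl rfl) (by rw [one_mul, abs_of_nonneg h0])⟩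
  · exact ⟨ψ, χ, -1, Or.inr rfl, hψ1, hψ, hsum, hkey (-1) (Or.inr rfl) (by rw [abs_of_nonpos h0]; ring)⟩

end Pool.Agent.Lib.MP_42948a_nt.TF
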