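import Pool.Agent.Lib.MP_42948a_nt.TF.D5
import Pool.Agent.Lib.MP_42948a_nt.TF.E3
import Pool.Agent.Lib.MP_42948a_nt.TF.S1
import Pool.Agent.Lib.MP_42948a_nt.TF.G1
import Pool.Agent.Lib.MP_42948a_nt.TF.G2

/-!
# The dichotomy for the functions of the problem; the real character of a blocked class

`F_i = sm β (EW d α i (1+ε0) (1+2ε0))`, `f_i` the same for the window `(1+ε0, 1+ε0+h]`, `Y = PW d α (ε0/4)`, `T = PW d α (2α)`.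
-/

namespace Pool.Agent.Lib.MP_42948a_nt.TF

open Finset Pool.Agent.Lib.MP_42948a_nt.OA Pool.Agent.Lib.MP_42948a_nt.TQ Pool.Agent.Lib.MP_42948a_nt.PS

/-- the smoothed density at a point divided by the class of `y` -/
theorem sm_shift {d : ℕ} [NeZero d] (β : (ZMod d)ˣ → ℝ) (A : Finset ℕ) (hA : ∀ n ∈ A, n.Coprime d) (y : ℕ)
    (hy : y.Coprime d) (x : (ZMod d)ˣ) :
    sm β A (x * (ucl d y)⁻¹) = ∑ n ∈ A, 1 / (n : ℝ) * β (x * (ucl d (y * n))⁻¹) := by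
  unfold sm
  refine sum_congr rfl fun n hn => ?_
  rw [ucl_mul hy (hA n hn), mul_inv, mul_assoc]

/-- one multiplication by the primes of a window -/
theorem sm_dom {d : ℕ} [NeZero d] (hd : 1 ≤ d) {β : (ZMod d)ˣ → ℝ} (hβ : ∀ g, 0 ≤ β g) (α a a' b b' : ℝ) (i : ℕ)
    (hb : α ≤ b) (x : (ZMod d)ˣ) :
    ∑ y ∈ PW d b b', 1 / (y : ℝ) * sm β (EW d α i a a') (x * (ucl d y)⁻¹) ≤
      (i + 1 : ℝ) * sm β (EW d α (i + 1) (a + b) (a' + b')) x := by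
  have h1 := dom d hd α a a' b b' i hb (fun n => β (x * (ucl d n)⁻¹)) (fun n => hβ _)
  have h2 : ∑ y ∈ PW d b b', 1 / (y : ℝ) * sm β (EW d α i a a') (x * (ucl d y)⁻¹) =
      ∑ y ∈ PW d b b', 1 / (y : ℝ) * ∑ n ∈ EW d α i a a', 1 / (n : ℝ) * β (x * (ucl d (y * n))⁻¹) := by
    refine sum_congr rfl fun y hy => ?_
    rw [sm_shift β _ (fun n hn => EW_coprime hn) y (PW_coprime hy) x]
  rw [h2]
  exact h1

/-- the dichotomy for the functions of the problem -/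
theorem dich_at (C c1 W0 : ℝ) (hC : 1 ≤ C) (hc1 : 0 < c1) (hW0 : 0 < W0) : ∃ K : ℝ, 0 < K ∧
    ∀ (d : ℕ) [NeZero d] (α ε0 h : ℝ), 0 < α → 0 < ε0 → 0 < h → h ≤ ε0 / 8 →
    ∀ (X : Finset (DirichletCharacter ℂ d)) (η' Q : ℝ) (β : (ZMod d)ˣ → ℝ) (b : DirichletCharacter ℂ d → ℝ), Ker X η' Q β b →
    (∀ (i : ℕ) (x : (ZMod d)ˣ), den (EW d α i (1 + ε0) (1 + 2 * ε0)) x ≤ C) →
    (∀ x, c1 ≤ sm β (EW d α 1 (1 + ε0) (1 + ε0 + h)) x + sm β (EW d α 2 (1 + ε0) (1 + ε0 + h)) x) →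
    W0 ≤ ∑ p ∈ PW d α (ε0 / 4), 1 / (p : ℝ) → ∀ (η : ℝ) (c : (ZMod d)ˣ), 0 ≤ η →
    cv (sm β (EW d α 2 (1 + ε0) (1 + 2 * ε0))) (sm β (EW d α 2 (1 + ε0) (1 + 2 * ε0))) c ≤ η →
    cv (sm β (EW d α 1 (1 + ε0) (1 + 2 * ε0))) (sm β (EW d α 3 (1 + ε0) (1 + 2 * ε0))) c ≤ η →
    av (fun x => (1 - ge1 (sm β (EW d α 1 (1 + ε0) (1 + 2 * ε0))) (c1 / 2) x) *
      sm β (EW d α 1 (1 + ε0) (1 + 2 * ε0)) x) ≤ K * η ∧
    av (fun x => ge1 (sm β (EW d α 1 (1 + ε0) (1 + 2 * ε0))) (c1 / 2) x *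
      sm β (EW d α 2 (1 + ε0) (1 + 2 * ε0)) x) ≤ K * η ∧
    av (fun x => (1 - ge1 (sm β (EW d α 1 (1 + ε0) (1 + 2 * ε0))) (c1 / 2) x) *
      sm β (EW d α 3 (1 + ε0) (1 + 2 * ε0)) x) ≤ K * η ∧
    av (fun x => |ge1 (sm β (EW d α 1 (1 + ε0) (1 + 2 * ε0))) (c1 / 2) (c * x⁻¹) +
      ge1 (sm β (EW d α 1 (1 + ε0) (1 + 2 * ε0))) (c1 / 2) x - 1|) ≤ K * η := by
  obtain ⟨K, hK0, hK⟩ := dichotomy5 C c1 W0 hC hc1 hW0
  refine ⟨K, hK0, ?_⟩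
  intro d _ α ε0 h hα hε0 hh hh1 X η' Q β b hKer hCd hcov hW η c hη h22 h13
  have hd : 1 ≤ d := NeZero.one_le
  have hβ := hKer.nonneg
  have hsub : ∀ i : ℕ, ∀ u v : ℝ, 0 ≤ u → v ≤ ε0 → ∀ x, sm β (EW d α i (1 + ε0 + u) (1 + ε0 + v)) x ≤
      sm β (EW d α i (1 + ε0) (1 + 2 * ε0)) x := fun i u v hu hv x =>
    sm_mono hβ (EW_mono hd (by linarith) (by linarith)) x
  have hf : ∀ i : ℕ, ∀ x, sm β (EW d α i (1 + ε0) (1 + ε0 + h)) x ≤ sm β (EW d α i (1 + ε0) (1 + 2 * ε0)) x := by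
    intro i x
    have h1 := hsub i 0 h le_rfl (by linarith) x
    rwa [add_zero] at h1
  have s1 : ∀ x : (ZMod d)ˣ, ∑ y ∈ PW d α (ε0 / 4), 1 / (y : ℝ) * sm β (EW d α 1 (1 + ε0) (1 + ε0 + h)) (x * (ucl d y)⁻¹) ≤
      2 * sm β (EW d α 2 (1 + ε0 + α) (1 + ε0 + (h + ε0 / 4))) x := by
    intro x
    have h1 := sm_dom hd hβ α (1 + ε0) (1 + ε0 + h) α (ε0 / 4) 1 le_rfl x
    have h2 : 1 + ε0 + h + ε0 / 4 = 1 + ε0 + (h + ε0 / 4) := by ring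
    have h3 : (((1 : ℕ) : ℝ) + 1) = 2 := by norm_num
    rw [h2, h3] at h1
    exact h1
  refine hK d (sm β (EW d α 1 (1 + ε0) (1 + 2 * ε0))) (sm β (EW d α 2 (1 + ε0) (1 + 2 * ε0)))
    (sm β (EW d α 3 (1 + ε0) (1 + 2 * ε0))) (sm β (EW d α 1 (1 + ε0) (1 + ε0 + h))) (sm β (EW d α 2 (1 + ε0) (1 + ε0 + h)))
    (PW d α (ε0 / 4)) (fun n => 1 / (n : ℝ)) (fun n => ucl d n) η c hη (fun i _ => by positivity) hW
    (sm_nonneg hβ _) (sm_nonneg hβ _) (hf 1) (hf 2) (sm_nonneg hβ _) (sm_le hKer (hCd 1)) (sm_le hKer (hCd 2))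
    (sm_le hKer (hCd 3)) hcov ?_ ?_ ?_ h22 h13
  · intro x
    refine (s1 x).trans ?_
    have h1 := hsub 2 α (h + ε0 / 4) hα.le (by linarith) x
    linarith
  · intro x
    have h1 := sm_dom hd hβ α (1 + ε0) (1 + ε0 + h) α (ε0 / 4) 2 le_rfl x
    have h2 : 1 + ε0 + h + ε0 / 4 = 1 + ε0 + (h + ε0 / 4) := by ring
    have h3 : (((2 : ℕ) : ℝ) + 1) = 3 := by norm_num
    rw [h2, h3] at h1
    refine h1.trans ?_
    have h4 := hsub 3 α (h + ε0 / 4) hα.le (by linarith) x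
    linarith
  · intro x
    have h0 : ∀ i ∈ PW d α (ε0 / 4), (1 / (i : ℝ)) * ∑ j ∈ PW d α (ε0 / 4), 1 / (j : ℝ) *
        sm β (EW d α 1 (1 + ε0) (1 + ε0 + h)) (x * (ucl d i)⁻¹ * (ucl d j)⁻¹) ≤
        2 * ((1 / (i : ℝ)) * sm β (EW d α 2 (1 + ε0 + α) (1 + ε0 + (h + ε0 / 4))) (x * (ucl d i)⁻¹)) := by
      intro i _
      have h1 := mul_le_mul_of_nonneg_left (s1 (x * (ucl d i)⁻¹)) (show (0 : ℝ) ≤ 1 / (i : ℝ) by positivity)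
      linarith
    refine (sum_le_sum h0).trans ?_
    rw [← mul_sum]
    have h1 := sm_dom hd hβ α (1 + ε0 + α) (1 + ε0 + (h + ε0 / 4)) α (ε0 / 4) 2 le_rfl x
    have h2 : 1 + ε0 + (h + ε0 / 4) + ε0 / 4 = 1 + ε0 + (h + ε0 / 2) := by ring
    have h3 : (((2 : ℕ) : ℝ) + 1) = 3 := by norm_num
    have h5 : 1 + ε0 + α + α = 1 + ε0 + (α + α) := by ring
    rw [h2, h3, h5] at h1
    have h4 := hsub 3 (α + α) (h + ε0 / 2) (by linarith) (by linarith) x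
    linarith

/-- the real character -/
theorem real_char {d : ℕ} [NeZero d] {X : Finset (DirichletCharacter ℂ d)} {η Q : ℝ} {β : (ZMod d)ˣ → ℝ}
    {b : DirichletCharacter ℂ d → ℝ} (hK : Ker X η Q β b) (hη : 0 ≤ η) (α ε0 C E η3 η4 : ℝ) (s : (ZMod d)ˣ → ℝ)
    (hs : ∀ x, s x = 0 ∨ s x = 1) (hC : ∀ (i : ℕ) (x : (ZMod d)ˣ), den (EW d α i (1 + ε0) (1 + 2 * ε0)) x ≤ C)
    (hα1 : α ≤ 1 / 20) (hX : ∀ χ : DirichletCharacter ℂ d, 1 / 2 ≤ ‖Pa (PW d α (2 * α)) χ‖ → χ ∈ X)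
    (hWT : 1 / 20 ≤ Wt (PW d α (2 * α))) (hη4 : 0 < η4) (h44 : η4 ≤ 1 / 20) (h34 : 16 * η3 ≤ η4)
    (hV : ∀ χ : DirichletCharacter ℂ d, χ ≠ 1 → η4 ≤ ∑ y ∈ PW d α (165 / 1000), 1 / (y : ℝ) * (1 - (χ (y : ZMod d)).re))
    (h3 : ∑ y ∈ PW d α (165 / 1000), 1 / (y : ℝ) * av (fun x => |s (x * ucl d y) + s x - 1|) ≤ η3)
    (hE1 : av (fun x => (1 - s x) * sm β (EW d α 1 (1 + ε0) (1 + 2 * ε0)) x) ≤ E)
    (hE2 : av (fun x => s x * sm β (EW d α 2 (1 + ε0) (1 + 2 * ε0)) x) ≤ E)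
    (hE3 : av (fun x => (1 - s x) * sm β (EW d α 3 (1 + ε0) (1 + 2 * ε0)) x) ≤ E) :
    ∃ (ψ : (ZMod d)ˣ →* ℤˣ) (σ : ℝ), (σ = 1 ∨ σ = -1) ∧ ψ ≠ 1 ∧
      ∑ y ∈ PW d α (165 / 1000), 1 / (y : ℝ) * (1 + rv ψ (ucl d y)) ≤ 4 * η3 ∧
      av (fun x => |2 * s x - 1 - σ * rv ψ x|) ≤ 8 * η3 / η4 ∧
      ∑ n ∈ EW d α 1 (1 + ε0) (1 + 2 * ε0), 1 / (n : ℝ) * (1 - σ * rv ψ (ucl d n)) ≤
        2 * E + C * (8 * η3 / η4) + C * η ∧
      ∑ n ∈ EW d α 2 (1 + ε0) (1 + 2 * ε0), 1 / (n : ℝ) * (1 + σ * rv ψ (ucl d n)) ≤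
        2 * E + C * (8 * η3 / η4) + C * η ∧
      ∑ n ∈ EW d α 3 (1 + ε0) (1 + 2 * ε0), 1 / (n : ℝ) * (1 - σ * rv ψ (ucl d n)) ≤
        2 * E + C * (8 * η3 / η4) + C * η := by
  have hd : 1 ≤ d := NeZero.one_le
  have hTY : PW d α (2 * α) ⊆ PW d α (165 / 1000) := PW_mono hd le_rfl (by linarith)
  have hWY : η4 ≤ Wt (PW d α (165 / 1000)) := by
    refine h44.trans (hWT.trans ?_)
    exact sum_le_sum_of_subset_of_nonneg hTY (fun n _ _ => by positivity)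
  obtain ⟨ψ, χ, σ, hσ, hψ, hχ, hk0, hf⟩ := spectrum (PW d α (165 / 1000)) (fun y hy => PW_coprime hy) s hs η3 η4 hη4 h34
    hWY h3 hV
  have hT : ∑ y ∈ PW d α (2 * α), 1 / (y : ℝ) * (1 + rv ψ (ucl d y)) ≤ 4 * η3 := by
    refine le_trans (sum_le_sum_of_subset_of_nonneg hTY (fun n _ _ => ?_)) hk0
    have h1 : (0 : ℝ) ≤ 1 + rv ψ (ucl d n) := by
      rcases rv_val ψ (ucl d n) with h2 | h2 <;> rw [h2] <;> norm_num
    exact mul_nonneg (by positivity) h1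
  have hχX : χ ∈ X := by
    refine hX χ ?_
    have hW0 : 0 < Wt (PW d α (2 * α)) := by linarith
    have h1 : ∑ u ∈ PW d α (2 * α), ((1 / (u : ℝ) : ℝ) : ℂ) * χ (u : ZMod d) =
        ((∑ u ∈ PW d α (2 * α), 1 / (u : ℝ) * rv ψ (ucl d u) : ℝ) : ℂ) := by
      push_cast
      refine sum_congr rfl fun u hu => ?_
      have h2 := hχ (ucl d u)
      unfold ev at h2
      rw [ucl_val (PW_coprime hu)] at h2
      rw [h2]
    have h3' : ∑ u ∈ PW d α (2 * α), 1 / (u : ℝ) * rv ψ (ucl d u) =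
        ∑ u ∈ PW d α (2 * α), 1 / (u : ℝ) * (1 + rv ψ (ucl d u)) - Wt (PW d α (2 * α)) := by
      unfold Wt
      rw [← sum_sub_distrib]
      refine sum_congr rfl fun u _ => ?_
      ring
    unfold Pa
    rw [h1, norm_div, Complex.norm_real, Complex.norm_real, Real.norm_eq_abs, Real.norm_of_nonneg hW0.le,
      le_div_iff₀ hW0, h3']
    have h5 : ∑ u ∈ PW d α (2 * α), 1 / (u : ℝ) * (1 + rv ψ (ucl d u)) - Wt (PW d α (2 * α)) ≤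
        -(1 / 2 * Wt (PW d α (2 * α))) := by linarith
    rw [abs_of_nonpos (by linarith)]
    linarith
  exact ⟨ψ, σ, hσ, hψ, hk0, hf,
    signs hK hη ψ χ hχ hχX _ C (sm_le hK (hC 1)) s hs σ hσ _ E hf hE1,
    signs' hK hη ψ χ hχ hχX _ C (sm_le hK (hC 2)) s hs σ hσ _ E hf hE2,
    signs hK hη ψ χ hχ hχX _ C (sm_le hK (hC 3)) s hs σ hσ _ E hf hE3⟩

/-- the value of the real character at the class -/
theorem psi_c {d : ℕ} [NeZero d] (s : (ZMod d)ˣ → ℝ) (ψ : (ZMod d)ˣ →* ℤˣ) (σ : ℝ) (hσ : σ = 1 ∨ σ = -1) (c : (ZMod d)ˣ)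
    (E E5 : ℝ) (h1 : av (fun x => |s (c * x⁻¹) + s x - 1|) ≤ E) (h2 : av (fun x => |2 * s x - 1 - σ * rv ψ x|) ≤ E5)
    (h3 : E + E5 < 1) : rv ψ c = -1 := by
  rcases rv_val ψ c with hc | hc
  · exfalso
    have h4 : ∀ x : (ZMod d)ˣ, 2 ≤ |2 * s (c * x⁻¹) - 1 - σ * rv ψ (c * x⁻¹)| + |2 * s x - 1 - σ * rv ψ x| +
        2 * |s (c * x⁻¹) + s x - 1| := by
      intro x
      have h5 : rv ψ (c * x⁻¹) = rv ψ x := by
        have h6 : rv ψ c = rv ψ (c * x⁻¹) * rv ψ x := by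
          rw [← rv_mul, inv_mul_cancel_right]
        rw [hc] at h6
        rcases rv_val ψ x with h7 | h7 <;> rw [h7] at h6 ⊢ <;> linarith
      rw [h5]
      have h8 : |2 * (σ * rv ψ x)| ≤ |2 * s (c * x⁻¹) - 1 - σ * rv ψ x| + |2 * s x - 1 - σ * rv ψ x| +
          |2 * (s (c * x⁻¹) + s x - 1)| := by
        have h9 : 2 * (σ * rv ψ x) = -(2 * s (c * x⁻¹) - 1 - σ * rv ψ x) + -(2 * s x - 1 - σ * rv ψ x) +
            2 * (s (c * x⁻¹) + s x - 1) := by ring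
        rw [h9]
        refine (abs_add_le _ _).trans (add_le_add ((abs_add_le _ _).trans ?_) le_rfl)
        rw [abs_neg, abs_neg]
      have h10 : |2 * (σ * rv ψ x)| = 2 := by
        rcases hσ with h | h <;> rcases rv_val ψ x with h' | h' <;> rw [h, h'] <;> norm_num
      rw [h10, abs_mul, abs_two] at h8
      exact h8
    have h5 := av_mono h4
    rw [av_const, av_add, av_add, av_mul_left, av_inv (fun x => |2 * s x - 1 - σ * rv ψ x|) c] at h5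
    linarith
  · exact hc

end Pool.Agent.Lib.MP_42948a_nt.TF
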