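import Pool.Agent.Lib.MP_42948a_nt.TF.Defs
import Pool.Agent.Lib.MP_42948a_nt.PS.B6c
import Pool.Agent.Lib.MP_42948a_nt.PS.B1c

/-!
# Few characters are large on tiny primes (job FW)

Full proof of `few`: `PW d α (2α) = primesOff d ⌊d^α⌋ ⌊d^(2α)⌋` by definition. Take `k = ⌈(1/2 + α)/α⌉₊`, so `1/2 + α ≤ k α`, `C, d1` from `PS.few_large α hα _ k`; for large `d`: `2 C < τ^(2k) d^(α/8)`
(`tendsto_rpow_atTop`), hence `X.card * τ^(2k) ≤ C`, `X.card ≤ C / τ^(2k)`; `m = ⌈C / τ^(2k)⌉₊`.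
`WtT`: `PS.Wt_lower`.
-/

namespace Pool.Agent.Lib.MP_42948a_nt.TF

open Finset Pool.Agent.Lib.MP_42948a_nt.OA Pool.Agent.Lib.MP_42948a_nt.TQ Pool.Agent.Lib.MP_42948a_nt.PS

theorem few (α τ : ℝ) (hα : 0 < α) (hα1 : α ≤ 1 / 4) (hτ : 0 < τ) : ∃ m d0 : ℕ, ∀ d : ℕ, d0 ≤ d → ∀ [NeZero d],
    ∀ X : Finset (DirichletCharacter ℂ d), (∀ χ ∈ X, τ ≤ ‖Pa (PW d α (2 * α)) χ‖) → X.card ≤ m := by
  obtain ⟨k, hkdef⟩ : ∃ k : ℕ, k = ⌈(1 / 2 + α) / α⌉₊ := ⟨_, rfl⟩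
  have hk : 1 / 2 + α ≤ (k : ℝ) * α := by
    have h1 : (1 / 2 + α) / α ≤ (k : ℝ) := by
      rw [hkdef]
      exact Nat.le_ceil _
    rwa [div_le_iff₀ hα] at h1
  obtain ⟨C, hC, d1, h1⟩ := few_large α hα (by linarith) k hk
  have hτk : 0 < τ ^ (2 * k) := pow_pos hτ _
  have hα8 : 0 < α / 8 := by positivity
  obtain ⟨d2, hd2⟩ : ∃ d2 : ℕ, ∀ d : ℕ, d2 ≤ d → 2 * C / τ ^ (2 * k) + 1 ≤ (d : ℝ) ^ (α / 8) := by
    have h2 : Filter.Tendsto (fun d : ℕ => (d : ℝ) ^ (α / 8)) Filter.atTop Filter.atTop :=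
      (tendsto_rpow_atTop hα8).comp tendsto_natCast_atTop_atTop
    exact Filter.eventually_atTop.1 (h2.eventually_ge_atTop (2 * C / τ ^ (2 * k) + 1))
  refine ⟨⌈C / τ ^ (2 * k)⌉₊, max d1 d2, fun d hd _ X hX => ?_⟩
  have e1 : d1 ≤ d := (le_max_left _ _).trans hd
  have e2 := hd2 d ((le_max_right _ _).trans hd)
  have e3 : 2 * C < τ ^ (2 * k) * (d : ℝ) ^ (α / 8) := by
    have e4 : 2 * C / τ ^ (2 * k) < (d : ℝ) ^ (α / 8) := by linarith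
    rw [div_lt_iff₀ hτk] at e4
    rw [mul_comm (τ ^ (2 * k))]
    exact e4
  have e5 := h1 d e1 τ hτ e3 X hX
  have e6 : (X.card : ℝ) ≤ C / τ ^ (2 * k) := by
    rw [le_div_iff₀ hτk]
    exact e5
  have e7 : (X.card : ℝ) ≤ (⌈C / τ ^ (2 * k)⌉₊ : ℝ) := e6.trans (Nat.le_ceil _)
  exact_mod_cast e7

theorem WtT (α : ℝ) (hα : 0 < α) : ∃ d0 : ℕ, ∀ d : ℕ, d0 ≤ d → 1 / 20 ≤ Wt (PW d α (2 * α)) :=
  Wt_lower α hα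

end Pool.Agent.Lib.MP_42948a_nt.TF
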