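import Pool.Agent.Lib.MP_42948a_nt.TF.G2
import Pool.Agent.Lib.MP_42948a_nt.TF.M1

/-!
# The sign is `-1` (job G3)

Full proof. `W = PW d (1/2 + ε0/2) (1/2 + ε0)`. By `win`, for large `d` (uniformly in `ψ`) `uw d (1/2+ε0/2) (1/2+ε0) ≥ w0 := log ((1/2+ε0)/(1/2+ε0/2)) / 2 > 0`.
If `σ = 1`: `pair` with both windows equal to `W` and `τ = -1`: `uw² + xw² ≤ 2 E`, so `w0² ≤ 2 E`; take `E0 = w0² / 4`: contradiction for `E ≤ E0`.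
-/

namespace Pool.Agent.Lib.MP_42948a_nt.TF

open Finset Pool.Agent.Lib.MP_42948a_nt.OA Pool.Agent.Lib.MP_42948a_nt.TQ

theorem sigma_neg (ε0 : ℝ) (hε0 : 0 < ε0) (hε1 : ε0 ≤ 1 / 1000) : ∃ E0 : ℝ, 0 < E0 ∧ ∃ d0 : ℕ, ∀ d : ℕ, d0 ≤ d →
    ∀ (α : ℝ) (ψ : (ZMod d)ˣ →* ℤˣ) (σ : ℝ), α ≤ 1 / 2 → (σ = 1 ∨ σ = -1) →
    ∑ n ∈ EW d α 2 (1 + ε0) (1 + 2 * ε0), 1 / (n : ℝ) * (1 + σ * rv ψ (ucl d n)) ≤ E0 → σ = -1 := by
  set w : ℝ := Real.log ((1 / 2 + ε0) / (1 / 2 + ε0 / 2)) / 2 with hw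
  have hw0 : 0 < w := by
    refine half_pos (Real.log_pos ?_)
    rw [lt_div_iff₀ (by linarith)]
    linarith
  obtain ⟨d0, hd0⟩ := win (1 / 2) 1 w (by norm_num) hw0
  refine ⟨w ^ 2 / 4, by positivity, max d0 1, fun d hd α ψ σ hα hσ hE => ?_⟩
  rcases hσ with rfl | h
  · exfalso
    have h1 := hd0 d (le_trans (le_max_left _ _) hd) (1 / 2 + ε0 / 2) (1 / 2 + ε0) (by linarith)
      (by linarith) (by linarith)
    have h2 : w ≤ uw d (1 / 2 + ε0 / 2) (1 / 2 + ε0) := by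
      have h3 := (abs_le.1 h1).1
      have h4 : Real.log ((1 / 2 + ε0) / (1 / 2 + ε0 / 2)) = 2 * w := by rw [hw]; ring
      rw [h4] at h3
      unfold uw
      linarith
    have h5 := pair (le_trans (le_max_right _ _) hd) ψ α ε0 (1 / 2 + ε0 / 2) (1 / 2 + ε0)
      (1 / 2 + ε0 / 2) (1 / 2 + ε0) (-1) (w ^ 2 / 4) (by linarith) (by linarith) (by linarith)
      (by linarith) (Or.inr rfl) (by
        refine le_trans (le_of_eq (Finset.sum_congr rfl fun n _ => ?_)) hE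
        ring)
    have h6 : w * w ≤ uw d (1 / 2 + ε0 / 2) (1 / 2 + ε0) * uw d (1 / 2 + ε0 / 2) (1 / 2 + ε0) :=
      mul_le_mul h2 h2 hw0.le (hw0.le.trans h2)
    nlinarith [mul_self_nonneg (xw d ψ (1 / 2 + ε0 / 2) (1 / 2 + ε0)), mul_pos hw0 hw0]
  · exact h

end Pool.Agent.Lib.MP_42948a_nt.TF
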