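import Pool.Agent.Lib.MP_42948a_nt.TF.U1
import Pool.Agent.Lib.MP_42948a_nt.TQ.A2
import Pool.Agent.Lib.MP_42948a_nt.PS.B2b

/-!
# The densities of the windows beyond `d` are bounded (job U2)

Full proof. `TQ.fund 1`: `K` with `Fund 1 K z u l` for all `z ≥ 2`. Let `v = min α (ε0 / (2 (K + 1)))`, `z = ⌊d^v⌋ ≥ 2` for large `d`. `EW d α i (1+ε0) (1+2ε0)` consists of `n`,
coprime to `d`, rough at `⌊d^α⌋ ≥ z`, hence `Rough z n`, and `ucl d n = x` iff `(n : ZMod d) = x` (`ucl_val`, `Units.ext`). So (all terms `≥ 0`)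
`den (EW ..) x ≤ φ ∑_{n ∈ Ioc N1 N2, Rough z n, n ≡ x} 1/n`, `N1 = ⌊d^(1+ε0)⌋`, `N2 = ⌊d^(1+2ε0)⌋`. Cut in `J = Nat.log 2 N2 + 1 ≤ 2 log N2 + 1.. ≤ 5 log d` blocks
`Ioc (2^j N1) (2^(j+1) N1)`, `j < J` (they cover `Ioc N1 N2` as `N1 ≥ 1`, `2^J ≥ N2`); in a block `1/n ≤ 1/(2^j N1)`, so by `class_block` its contribution is
`≤ (1 / (2^j N1)) (2 (2^j N1 / d) VV d z + 2 z^K) ≤ (2/d) VV d z + 2 z^K / N1`.
Total: `φ * 5 log d * ((2/d) VV d z + 2 z^K/N1)`. `φ/d * VV d z ≤ 1 / log z` (`PS.VV_upper`), `log z ≥ (v/2) log d`: first part `≤ 10 log d * 2/(v log d) = 20/v`.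
Second part: `φ ≤ d`, `z^K ≤ d^(v K) ≤ d^(ε0/2)`, `N1 ≥ d^(1+ε0)/2`: `≤ 5 log d * 4 d^(-ε0/2) ≤ 1`. So `C = 20/v + 1`.
-/

namespace Pool.Agent.Lib.MP_42948a_nt.TF

open Finset Pool.Agent.Lib.MP_42948a_nt.OA Pool.Agent.Lib.MP_42948a_nt.TQ

open Classical in
private theorem U2_block {K z : ℕ} {u l : Finset ℕ → ℝ} (hF : Fund 1 K z u l) (d : ℕ) [NeZero d] (M : ℕ) (hM : 1 ≤ M)
    (x : (ZMod d)ˣ) :
    ∑ n ∈ (Ioc M (2 * M)).filter (fun n : ℕ => Rough z n ∧ (n : ZMod d) = (x : ZMod d)), 1 / (n : ℝ) ≤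
      2 / (d : ℝ) * VV d z + 2 * (z : ℝ) ^ K / M := by
  have hM0 : (0 : ℝ) < (M : ℝ) := by exact_mod_cast hM
  have h1 := class_block hF d M x
  have h2 : ∀ n ∈ (Ioc M (2 * M)).filter (fun n : ℕ => Rough z n ∧ (n : ZMod d) = (x : ZMod d)), 1 / (n : ℝ) ≤ 1 / (M : ℝ) := by
    intro n hn
    have h3 : M < n := (mem_Ioc.1 (mem_filter.1 hn).1).1
    exact one_div_le_one_div_of_le hM0 (by exact_mod_cast h3.le)
  have h4 := Finset.sum_le_sum h2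
  rw [Finset.sum_const, nsmul_eq_mul] at h4
  refine h4.trans ?_
  rw [mul_one_div, div_le_iff₀ hM0]
  refine h1.trans (le_of_eq ?_)
  have hd : (d : ℝ) ≠ 0 := by exact_mod_cast NeZero.ne d
  field_simp
  ring

open Classical in
private theorem U2_blocks {K z : ℕ} {u l : Finset ℕ → ℝ} (hF : Fund 1 K z u l) (d : ℕ) [NeZero d] (N : ℕ) (hN : 1 ≤ N)
    (x : (ZMod d)ˣ) (J : ℕ) :
    ∑ n ∈ (Ioc N (2 ^ J * N)).filter (fun n : ℕ => Rough z n ∧ (n : ZMod d) = (x : ZMod d)), 1 / (n : ℝ) ≤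
      (J : ℝ) * (2 / (d : ℝ) * VV d z + 2 * (z : ℝ) ^ K / N) := by
  have hN0 : (0 : ℝ) < (N : ℝ) := by exact_mod_cast hN
  induction J with
  | zero => simp
  | succ J ih =>
    have hpow : 1 ≤ 2 ^ J := Nat.one_le_two_pow
    have hle : N ≤ 2 ^ J * N := by nlinarith
    have h1 : Ioc N (2 ^ (J + 1) * N) = Ioc N (2 ^ J * N) ∪ Ioc (2 ^ J * N) (2 * (2 ^ J * N)) := by
      rw [Finset.Ioc_union_Ioc_eq_Ioc hle (by omega)]
      rw [pow_succ]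
      ring_nf
    rw [h1, Finset.filter_union]
    have h2 : Disjoint ((Ioc N (2 ^ J * N)).filter (fun n : ℕ => Rough z n ∧ (n : ZMod d) = (x : ZMod d)))
        ((Ioc (2 ^ J * N) (2 * (2 ^ J * N))).filter (fun n : ℕ => Rough z n ∧ (n : ZMod d) = (x : ZMod d))) := by
      rw [Finset.disjoint_left]
      intro n hn hn'
      have h3 := (mem_Ioc.1 (mem_filter.1 hn).1).2
      have h4 := (mem_Ioc.1 (mem_filter.1 hn').1).1
      omega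
    rw [Finset.sum_union h2]
    have h5 := U2_block hF d (2 ^ J * N) (by omega) x
    have h6 : 2 * (z : ℝ) ^ K / ((2 ^ J * N : ℕ) : ℝ) ≤ 2 * (z : ℝ) ^ K / N := by
      refine div_le_div_of_nonneg_left (by positivity) hN0 ?_
      exact_mod_cast hle
    push_cast
    push_cast at h5 h6
    linarith

theorem den_bound (ε0 α : ℝ) (hε0 : 0 < ε0) (hε1 : ε0 ≤ 1 / 100) (hα : 0 < α) : ∃ C : ℝ, 1 ≤ C ∧ ∃ d0 : ℕ, ∀ d : ℕ, d0 ≤ d → ∀ [NeZero d],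
    ∀ (i : ℕ) (x : (ZMod d)ˣ), den (EW d α i (1 + ε0) (1 + 2 * ε0)) x ≤ C := by
  classical
  obtain ⟨K, hK⟩ := fund 1 one_pos le_rfl
  obtain ⟨v, hv⟩ : ∃ v : ℝ, v = min α (ε0 / (2 * ((K : ℝ) + 1))) := ⟨_, rfl⟩
  have hK1 : (0 : ℝ) < (K : ℝ) + 1 := by positivity
  have hv0 : 0 < v := by
    rw [hv]
    exact lt_min hα (by positivity)
  have hvα : v ≤ α := by
    rw [hv]
    exact min_le_left _ _
  have hvK : v * K ≤ ε0 / 2 := by
    have h1 : v ≤ ε0 / (2 * ((K : ℝ) + 1)) := by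
      rw [hv]
      exact min_le_right _ _
    have h2 : v * K ≤ ε0 / (2 * ((K : ℝ) + 1)) * ((K : ℝ) + 1) := by
      refine mul_le_mul h1 (by linarith) (by positivity) (by positivity)
    refine h2.trans (le_of_eq ?_)
    field_simp
  refine ⟨16 / v + 1, ?_, ?_⟩
  · have : 0 < 16 / v := by positivity
    linarith
  have e1 : ∀ᶠ d : ℕ in Filter.atTop, (2 : ℝ) ≤ (d : ℝ) ^ (v / 2) :=
    ((tendsto_rpow_atTop (show 0 < v / 2 by positivity)).comp tendsto_natCast_atTop_atTop).eventually_ge_atTop 2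
  have e2 : ∀ᶠ d : ℕ in Filter.atTop, 64 / ε0 ≤ (d : ℝ) ^ (ε0 / 4) :=
    ((tendsto_rpow_atTop (show 0 < ε0 / 4 by positivity)).comp tendsto_natCast_atTop_atTop).eventually_ge_atTop (64 / ε0)
  have e3 : ∀ᶠ d : ℕ in Filter.atTop, 1 ≤ Real.log (d : ℝ) :=
    (Real.tendsto_log_atTop.comp tendsto_natCast_atTop_atTop).eventually_ge_atTop 1
  obtain ⟨d0, hd0⟩ := Filter.eventually_atTop.1 (e1.and (e2.and (e3.and (Filter.eventually_ge_atTop 3))))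
  refine ⟨d0, ?_⟩
  intro d hd _ i x
  obtain ⟨h1, h2, h3, h4⟩ := hd0 d hd
  have hdR : (3 : ℝ) ≤ (d : ℝ) := by exact_mod_cast h4
  have hd1 : (1 : ℝ) ≤ (d : ℝ) := by linarith
  have hdp : (0 : ℝ) < (d : ℝ) := by linarith
  obtain ⟨L, hL⟩ : ∃ L : ℝ, L = Real.log (d : ℝ) := ⟨_, rfl⟩
  rw [← hL] at h3
  -- the parameter `z`
  obtain ⟨z, hz⟩ : ∃ z : ℕ, z = ⌊(d : ℝ) ^ v⌋₊ := ⟨_, rfl⟩
  have hdv : (d : ℝ) ^ v = (d : ℝ) ^ (v / 2) * (d : ℝ) ^ (v / 2) := by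
    rw [← Real.rpow_add hdp]
    congr 1
    ring
  have hzlow : (d : ℝ) ^ (v / 2) ≤ (z : ℝ) := by
    have h5 : (d : ℝ) ^ v < (z : ℝ) + 1 := by
      rw [hz]
      exact Nat.lt_floor_add_one _
    nlinarith
  have hzup : (z : ℝ) ≤ (d : ℝ) ^ v := by
    rw [hz]
    exact Nat.floor_le (by positivity)
  have hz2 : 2 ≤ z := by
    have h5 : (2 : ℝ) ≤ (z : ℝ) := h1.trans hzlow
    exact_mod_cast h5
  obtain ⟨u, l, hF⟩ := hK z hz2
  have hlogz : v / 2 * L ≤ Real.log (z : ℝ) := by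
    have h5 := Real.log_le_log (by positivity) hzlow
    rwa [Real.log_rpow hdp, ← hL] at h5
  -- the windows
  obtain ⟨N1, hN1⟩ : ∃ N1 : ℕ, N1 = ⌊(d : ℝ) ^ (1 + ε0)⌋₊ := ⟨_, rfl⟩
  obtain ⟨N2, hN2⟩ : ∃ N2 : ℕ, N2 = ⌊(d : ℝ) ^ (1 + 2 * ε0)⌋₊ := ⟨_, rfl⟩
  have hd1e : (2 : ℝ) ≤ (d : ℝ) ^ (1 + ε0) := by
    have h5 : (d : ℝ) ^ (1 : ℝ) ≤ (d : ℝ) ^ (1 + ε0) := Real.rpow_le_rpow_of_exponent_le hd1 (by linarith)
    rw [Real.rpow_one] at h5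
    linarith
  have hN1low : (d : ℝ) ^ (1 + ε0) / 2 ≤ (N1 : ℝ) := by
    have h5 : (d : ℝ) ^ (1 + ε0) < (N1 : ℝ) + 1 := by
      rw [hN1]
      exact Nat.lt_floor_add_one _
    linarith
  have hN1pos : 1 ≤ N1 := by
    have h5 : (1 : ℝ) ≤ (N1 : ℝ) := by linarith
    exact_mod_cast h5
  have hN1R : (0 : ℝ) < (N1 : ℝ) := by exact_mod_cast hN1pos
  have hN2up : (N2 : ℝ) ≤ (d : ℝ) ^ (2 : ℝ) := by
    have h5 : (N2 : ℝ) ≤ (d : ℝ) ^ (1 + 2 * ε0) := by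
      rw [hN2]
      exact Nat.floor_le (by positivity)
    exact h5.trans (Real.rpow_le_rpow_of_exponent_le hd1 (by linarith))
  have hN2ne : N2 ≠ 0 := by
    have h5 : N1 ≤ N2 := by
      rw [hN1, hN2]
      exact Nat.floor_mono (Real.rpow_le_rpow_of_exponent_le hd1 (by linarith))
    omega
  obtain ⟨J, hJ⟩ : ∃ J : ℕ, J = Nat.log 2 N2 + 1 := ⟨_, rfl⟩
  have hJ2 : N2 ≤ 2 ^ J * N1 := by
    have h5 : N2 < 2 ^ (Nat.log 2 N2 + 1) := Nat.lt_pow_succ_log_self (by norm_num) N2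
    rw [← hJ] at h5
    nlinarith
  have hJL : (J : ℝ) ≤ 4 * L := by
    have h5 : 2 ^ Nat.log 2 N2 ≤ N2 := Nat.pow_log_le_self 2 hN2ne
    have h6 : ((2 : ℝ) ^ Nat.log 2 N2) ≤ (d : ℝ) ^ (2 : ℝ) := by
      refine le_trans ?_ hN2up
      exact_mod_cast h5
    have h7 := Real.log_le_log (by positivity) h6
    rw [Real.log_pow, Real.log_rpow hdp, ← hL] at h7
    have h8 := Real.log_two_gt_d9
    have h9 : (0 : ℝ) ≤ (Nat.log 2 N2 : ℝ) := Nat.cast_nonneg _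
    rw [hJ]
    push_cast
    nlinarith
  have hJ0 : (0 : ℝ) ≤ (J : ℝ) := Nat.cast_nonneg _
  have hφ0 : (0 : ℝ) ≤ (Fintype.card (ZMod d)ˣ : ℝ) := Nat.cast_nonneg _
  have hφd : (Fintype.card (ZMod d)ˣ : ℝ) ≤ (d : ℝ) := by
    rw [ZMod.card_units_eq_totient]
    exact_mod_cast Nat.totient_le d
  -- comparison of the sums
  have hsub : ∑ n ∈ EW d α i (1 + ε0) (1 + 2 * ε0), (if ucl d n = x then 1 / (n : ℝ) else 0) ≤
      ∑ n ∈ (Ioc N1 (2 ^ J * N1)).filter (fun n : ℕ => Rough z n ∧ (n : ZMod d) = (x : ZMod d)), 1 / (n : ℝ) := by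
    rw [← Finset.sum_filter]
    refine Finset.sum_le_sum_of_subset_of_nonneg ?_ ?_
    · intro n hn
      rw [Finset.mem_filter] at hn
      obtain ⟨h5, h6⟩ := hn
      unfold EW at h5
      rw [Finset.mem_filter, Finset.mem_Ioc, ← hN1, ← hN2] at h5
      obtain ⟨⟨h7, h8⟩, h9, h10, _⟩ := h5
      rw [Finset.mem_filter, Finset.mem_Ioc]
      refine ⟨⟨h7, h8.trans hJ2⟩, ⟨h9.1, ?_⟩, ?_⟩
      · intro p hp hpn
        refine lt_of_le_of_lt ?_ (h9.2 p hp hpn)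
        rw [hz]
        exact Nat.floor_mono (Real.rpow_le_rpow_of_exponent_le hd1 hvα)
      · rw [← ucl_val h10, h6]
    · intro n _ _
      positivity
  have hfin : den (EW d α i (1 + ε0) (1 + 2 * ε0)) x ≤
      (Fintype.card (ZMod d)ˣ : ℝ) * ((J : ℝ) * (2 / (d : ℝ) * VV d z + 2 * (z : ℝ) ^ K / N1)) := by
    unfold den
    exact mul_le_mul_of_nonneg_left (hsub.trans (U2_blocks hF d N1 hN1pos x J)) hφ0
  refine hfin.trans ?_
  have hA : (Fintype.card (ZMod d)ˣ : ℝ) * ((J : ℝ) * (2 / (d : ℝ) * VV d z)) ≤ 16 / v := by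
    have h5 := PS.VV_upper d z hz2
    have hlz : 0 < v / 2 * L := by positivity
    have h6 : VV d z * ((Fintype.card (ZMod d)ˣ : ℝ) / d) ≤ 1 / (v / 2 * L) :=
      h5.trans (one_div_le_one_div_of_le hlz hlogz)
    have h7 : (Fintype.card (ZMod d)ˣ : ℝ) * ((J : ℝ) * (2 / (d : ℝ) * VV d z)) =
        2 * (J : ℝ) * (VV d z * ((Fintype.card (ZMod d)ˣ : ℝ) / d)) := by
      field_simp
    rw [h7]
    have h8 : 2 * (J : ℝ) * (VV d z * ((Fintype.card (ZMod d)ˣ : ℝ) / d)) ≤ 2 * (J : ℝ) * (1 / (v / 2 * L)) :=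
      mul_le_mul_of_nonneg_left h6 (by positivity)
    refine h8.trans ?_
    have h9 : 2 * (J : ℝ) * (1 / (v / 2 * L)) ≤ 2 * (4 * L) * (1 / (v / 2 * L)) :=
      mul_le_mul_of_nonneg_right (by linarith) (by positivity)
    refine h9.trans (le_of_eq ?_)
    have hL0 : L ≠ 0 := by linarith
    field_simp
    ring
  have hB : (Fintype.card (ZMod d)ˣ : ℝ) * ((J : ℝ) * (2 * (z : ℝ) ^ K / N1)) ≤ 1 := by
    have hzK : (z : ℝ) ^ K ≤ (d : ℝ) ^ (ε0 / 2) := by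
      have h5 : (z : ℝ) ^ K ≤ ((d : ℝ) ^ v) ^ K := pow_le_pow_left₀ (Nat.cast_nonneg _) hzup K
      have h6 : ((d : ℝ) ^ v) ^ K = (d : ℝ) ^ (v * K) := by
        rw [Real.rpow_mul hdp.le, Real.rpow_natCast]
      rw [h6] at h5
      exact h5.trans (Real.rpow_le_rpow_of_exponent_le hd1 hvK)
    have hN1b : 2 * (z : ℝ) ^ K / N1 ≤ 2 * (d : ℝ) ^ (ε0 / 2) / ((d : ℝ) ^ (1 + ε0) / 2) := by
      refine div_le_div₀ (by positivity) (by linarith) (by positivity) hN1low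
    have hLd : L ≤ (d : ℝ) ^ (ε0 / 4) / (ε0 / 4) := by
      rw [hL]
      exact Real.log_le_rpow_div hdp.le (by positivity)
    have h5 : (Fintype.card (ZMod d)ˣ : ℝ) * ((J : ℝ) * (2 * (z : ℝ) ^ K / N1)) ≤
        (d : ℝ) * ((4 * ((d : ℝ) ^ (ε0 / 4) / (ε0 / 4))) * (2 * (d : ℝ) ^ (ε0 / 2) / ((d : ℝ) ^ (1 + ε0) / 2))) := by
      refine mul_le_mul hφd ?_ (by positivity) hdp.le
      refine mul_le_mul (by linarith) hN1b (by positivity) (by positivity)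
    refine h5.trans ?_
    obtain ⟨w, hw⟩ : ∃ w : ℝ, w = (d : ℝ) ^ (ε0 / 4) := ⟨_, rfl⟩
    have hw0 : 0 < w := by
      rw [hw]
      positivity
    have hw2 : (d : ℝ) ^ (ε0 / 2) = w * w := by
      rw [hw, ← Real.rpow_add hdp]
      congr 1
      ring
    have hw4 : (d : ℝ) ^ (1 + ε0) = d * (w * w * (w * w)) := by
      rw [Real.rpow_add hdp, Real.rpow_one, ← hw2, ← Real.rpow_add hdp]
      congr 2
      ring
    rw [hw2, hw4, ← hw]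
    rw [← hw] at h2
    have h6 : (d : ℝ) * ((4 * (w / (ε0 / 4))) * (2 * (w * w) / (d * (w * w * (w * w)) / 2))) = 64 / ε0 / w := by
      field_simp
      ring
    rw [h6, div_le_one hw0]
    exact h2
  have h5 : (Fintype.card (ZMod d)ˣ : ℝ) * ((J : ℝ) * (2 / (d : ℝ) * VV d z + 2 * (z : ℝ) ^ K / N1)) =
      (Fintype.card (ZMod d)ˣ : ℝ) * ((J : ℝ) * (2 / (d : ℝ) * VV d z)) +
        (Fintype.card (ZMod d)ˣ : ℝ) * ((J : ℝ) * (2 * (z : ℝ) ^ K / N1)) := by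
    ring
  rw [h5]
  linarith

end Pool.Agent.Lib.MP_42948a_nt.TF
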