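import Pool.Agent.Lib.MP_42948a_nt.TF.P1

/-!
# From small primes to all primes (job P2)

Full proof. `θ = ε0 / 4`, all windows are `(t, t + θ]`. `win` (with `a0 = α`, hence uniform) gives for large `d`, for all `t ∈ [α, 1]`:
`uw d t (t + θ) ≥ w := log (1 + θ) / 2 > 0` (ratio `(t + θ)/t ≥ 1 + θ`). Write `e(t) = uw d t (t+θ) + xw d ψ t (t+θ) = ∑ 1/p (1 + ψ(p)) ≥ 0` (`uw_add_xw`).
(k0) for `t ≥ α`, `t + θ ≤ 165/1000`: `e(t) ≤ E` (`PW_mono`, `hk0`).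
(R1) for `t ∈ [675/1000, 85/100]`: with `u = (1 + ε0 - t)/2 ∈ [75/1000, 163/1000]` (`ε0 ≤ 1/1000`, `θ ≤ 1/4000`, so `u + θ ≤ 165/1000`; `u ≥ α` as `α ≤ 1/20`),
`step3` with the windows `u, u, t`: `u + u + t = 1 + ε0`, `2u + t + 3θ ≤ 1 + 2 ε0`: `e(t) ≤ 24 E / w²`, provided `E ≤ w/2`.
(R2) for `t ∈ [16/100, 325/1000]`: `t' = 1 + ε0 - t ∈ [675/1000, 85/100]`, `step2` with the windows `t', t` (`t + t' + 2θ ≤ 1 + 2ε0`), `e = 24 E / w² ≤ w/2`: `e(t) ≤ 4 E / w`.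
(R3) for `t ∈ [352/1000, 70/100]`: `u = (1 + ε0 - t)/2 ∈ [15/100, 325/1000]`; `e(u) ≤ max E (4 E / w)` by (R2) if `u ≥ 16/100` and by (k0) if `u ≤ 16/100`; `step3` with the windows `u, u, t`: `e(t) ≤ 24 E / w²`.
(R4) for `t ∈ [320/1000, 648/1000]`: `t' = 1 + ε0 - t ∈ [352/1000, 70/100]`, `step2` with the windows `t', t`: `e(t) ≤ 4 E / w`.
So with `E0 = w³ / 100` (and `w ≤ 1`) everything applies and for all `t ∈ [16/100, 51/100]`: `e(t) ≤ 24 E / w²`.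
Cover: `PW d α (1/2 + ε0) ⊆ PW d α (165/1000) ∪ ⋃_{j ≤ J} PW d (16/100 + j θ) (16/100 + (j+1) θ)`, `J = ⌈(34/100 + ε0)/θ⌉₊`; take only the `j` with start `16/100 + jθ ≤ 1/2 + ε0 ≤ 51/100`.
So the sum is `≤ E + (J + 1) 24 E / w² ≤ Kp E`, `Kp = 1 + (J+1) 24 / w²`.
-/

namespace Pool.Agent.Lib.MP_42948a_nt.TF

open Finset Pool.Agent.Lib.MP_42948a_nt.OA Pool.Agent.Lib.MP_42948a_nt.TQ

private theorem P2_split (d : ℕ) (a b c : ℝ) : PW d a c ⊆ PW d a b ∪ PW d b c := by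
  intro p hp
  rw [mem_PW] at hp
  rw [mem_union, mem_PW, mem_PW]
  by_cases h : p ≤ ⌊(d : ℝ) ^ b⌋₊
  · exact Or.inl ⟨hp.1, hp.2.1, h, hp.2.2.2⟩
  · exact Or.inr ⟨hp.1, not_le.1 h, hp.2.2.1, hp.2.2.2⟩

private theorem P2_sum_split {g : ℕ → ℝ} (hg : ∀ n, 0 ≤ g n) (d : ℕ) (a b c : ℝ) :
    ∑ p ∈ PW d a c, g p ≤ ∑ p ∈ PW d a b, g p + ∑ p ∈ PW d b c, g p := by
  have h1 : ∑ p ∈ PW d a c, g p ≤ ∑ p ∈ PW d a b ∪ PW d b c, g p :=
    Finset.sum_le_sum_of_subset_of_nonneg (P2_split d a b c) (fun n _ _ => hg n)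
  have h2 := Finset.sum_union_inter (s₁ := PW d a b) (s₂ := PW d b c) (f := g)
  have h3 : 0 ≤ ∑ p ∈ PW d a b ∩ PW d b c, g p := Finset.sum_nonneg (fun n _ => hg n)
  linarith

private theorem P2_chain {g : ℕ → ℝ} (hg : ∀ n, 0 ≤ g n) {d : ℕ} (a θ B : ℝ) (J : ℕ)
    (hB : ∀ j : ℕ, j < J → ∑ p ∈ PW d (a + j * θ) (a + j * θ + θ), g p ≤ B) :
    ∑ p ∈ PW d a (a + J * θ), g p ≤ J * B := by
  induction J with
  | zero =>
    have h1 : PW d a (a + (0 : ℕ) * θ) = ∅ := by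
      apply Finset.eq_empty_of_forall_notMem
      intro p hp
      rw [mem_PW] at hp
      have h2 : a + ((0 : ℕ) : ℝ) * θ = a := by
        push_cast
        ring
      rw [h2] at hp
      omega
    rw [h1, Finset.sum_empty]
    push_cast
    rw [zero_mul]
  | succ J ih =>
    have h1 := ih (fun j hj => hB j (by omega))
    have h2 := P2_sum_split hg d a (a + J * θ) (a + (J + 1 : ℕ) * θ)
    have h3 := hB J (by omega)
    have h4 : a + ((J + 1 : ℕ) : ℝ) * θ = a + J * θ + θ := by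
      push_cast
      ring
    rw [h4] at h2 ⊢
    push_cast
    linarith

theorem propagate (ε0 α : ℝ) (hε0 : 0 < ε0) (hε1 : ε0 ≤ 1 / 1000) (hα : 0 < α) (hα1 : α ≤ 1 / 20) :
    ∃ Kp E0 : ℝ, 0 < Kp ∧ 0 < E0 ∧ ∃ d0 : ℕ, ∀ d : ℕ, d0 ≤ d → ∀ ψ : (ZMod d)ˣ →* ℤˣ, ∀ E : ℝ, 0 ≤ E → E ≤ E0 →
    ∑ p ∈ PW d α (165 / 1000), 1 / (p : ℝ) * (1 + rv ψ (ucl d p)) ≤ E →
    ∑ n ∈ EW d α 2 (1 + ε0) (1 + 2 * ε0), 1 / (n : ℝ) * (1 - rv ψ (ucl d n)) ≤ E →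
    ∑ n ∈ EW d α 3 (1 + ε0) (1 + 2 * ε0), 1 / (n : ℝ) * (1 + rv ψ (ucl d n)) ≤ E →
    ∑ p ∈ PW d α (1 / 2 + ε0), 1 / (p : ℝ) * (1 + rv ψ (ucl d p)) ≤ Kp * E := by
  obtain ⟨θ, hθ⟩ : ∃ θ : ℝ, θ = ε0 / 4 := ⟨_, rfl⟩
  have hθ0 : 0 < θ := by
    rw [hθ]
    linarith
  obtain ⟨w, hw⟩ : ∃ w : ℝ, w = Real.log (1 + θ) / 2 := ⟨_, rfl⟩
  have hw0 : 0 < w := by
    rw [hw]
    have := Real.log_pos (show (1 : ℝ) < 1 + θ by linarith)
    linarith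
  have hw1 : w ≤ 1 := by
    have h1 : Real.log (1 + θ) ≤ 1 + θ - 1 := Real.log_le_sub_one_of_pos (by linarith)
    rw [hw]
    linarith
  obtain ⟨J, hJ⟩ : ∃ J : ℕ, J = ⌈(34 / 100 + ε0) / θ⌉₊ := ⟨_, rfl⟩
  obtain ⟨d1, hd1⟩ := win α 2 w hα hw0
  refine ⟨1 + J * (24 / w ^ 2), w ^ 3 / 100, by positivity, by positivity, max 1 d1, ?_⟩
  intro d hd ψ E hE0 hE1 hk0 hs2 hs3
  have hd1' : 1 ≤ d := (le_max_left _ _).trans hd
  have hwin := hd1 d ((le_max_right _ _).trans hd)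
  have hg : ∀ n : ℕ, 0 ≤ 1 / (n : ℝ) * (1 + rv ψ (ucl d n)) := by
    intro n
    have h1 : (0 : ℝ) ≤ 1 + rv ψ (ucl d n) := by
      rcases rv_val ψ (ucl d n) with h2 | h2
      · rw [h2]
        norm_num
      · rw [h2]
        norm_num
    exact mul_nonneg (by positivity) h1
  -- lower bound of the windows
  have hlow : ∀ t : ℝ, α ≤ t → t ≤ 1 → w ≤ uw d t (t + θ) := by
    intro t ht1 ht2
    have ht0 : 0 < t := by linarith
    have h1 := hwin t (t + θ) ht1 (by linarith) (by linarith)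
    have h2 : Real.log (1 + θ) ≤ Real.log ((t + θ) / t) := by
      apply Real.log_le_log (by linarith)
      rw [le_div_iff₀ ht0]
      nlinarith
    rw [abs_le] at h1
    have h3 := h1.1
    unfold uw
    have h4 : Real.log (1 + θ) = 2 * w := by
      rw [hw]
      ring
    linarith
  -- small primes
  have k0 : ∀ t : ℝ, α ≤ t → t + θ ≤ 165 / 1000 → uw d t (t + θ) + xw d ψ t (t + θ) ≤ E := by
    intro t ht1 ht2
    rw [uw_add_xw]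
    refine le_trans ?_ hk0
    exact Finset.sum_le_sum_of_subset_of_nonneg (PW_mono hd1' ht1 ht2) (fun n _ _ => hg n)
  have hw3 : w ^ 3 ≤ w := by
    have h1 : w ^ 3 = w * (w * w) := by ring
    have h2 : w * w ≤ 1 := by nlinarith
    nlinarith
  have hw3' : w ^ 3 ≤ w ^ 2 := by
    have h1 : w ^ 3 = w ^ 2 * w := by ring
    have h2 : 0 ≤ w ^ 2 := sq_nonneg w
    nlinarith
  have hEw : E ≤ w / 2 := by linarith
  -- (R1)
  have R1 : ∀ t : ℝ, 675 / 1000 ≤ t → t ≤ 85 / 100 →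
      uw d t (t + θ) + xw d ψ t (t + θ) ≤ 24 * E / w ^ 2 := by
    intro t ht1 ht2
    obtain ⟨u, hu⟩ : ∃ u : ℝ, u = (1 + ε0 - t) / 2 := ⟨_, rfl⟩
    have hu1 : α ≤ u := by linarith
    have hu2 : u + θ ≤ 165 / 1000 := by linarith
    exact step3 hd1' ψ α ε0 u (u + θ) u (u + θ) t (t + θ) E E w hu1 hu1 (by linarith)
      (by linarith) (by linarith) hw0 (hlow u hu1 (by linarith)) (hlow u hu1 (by linarith)) hEw
      (k0 u hu1 hu2) (k0 u hu1 hu2) hs3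
  -- (R2)
  have h24 : 24 * E / w ^ 2 ≤ w / 2 := by
    rw [div_le_iff₀ (by positivity)]
    have h1 : w / 2 * w ^ 2 = w ^ 3 / 2 := by ring
    rw [h1]
    have h2 : 0 < w ^ 3 := by positivity
    linarith
  have R2 : ∀ t : ℝ, 16 / 100 ≤ t → t ≤ 325 / 1000 →
      uw d t (t + θ) + xw d ψ t (t + θ) ≤ 4 * E / w := by
    intro t ht1 ht2
    obtain ⟨t', ht'⟩ : ∃ t' : ℝ, t' = 1 + ε0 - t := ⟨_, rfl⟩
    exact step2 hd1' ψ α ε0 t' (t' + θ) t (t + θ) E (24 * E / w ^ 2) w (by linarith)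
      (by linarith) (by linarith) (by linarith) hw0 (hlow t' (by linarith) (by linarith)) h24
      (R1 t' (by linarith) (by linarith)) hs2
  have h4 : 4 * E / w ≤ w / 2 := by
    rw [div_le_iff₀ hw0]
    have h1 : w / 2 * w = w ^ 2 / 2 := by ring
    rw [h1]
    linarith
  have h4' : 4 * E / w ≤ 24 * E / w ^ 2 := by
    rw [div_le_div_iff₀ hw0 (by positivity)]
    have h1 : 4 * E * w ^ 2 = (4 * E * w) * w := by ring
    have h2 : 0 ≤ 4 * E * w := by positivity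
    have h3 : (4 * E * w) * w ≤ (4 * E * w) * 1 := mul_le_mul_of_nonneg_left hw1 h2
    have h5 : 0 ≤ E * w := by positivity
    nlinarith
  have hE4 : E ≤ 4 * E / w := by
    rw [le_div_iff₀ hw0]
    nlinarith
  -- (R3)
  have R3 : ∀ t : ℝ, 352 / 1000 ≤ t → t ≤ 70 / 100 →
      uw d t (t + θ) + xw d ψ t (t + θ) ≤ 24 * E / w ^ 2 := by
    intro t ht1 ht2
    obtain ⟨u, hu⟩ : ∃ u : ℝ, u = (1 + ε0 - t) / 2 := ⟨_, rfl⟩
    have hu1 : α ≤ u := by linarith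
    have hu3 : uw d u (u + θ) + xw d ψ u (u + θ) ≤ 4 * E / w := by
      by_cases h5 : 16 / 100 ≤ u
      · exact R2 u h5 (by linarith)
      · exact (k0 u hu1 (by linarith)).trans hE4
    exact step3 hd1' ψ α ε0 u (u + θ) u (u + θ) t (t + θ) E (4 * E / w) w hu1 hu1 (by linarith)
      (by linarith) (by linarith) hw0 (hlow u hu1 (by linarith)) (hlow u hu1 (by linarith)) h4
      hu3 hu3 hs3
  -- (R4)
  have R4 : ∀ t : ℝ, 320 / 1000 ≤ t → t ≤ 648 / 1000 →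
      uw d t (t + θ) + xw d ψ t (t + θ) ≤ 4 * E / w := by
    intro t ht1 ht2
    obtain ⟨t', ht'⟩ : ∃ t' : ℝ, t' = 1 + ε0 - t := ⟨_, rfl⟩
    exact step2 hd1' ψ α ε0 t' (t' + θ) t (t + θ) E (24 * E / w ^ 2) w (by linarith)
      (by linarith) (by linarith) (by linarith) hw0 (hlow t' (by linarith) (by linarith)) h24
      (R3 t' (by linarith) (by linarith)) hs2
  have Rall : ∀ t : ℝ, 16 / 100 ≤ t → t ≤ 51 / 100 →
      uw d t (t + θ) + xw d ψ t (t + θ) ≤ 24 * E / w ^ 2 := by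
    intro t ht1 ht2
    by_cases h5 : t ≤ 325 / 1000
    · exact (R2 t ht1 h5).trans h4'
    · exact (R4 t (by linarith) (by linarith)).trans h4'
  -- the cover
  have hJ1 : (34 / 100 + ε0) / θ ≤ (J : ℝ) := by
    rw [hJ]
    exact Nat.le_ceil _
  have hJ2 : 1 / 2 + ε0 ≤ 16 / 100 + J * θ := by
    rw [div_le_iff₀ hθ0] at hJ1
    linarith
  have hJ3 : (J : ℝ) < (34 / 100 + ε0) / θ + 1 := by
    rw [hJ]
    exact Nat.ceil_lt_add_one (by positivity)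
  have hcover : ∑ p ∈ PW d (16 / 100) (16 / 100 + J * θ), 1 / (p : ℝ) * (1 + rv ψ (ucl d p)) ≤
      J * (24 * E / w ^ 2) := by
    apply P2_chain (g := fun p : ℕ => 1 / (p : ℝ) * (1 + rv ψ (ucl d p))) hg
    intro j hj
    show ∑ p ∈ PW d (16 / 100 + j * θ) (16 / 100 + j * θ + θ), 1 / (p : ℝ) * (1 + rv ψ (ucl d p)) ≤ _
    rw [← uw_add_xw]
    have hj0 : (0 : ℝ) ≤ j * θ := by positivity
    have hj1 : (j : ℝ) + 1 ≤ J := by exact_mod_cast hj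
    have hj2 : (j : ℝ) * θ < 34 / 100 + ε0 := by
      have h6 : (j : ℝ) < (34 / 100 + ε0) / θ := by linarith
      rw [lt_div_iff₀ hθ0] at h6
      exact h6
    exact Rall _ (by linarith) (by linarith)
  have h6 := P2_sum_split hg d α (165 / 1000) (1 / 2 + ε0)
  have h7 : ∑ p ∈ PW d (165 / 1000) (1 / 2 + ε0), 1 / (p : ℝ) * (1 + rv ψ (ucl d p)) ≤
      ∑ p ∈ PW d (16 / 100) (16 / 100 + J * θ), 1 / (p : ℝ) * (1 + rv ψ (ucl d p)) :=
    Finset.sum_le_sum_of_subset_of_nonneg (PW_mono hd1' (by norm_num) hJ2) (fun n _ _ => hg n)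
  have h8 : (1 + (J : ℝ) * (24 / w ^ 2)) * E = E + J * (24 * E / w ^ 2) := by ring
  rw [h8]
  linarith

end Pool.Agent.Lib.MP_42948a_nt.TF
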