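import Pool.Agent.Lib.MP_42948a_nt.TF.FA
import Pool.Agent.Lib.MP_42948a_nt.TF.P2
import Pool.Agent.Lib.MP_42948a_nt.TF.G3

/-!
# The real character of a blocked class, one modulus (job FB)
-/

namespace Pool.Agent.Lib.MP_42948a_nt.TF

open Finset Pool.Agent.Lib.MP_42948a_nt.OA Pool.Agent.Lib.MP_42948a_nt.TQ Pool.Agent.Lib.MP_42948a_nt.PS

/-- two small averages have a common small value -/
theorem pick (T : Finset ℕ) (g h : ℕ → ℝ) (e f : ℝ) (he : 0 < e) (hf : 0 < f) (hg : ∀ p ∈ T, 0 ≤ g p) (hh : ∀ p ∈ T, 0 ≤ h p)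
    (hW : 0 < Wt T) (h1 : ∑ p ∈ T, 1 / (p : ℝ) * g p ≤ Wt T * e) (h2 : ∑ p ∈ T, 1 / (p : ℝ) * h p ≤ Wt T * f) :
    ∃ p ∈ T, g p ≤ 2 * e ∧ h p ≤ 2 * f := by
  by_contra hcon
  push Not at hcon
  have key : ∀ p ∈ T, 1 / (p : ℝ) * 2 ≤ 1 / (p : ℝ) * (g p / e + h p / f) := by
    intro p hp
    have hp0 : (0 : ℝ) ≤ 1 / (p : ℝ) := by positivity
    apply mul_le_mul_of_nonneg_left _ hp0
    by_cases hge : g p ≤ 2 * e
    · have h3 := hcon p hp hge
      have h4 : 2 ≤ h p / f := by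
        rw [le_div_iff₀ hf]
        exact h3.le
      have h5 : 0 ≤ g p / e := div_nonneg (hg p hp) he.le
      linarith
    · push Not at hge
      have h4 : 2 ≤ g p / e := by
        rw [le_div_iff₀ he]
        exact hge.le
      have h5 : 0 ≤ h p / f := div_nonneg (hh p hp) hf.le
      linarith
  have hne : T.Nonempty := by
    rw [nonempty_iff_ne_empty]
    rintro rfl
    simp [Wt] at hW
  obtain ⟨p0, hp0⟩ := hne
  have hs : ∑ p ∈ T, 1 / (p : ℝ) * (g p / e + h p / f) ≤ 2 * Wt T := by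
    have e1 : ∑ p ∈ T, 1 / (p : ℝ) * (g p / e + h p / f) =
        (∑ p ∈ T, 1 / (p : ℝ) * g p) / e + (∑ p ∈ T, 1 / (p : ℝ) * h p) / f := by
      rw [sum_div, sum_div, ← sum_add_distrib]
      apply sum_congr rfl
      intro p _
      ring
    rw [e1]
    have e2 : (∑ p ∈ T, 1 / (p : ℝ) * g p) / e ≤ Wt T := by
      rw [div_le_iff₀ he]
      exact h1
    have e3 : (∑ p ∈ T, 1 / (p : ℝ) * h p) / f ≤ Wt T := by
      rw [div_le_iff₀ hf]
      exact h2
    linarith
  -- strict inequality at some prime of positive weight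
  have hpos : ∃ p ∈ T, (0 : ℝ) < 1 / (p : ℝ) := by
    by_contra hn
    push Not at hn
    have : Wt T ≤ 0 := by
      rw [Wt]
      exact sum_nonpos hn
    linarith
  obtain ⟨q, hq, hq0⟩ := hpos
  have hlt : ∑ p ∈ T, 1 / (p : ℝ) * 2 < ∑ p ∈ T, 1 / (p : ℝ) * (g p / e + h p / f) := by
    apply sum_lt_sum key
    refine ⟨q, hq, ?_⟩
    apply mul_lt_mul_of_pos_left _ hq0
    by_cases hge : g q ≤ 2 * e
    · have h3 := hcon q hq hge
      have h4 : 2 < h q / f := by
        rw [lt_div_iff₀ hf]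
        exact h3
      have h5 : 0 ≤ g q / e := div_nonneg (hg q hq) he.le
      linarith
    · push Not at hge
      have h4 : 2 < g q / e := by
        rw [lt_div_iff₀ he]
        exact hge
      have h5 : 0 ≤ h q / f := div_nonneg (hh q hq) hf.le
      linarith
  have e4 : ∑ p ∈ T, 1 / (p : ℝ) * 2 = 2 * Wt T := by
    rw [Wt, mul_sum]
    apply sum_congr rfl
    intro p _
    ring
  linarith

end Pool.Agent.Lib.MP_42948a_nt.TF
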