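import Pool.Agent.Lib.MP_42948a_nt.TF.E2
import Pool.Agent.Lib.MP_42948a_nt.MV.M

/-!
# Every nontrivial character is far from `1` on the primes of `(d ^ α, d ^ (165/1000)]`
-/

namespace Pool.Agent.Lib.MP_42948a_nt.TF

open Finset Pool.Agent.Lib.MP_42948a_nt.OA Pool.Agent.Lib.MP_42948a_nt.TQ

theorem EK_PW_subset {d : ℕ} (a b : ℝ) : EK.PW d a b ⊆ PW d a b := by
  intro p hp
  rw [EK.PW, mem_filter, mem_Icc] at hp
  obtain ⟨⟨h1, h2⟩, h3, h4, h5⟩ := hp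
  rw [mem_PW]
  exact ⟨h4, (Nat.floor_lt (Real.rpow_nonneg (Nat.cast_nonneg d) a)).2 h3, h2, h5⟩

/-- the windows of all primes `> d ^ α` -/
theorem far : ∃ c0 η4 : ℝ, 0 < c0 ∧ 0 < η4 ∧ ∃ d0 : ℕ, ∀ d : ℕ, d0 ≤ d → ∀ [NeZero d], ∀ α : ℝ, α ≤ c0 →
    ∀ χ : DirichletCharacter ℂ d, χ ≠ 1 →
      η4 ≤ ∑ p ∈ PW d α (165 / 1000), 1 / (p : ℝ) * (1 - (χ (p : ZMod d)).re) := by
  obtain ⟨c0, hc0, -, σ, hσ, d0, hd0⟩ := MV.mv_re
  refine ⟨c0, σ, hc0, hσ, d0, ?_⟩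
  intro d hd _ α hα χ hχ
  refine (hd0 d hd χ hχ).trans ?_
  have h1 : (33 / 200 : ℝ) = 165 / 1000 := by norm_num
  rw [h1]
  have h2 : ∀ p : ℕ, 0 ≤ 1 / (p : ℝ) * (1 - (χ (p : ZMod d)).re) := by
    intro p
    refine mul_nonneg (by positivity) ?_
    have h3 := (Complex.re_le_norm (χ (p : ZMod d))).trans (DirichletCharacter.norm_le_one χ _)
    linarith
  have h4 : EK.PW d c0 (165 / 1000) ⊆ PW d α (165 / 1000) :=
    (EK_PW_subset _ _).trans (PW_mono NeZero.one_le hα le_rfl)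
  refine le_trans (le_of_eq ?_) (sum_le_sum_of_subset_of_nonneg h4 (fun p _ _ => h2 p))
  refine sum_congr rfl fun p _ => ?_
  rw [EK.rw1]

end Pool.Agent.Lib.MP_42948a_nt.TF
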