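import Pool.Agent.Lib.MP_42948a_nt.TF.H1
import Pool.Agent.Lib.MP_42948a_nt.TF.M1

/-!
# The chain for large moduli (job H2)

Full proof. Choose `N` = the least natural number with `165/1000 ≤ N * (ε0/4) + 7 ε0/8` (`⌈(165/1000 - 7 ε0/8) / (ε0/4)⌉₊`, positive since `ε0 ≤ 1/1000`); then
`hN1` holds (`⌈x⌉₊ < x + 1`). Mertens (`win`, with `a0 = ε0/8`, `b0 = 1`): the overlap windows have the logarithmic ratio
`log ((k ε0/4 + 7ε0/8) / ((k+1) ε0/4)) ≥ log ((165/1000 + ε0/4 + 5ε0/8) / (165/1000 + ε0/4))`... more simply for `k < N`: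
`(k ε0/4 + 7 ε0/8) / ((k+1) ε0/4) = 1 + (5ε0/8) / ((k+1) ε0/4) ≥ 1 + 5 ε0 / 2` since `(k + 1) ε0/4 ≤ N ε0/4 ≤ 1/4`; so the ratio of exponents is
`≥ 1 + 5 ε0/2` and `win` with `η = log (1 + 5 ε0/2) / 2` gives `w0 = log (1 + 5 ε0/2) / 2 > 0`.
`W1 = log ((1/2) / α) + 1` by `win` with `a0 = α`, `η = 1`. `Kc` = the constant of `chain_fixed`, nonnegative. -/

namespace Pool.Agent.Lib.MP_42948a_nt.TF

open Finset Pool.Agent.Lib.MP_42948a_nt.OA Pool.Agent.Lib.MP_42948a_nt.TQ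

theorem chain (α ε0 h c1 : ℝ) (hα : 0 < α) (hα1 : α ≤ ε0 / 4) (hε0 : 0 < ε0) (hε1 : ε0 ≤ 1 / 1000) (hh : 0 < h)
    (hh1 : h ≤ ε0 / 8) (hc1 : 0 < c1) : ∃ Kc : ℝ, 0 < Kc ∧ ∃ d0 : ℕ, ∀ d : ℕ, d0 ≤ d → ∀ [NeZero d], ∀ β s : (ZMod d)ˣ → ℝ,
    (∀ g, 0 ≤ β g) → (∀ x, s x = 0 ∨ s x = 1) →
    (∀ a : ℝ, 83 / 100 ≤ a → a ≤ 11 / 10 → ∀ x : (ZMod d)ˣ,
      c1 ≤ sm β (EW d α 1 a (a + h)) x + sm β (EW d α 2 a (a + h)) x) → ∀ E : ℝ, 0 ≤ E →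
    av (fun x => (1 - s x) * sm β (EW d α 1 (1 + ε0) (1 + 2 * ε0)) x) ≤ E →
    av (fun x => s x * sm β (EW d α 2 (1 + ε0) (1 + 2 * ε0)) x) ≤ E →
    av (fun x => (1 - s x) * sm β (EW d α 3 (1 + ε0) (1 + 2 * ε0)) x) ≤ E →
    ∑ y ∈ PW d α (165 / 1000), 1 / (y : ℝ) * av (fun x => |s (x * ucl d y) + s x - 1|) ≤ Kc * E := by
  obtain ⟨X, hX⟩ : ∃ X : ℝ, X = (165 / 1000 - 7 * ε0 / 8) / (ε0 / 4) := ⟨_, rfl⟩
  obtain ⟨N, hN⟩ : ∃ N : ℕ, N = ⌈X⌉₊ := ⟨_, rfl⟩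
  have hX0 : 0 ≤ X := by
    rw [hX]
    refine div_nonneg ?_ (by linarith)
    linarith
  have hXe : X * (ε0 / 4) = 165 / 1000 - 7 * ε0 / 8 := by
    rw [hX]
    exact div_mul_cancel₀ _ (by positivity)
  have hN2 : 165 / 1000 ≤ (N : ℝ) * (ε0 / 4) + 7 * ε0 / 8 := by
    have h1 : X ≤ N := by
      rw [hN]
      exact Nat.le_ceil X
    have h2 : X * (ε0 / 4) ≤ (N : ℝ) * (ε0 / 4) := mul_le_mul_of_nonneg_right h1 (by linarith)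
    linarith
  have hN1 : (N : ℝ) * (ε0 / 4) + 7 * ε0 / 8 ≤ 165 / 1000 + ε0 / 4 := by
    have h1 : (N : ℝ) ≤ X + 1 := by
      rw [hN]
      exact (Nat.ceil_lt_add_one hX0).le
    have h2 : (N : ℝ) * (ε0 / 4) ≤ (X + 1) * (ε0 / 4) := mul_le_mul_of_nonneg_right h1 (by linarith)
    have h3 : (X + 1) * (ε0 / 4) = X * (ε0 / 4) + ε0 / 4 := by ring
    linarith
  have hlog : 0 < Real.log (1 + 5 * ε0 / 2) := Real.log_pos (by linarith)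
  obtain ⟨w0, hw⟩ : ∃ w0 : ℝ, w0 = Real.log (1 + 5 * ε0 / 2) / 2 := ⟨_, rfl⟩
  have hw0 : 0 < w0 := by
    rw [hw]
    exact half_pos hlog
  obtain ⟨W1, hW⟩ : ∃ W1 : ℝ, W1 = Real.log (1 / 2 / α) + 1 := ⟨_, rfl⟩
  have hα2 : α ≤ 1 / 2 := by linarith
  have hW0 : 0 < W1 := by
    have h1 : 0 ≤ Real.log (1 / 2 / α) := Real.log_nonneg (by
      rw [le_div_iff₀ hα]
      linarith)
    rw [hW]
    linarith
  obtain ⟨d1, hd1⟩ := win (ε0 / 8) 1 w0 (by linarith) hw0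
  obtain ⟨d2, hd2⟩ := win α (1 / 2) 1 hα one_pos
  refine ⟨(N + 1 : ℝ) * (10 / c1 + W1 * ((N + 1 : ℝ) * (4 / c1 + 20 / (c1 * w0)))), by positivity,
    max d1 d2, ?_⟩
  intro d hd hdz β s hβ hs hcov E hE0 hE1 hE2 hE3
  refine chain_fixed hβ hs α ε0 h c1 w0 W1 E N hα hα1 hε1 hh hh1 hc1 hw0 hE0 hN1 hN2 ?_ ?_ hcov hE1
    hE2 hE3
  · intro k hk
    have hk' : (k : ℝ) + 1 ≤ N := by exact_mod_cast hk
    have hk0 : (0 : ℝ) ≤ k := Nat.cast_nonneg k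
    have h1 : ((k : ℝ) + 1) * (ε0 / 4) ≤ (N : ℝ) * (ε0 / 4) :=
      mul_le_mul_of_nonneg_right hk' (by linarith)
    have h2 : ((k : ℝ) + 1) * (ε0 / 4) = (k : ℝ) * (ε0 / 4) + ε0 / 4 := by ring
    have h3 : 0 ≤ (k : ℝ) * (ε0 / 4) := mul_nonneg hk0 (by linarith)
    have h4 := hd1 d ((le_max_left _ _).trans hd) (((k : ℝ) + 1) * (ε0 / 4))
      ((k : ℝ) * (ε0 / 4) + 7 * ε0 / 8) (by linarith) (by linarith) (by linarith)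
    have h5 : 0 < ((k : ℝ) + 1) * (ε0 / 4) := by linarith
    have h6 : 1 + 5 * ε0 / 2 ≤ ((k : ℝ) * (ε0 / 4) + 7 * ε0 / 8) / (((k : ℝ) + 1) * (ε0 / 4)) := by
      rw [le_div_iff₀ h5]
      have h7 : ((k : ℝ) + 1) * (ε0 / 4) ≤ 1 / 4 := by linarith
      have h8 : (5 * ε0 / 2) * (((k : ℝ) + 1) * (ε0 / 4)) ≤ (5 * ε0 / 2) * (1 / 4) :=
        mul_le_mul_of_nonneg_left h7 (by linarith)
      have h9 : (1 + 5 * ε0 / 2) * (((k : ℝ) + 1) * (ε0 / 4)) = ((k : ℝ) + 1) * (ε0 / 4) +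
        (5 * ε0 / 2) * (((k : ℝ) + 1) * (ε0 / 4)) := by ring
      rw [h9]
      linarith
    have h10 := Real.log_le_log (by linarith) h6
    have h11 := (abs_le.1 h4).1
    have h12 : w0 * 2 = Real.log (1 + 5 * ε0 / 2) := by
      rw [hw]
      ring
    linarith
  · have h4 := hd2 d ((le_max_right _ _).trans hd) α (1 / 2) le_rfl hα2 le_rfl
    have h11 := (abs_le.1 h4).2
    rw [hW]
    linarith

end Pool.Agent.Lib.MP_42948a_nt.TF
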