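import Pool.Agent.Lib.MP_42948a_nt.TF.Defs
import Pool.Agent.Lib.MP_42948a_nt.TQ.B2

/-!
# Basic facts on means, densities and kernels (job A1)

All are short. `φ = Fintype.card (ZMod d)ˣ > 0`.
* `av_const`, `av_add`, `av_mul_left`, `av_mono`, `av_nonneg`, `av_shift` (`Equiv.sum_comp` with `Equiv.mulRight`, and `x ↦ c x⁻¹` for `av_inv`): immediate.
* `sm_eq`: `av (fun y => den A y * β (x * y⁻¹)) = ∑ y, (∑ n ∈ A, if ucl d n = y then 1/n else 0) * β (x y⁻¹)`; exchange the sums.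
* `Ker` facts: `SF β 1 = ∑ β` (since `ev 1 g = 1`), so `av β = b 1 = 1`; `φ β(g) = ∑ χ, SF β χ * ev χ g` (`TQ.inversion`), so `β g ≤ ∑ χ, b χ ≤ Q`
  (real part of a sum of terms of norm `b χ`).
* `sm_le`: `sm β A x = av (den A y * β (x y⁻¹)) ≤ C * av (β (x y⁻¹)) = C`.
* `av_sm`: `av (sm β A) = ∑ n ∈ A, 1/n * av β (shifted) = ∑ n ∈ A, 1/n`.
-/

namespace Pool.Agent.Lib.MP_42948a_nt.TF

open Finset Pool.Agent.Lib.MP_42948a_nt.TQ

section
variable {d : ℕ} [NeZero d]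

private theorem A1_card : (0 : ℝ) < (Fintype.card (ZMod d)ˣ : ℝ) := by
  exact_mod_cast Fintype.card_pos

theorem av_const (c : ℝ) : av (fun _ : (ZMod d)ˣ => c) = c := by
  unfold av
  rw [Finset.sum_const, Finset.card_univ, nsmul_eq_mul, mul_div_assoc, mul_comm, div_mul_cancel₀]
  exact A1_card.ne'

theorem av_add (f g : (ZMod d)ˣ → ℝ) : av (fun x => f x + g x) = av f + av g := by
  unfold av
  rw [Finset.sum_add_distrib, add_div]

theorem av_mul_left (c : ℝ) (f : (ZMod d)ˣ → ℝ) : av (fun x => c * f x) = c * av f := by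
  unfold av
  rw [← Finset.mul_sum, mul_div_assoc]

theorem av_sum {ι : Type*} (s : Finset ι) (f : ι → (ZMod d)ˣ → ℝ) : av (fun x => ∑ i ∈ s, f i x) = ∑ i ∈ s, av (f i) := by
  unfold av
  rw [Finset.sum_comm, Finset.sum_div]

theorem av_mono {f g : (ZMod d)ˣ → ℝ} (h : ∀ x, f x ≤ g x) : av f ≤ av g := by
  unfold av
  exact div_le_div_of_nonneg_right (Finset.sum_le_sum fun x _ => h x) A1_card.le

theorem av_nonneg {f : (ZMod d)ˣ → ℝ} (h : ∀ x, 0 ≤ f x) : 0 ≤ av f := by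
  unfold av
  exact div_nonneg (Finset.sum_nonneg fun x _ => h x) A1_card.le

theorem av_shift (f : (ZMod d)ˣ → ℝ) (y : (ZMod d)ˣ) : av (fun x => f (x * y)) = av f := by
  unfold av
  rw [← Equiv.sum_comp (Equiv.mulRight y) f]
  rfl

theorem av_inv (f : (ZMod d)ˣ → ℝ) (c : (ZMod d)ˣ) : av (fun x => f (c * x⁻¹)) = av f := by
  unfold av
  rw [← Equiv.sum_comp ((Equiv.inv (ZMod d)ˣ).trans (Equiv.mulLeft c)) f]
  rfl

theorem sm_eq (β : (ZMod d)ˣ → ℝ) (A : Finset ℕ) (x : (ZMod d)ˣ) :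
    sm β A x = av (fun y => den A y * β (x * y⁻¹)) := by
  classical
  unfold av den sm
  have h1 : ∀ y : (ZMod d)ˣ, (Fintype.card (ZMod d)ˣ : ℝ) * (∑ n ∈ A, if ucl d n = y then 1 / (n : ℝ) else 0) *
      β (x * y⁻¹) = (Fintype.card (ZMod d)ˣ : ℝ) *
        ∑ n ∈ A, if ucl d n = y then 1 / (n : ℝ) * β (x * y⁻¹) else 0 := by
    intro y
    rw [mul_assoc, Finset.sum_mul]
    congr 1
    refine Finset.sum_congr rfl fun n _ => ?_
    split_ifs
    · rfl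
    · rw [zero_mul]
  rw [Finset.sum_congr rfl fun y _ => h1 y, ← Finset.mul_sum, mul_div_assoc, mul_div_left_comm,
    div_self A1_card.ne', mul_one, Finset.sum_comm]
  refine Finset.sum_congr rfl fun n _ => ?_
  rw [Finset.sum_ite_eq Finset.univ (ucl d n), if_pos (Finset.mem_univ _)]

theorem sm_nonneg {β : (ZMod d)ˣ → ℝ} (hβ : ∀ g, 0 ≤ β g) (A : Finset ℕ) (x : (ZMod d)ˣ) : 0 ≤ sm β A x := by
  unfold sm
  exact Finset.sum_nonneg fun n _ => mul_nonneg (by positivity) (hβ _)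

theorem sm_mono {β : (ZMod d)ˣ → ℝ} (hβ : ∀ g, 0 ≤ β g) {A B : Finset ℕ} (h : A ⊆ B) (x : (ZMod d)ˣ) :
    sm β A x ≤ sm β B x := by
  unfold sm
  exact Finset.sum_le_sum_of_subset_of_nonneg h fun n _ _ => mul_nonneg (by positivity) (hβ _)

theorem ker_av {X : Finset (DirichletCharacter ℂ d)} {η Q : ℝ} {β : (ZMod d)ˣ → ℝ} {b : DirichletCharacter ℂ d → ℝ}
    (hK : Ker X η Q β b) : av β = 1 := by
  have h1 := hK.coef 1
  unfold SF at h1
  have h2 : ∀ c : (ZMod d)ˣ, ev (1 : DirichletCharacter ℂ d) c = 1 := fun c =>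
    MulChar.one_apply_coe c
  rw [Finset.sum_congr rfl fun c _ => by rw [h2 c, map_one, mul_one], hK.b_one, mul_one,
    ← Complex.ofReal_sum] at h1
  have h3 : ∑ c : (ZMod d)ˣ, β c = (Fintype.card (ZMod d)ˣ : ℝ) := Complex.ofReal_injective h1
  unfold av
  rw [h3, div_self A1_card.ne']

private theorem A1_exp {X : Finset (DirichletCharacter ℂ d)} {η Q : ℝ} {β : (ZMod d)ˣ → ℝ} {b : DirichletCharacter ℂ d → ℝ}
    (hK : Ker X η Q β b) (g : (ZMod d)ˣ) : ((β g : ℝ) : ℂ) = ∑ χ : DirichletCharacter ℂ d, (b χ : ℂ) * ev χ g := by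
  have h1 := inversion β g
  have hc : (Fintype.card (ZMod d)ˣ : ℂ) ≠ 0 := by
    exact_mod_cast (Fintype.card_pos (α := (ZMod d)ˣ)).ne'
  have h2 : ∀ χ : DirichletCharacter ℂ d, SF β χ * ev χ g =
      (Fintype.card (ZMod d)ˣ : ℂ) * ((b χ : ℂ) * ev χ g) := by
    intro χ
    rw [hK.coef χ]
    push_cast
    ring
  rw [Finset.sum_congr rfl fun χ _ => h2 χ, ← Finset.mul_sum] at h1
  exact (mul_left_cancel₀ hc h1).symm

theorem ker_le {X : Finset (DirichletCharacter ℂ d)} {η Q : ℝ} {β : (ZMod d)ˣ → ℝ} {b : DirichletCharacter ℂ d → ℝ}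
    (hK : Ker X η Q β b) (g : (ZMod d)ˣ) : β g ≤ Q := by
  have h0 : ((β g : ℝ) : ℂ) = ∑ χ : DirichletCharacter ℂ d, (b χ : ℂ) * ev χ g := A1_exp hK g
  have h1 : β g ≤ ‖((β g : ℝ) : ℂ)‖ := by
    rw [Complex.norm_real]
    exact le_abs_self _
  rw [h0] at h1
  refine h1.trans ((norm_sum_le _ _).trans (le_trans (le_of_eq ?_) hK.wn))
  refine Finset.sum_congr rfl fun χ _ => ?_
  rw [norm_mul, norm_ev, mul_one, Complex.norm_real, Real.norm_eq_abs, abs_of_nonneg (hK.b_nonneg χ)]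

/-- Fourier expansion of the kernel -/
theorem ker_exp {X : Finset (DirichletCharacter ℂ d)} {η Q : ℝ} {β : (ZMod d)ˣ → ℝ} {b : DirichletCharacter ℂ d → ℝ}
    (hK : Ker X η Q β b) (g : (ZMod d)ˣ) : ((β g : ℝ) : ℂ) = ∑ χ : DirichletCharacter ℂ d, (b χ : ℂ) * ev χ g :=
  A1_exp hK g

theorem sm_le {X : Finset (DirichletCharacter ℂ d)} {η Q : ℝ} {β : (ZMod d)ˣ → ℝ} {b : DirichletCharacter ℂ d → ℝ}
    (hK : Ker X η Q β b) {A : Finset ℕ} {C : ℝ} (hA : ∀ x : (ZMod d)ˣ, den A x ≤ C) (x : (ZMod d)ˣ) : sm β A x ≤ C := by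
  rw [sm_eq]
  calc av (fun y => den A y * β (x * y⁻¹)) ≤ av (fun y => C * β (x * y⁻¹)) :=
        av_mono fun y => mul_le_mul_of_nonneg_right (hA y) (hK.nonneg _)
    _ = C := by rw [av_mul_left, av_inv, ker_av hK, mul_one]

theorem av_sm {X : Finset (DirichletCharacter ℂ d)} {η Q : ℝ} {β : (ZMod d)ˣ → ℝ} {b : DirichletCharacter ℂ d → ℝ}
    (hK : Ker X η Q β b) (A : Finset ℕ) : av (sm β A) = ∑ n ∈ A, 1 / (n : ℝ) := by
  have h1 : sm β A = fun x => ∑ n ∈ A, 1 / (n : ℝ) * β (x * (ucl d n)⁻¹) := rfl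
  rw [h1, av_sum]
  refine Finset.sum_congr rfl fun n _ => ?_
  rw [av_mul_left, av_shift, ker_av hK, mul_one]

theorem ge1_val {G : Type*} (F : G → ℝ) (t : ℝ) (x : G) : ge1 F t x = 0 ∨ ge1 F t x = 1 := by
  unfold ge1
  split_ifs
  · exact Or.inr rfl
  · exact Or.inl rfl

end

end Pool.Agent.Lib.MP_42948a_nt.TF
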