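import Pool.Agent.Lib.MP_42948a_nt.TF.A1

/-!
# The dichotomy for exactly five primes (job D5)

`F1, F2, F3` are the smoothed densities of `E_1, E_2, E_3` on the window `B`, `f1, f2` those of `E_1, E_2` on a sub-window `I`, and `y i` (`i ∈ Y`, weights `w i`, total weight `W ≥ W0`) are
tiny primes. Only the products of exactly five primes are forbidden: `(E_2, E_2)` and `(E_1, E_3)` and one tiny prime.

Full proof. `t = c1 / 2`, `s2 x = ge1 F2 t x`, `s1 x = ge1 F1 t x`, `s2' = ge1 f2 t`, `s1' = ge1 f1 t`, all in `{0, 1}`; `s1' ≤ s1`, `s2' ≤ s2` (as `f_i ≤ F_i`), `s1' + s2' ≥ 1` (`hcov`).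
`A x = s2 (c x⁻¹)`, `A' x = s1 (c x⁻¹)`. `c1 ≤ 2 C`. (Use `av_inv`, `av_shift`, `av_mono`, `av_add`, `av_mul_left`, `av_sum`.)
(i) `t A(x) F2(x) ≤ F2(c/x) F2(x)`: `av (A F2) ≤ η / t`. (ii) `t A'(x) F3(x) ≤ F1(c/x) F3(x)`: `av (A' F3) ≤ η / t`. (iii) `t² s2(x) A(x) ≤ F2(x) F2(c/x)`: `av (s2 A) ≤ η / t²`.
For `y ∈ G` put `e(y) = av (A(x) f1(x y⁻¹))`, `e'(y) = av (A'(x) f2(x y⁻¹))`, `e''(y, y') = av (A'(x) f1(x y⁻¹ y'⁻¹))`.
(iv) by `ha`, `hb`, `hcc`: `∑ i w_i e(y_i) ≤ 2 η/t`, `∑ i w_i e'(y_i) ≤ 3 η/t`, `∑ i ∑ j w_i w_j e''(y_i, y_j) ≤ 6 η/t`. Hence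
`∑ i ∑ j w_i w_j (e(y_i) + e'(y_i) + e''(y_i, y_j)) ≤ 5 W η/t + 6 η/t`, so there are `i, j` (with `w_i w_j > 0`) with `e(y_i) + e'(y_i) + e''(y_i, y_j) ≤ m := 5 η/(t W0) + 6 η/(t W0²)`
(pigeonhole on the average; `W ≥ W0 > 0`). Fix `y = y_i`, `y' = y_j`, `δ = m / t`.
(v) `A(x y) ≤ s2'(x) + A(x y) s1'(x)` and `t A(xy) s1'(x) ≤ A(xy) f1(x)`, whose mean is `e(y)`. So `av ((A(xy) - s2'(x))⁺) ≤ δ`; since `av A = av s2 ≥ av s2'`, also
`av |A(xy) - s2'(x)| ≤ 2 δ` (`|u| = 2 u⁺ - u`), and `av |s2 - s2'| = av s2 - av s2' ≤ δ` (`= av A(xy) - av s2' ≤ av (..)⁺`).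
(vi) `t A'(xy) s2'(x) ≤ A'(xy) f2(x)`, mean `e'(y)`; so `av (A' A) = av (A'(xy) A(xy)) ≤ av (A'(xy) s2'(x)) + av ((A(xy) - s2'(x))⁺) ≤ 2 δ`, i.e. `av (s1 s2) ≤ 2 δ` (`av_inv`). As `s1 + s2 ≥ 1`:
`|s1 + s2 - 1| = s1 s2`, and `0 ≤ s1 - s1' ≤ s1 s2` (if `s1' = 0` then `s2' = 1`, so `s2 = 1`), mean `≤ 2 δ`.
(vii) `t A'(x y y') s1'(x) ≤ A'(x y y') f1(x)`, mean `e''(y', y)`-type (`av_shift`; `f1 ((x y y') y⁻¹ y'⁻¹)` = `f1 x`): `av (A'(x y y') s1'(x)) ≤ δ`. `A' ≥ 1 - A` (`s1 + s2 ≥ 1` at `c/x`). `av |A(x y' y) - s2(x y')| ≤ 2 δ + δ` (v).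
So `av ((1 - s2(x y')) s1'(x)) ≤ 4 δ`, so `av s1' ≤ av s2 + 4 δ` and `av s1 ≤ av s2 + 6 δ`.
(viii) `s2 + A ≤ 1 + s2 A`: `2 av s2 ≤ 1 + η/t²`; `av s1 ≥ 1 - av s2`, so `av s2 ≥ av s1 - 6δ ≥ 1 - av s2 - 6 δ`, `av s2 ≥ 1/2 - 3 δ`; `av s1 ≤ 1/2 + η/(2t²) + 6 δ`. `A (1 - s1) ≤ A s2`, mean `≤ η/t²`. So
`av |s1 - A| = av s1 - av A + 2 av (A (1 - s1)) ≤ 1/2 + η/(2t²) + 6δ - 1/2 + 3δ + 2η/t² = 9 δ + (5/2) η/t²` (`av A = av s2`). Call this `δ'`.
(ix) fourth claim: `|s1(c/x) + s1(x) - 1| ≤ |s1(c/x) + s2(c/x) - 1| + |s1(x) - A(x)|` (`s2(c/x) = A(x)`), mean `≤ 2 δ + δ'`.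
second claim: `s1 F2 ≤ A F2 + C |s1 - A|`, mean `≤ η/t + C δ'`. third claim: `(1 - s1) F3 ≤ A' F3 + C |1 - s1(x) - s1(c/x)|`, mean `≤ η/t + C (2δ + δ')`.
(x) first claim: `F3(x) ≥ (1/3) ∑ w_i f2(x y_i⁻¹) ≥ (t/3) g(x)`, `g(x) = ∑ w_i s2'(x y_i⁻¹)`. By (v) for each `i` (with `2 e(y_i)/t` instead of `2δ`): `av |g - W A| ≤ ∑ w_i 2 e(y_i)/t ≤ 4 η/t²`.
`η ≥ av (F1(x) F3(c/x)) ≥ (t/3) av (F1(x) g(c/x)) ≥ (t/3) (W av (F1(x) A(c/x)) - 4 C η/t²)`, `A(c/x) = s2(x) ≥ 1 - s1(x)`. So `av ((1 - s1) F1) ≤ (3η/t + 4 C η/t²)/W0`.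
All bounds are `≤ K η` with `K = K(C, c1, W0)`.
-/

namespace Pool.Agent.Lib.MP_42948a_nt.TF

open Finset

section
variable {d : ℕ} [NeZero d]

private theorem D5_ge (F : (ZMod d)ˣ → ℝ) (t : ℝ) (nF : ∀ x, 0 ≤ F x) (x : (ZMod d)ˣ) :
    t * ge1 F t x ≤ F x := by
  unfold ge1
  split_ifs with h
  · rw [mul_one]
    exact h
  · rw [mul_zero]
    exact nF x

private theorem D5_lt (F : (ZMod d)ˣ → ℝ) (t : ℝ) (x : (ZMod d)ˣ) (h : ge1 F t x = 0) :
    F x < t := by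
  unfold ge1 at h
  split_ifs at h with h1
  · exact absurd h one_ne_zero
  · exact not_le.1 h1

private theorem D5_mono (f F : (ZMod d)ˣ → ℝ) (h : ∀ x, f x ≤ F x) (t : ℝ) (x : (ZMod d)ˣ) :
    ge1 f t x ≤ ge1 F t x := by
  unfold ge1
  by_cases h1 : t ≤ f x
  · rw [if_pos h1, if_pos (h1.trans (h x))]
  · rw [if_neg h1]
    split_ifs
    · exact zero_le_one
    · exact le_refl 0

private theorem D5_nn (F : (ZMod d)ˣ → ℝ) (t : ℝ) (x : (ZMod d)ˣ) : 0 ≤ ge1 F t x := by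
  rcases ge1_val F t x with h | h <;> rw [h]
  exact zero_le_one

private theorem D5_le1 (F : (ZMod d)ˣ → ℝ) (t : ℝ) (x : (ZMod d)ˣ) : ge1 F t x ≤ 1 := by
  rcases ge1_val F t x with h | h <;> rw [h]
  exact zero_le_one

private theorem D5_sh (A g : (ZMod d)ˣ → ℝ) (y : (ZMod d)ˣ) :
    av (fun x => A (x * y) * g x) = av (fun x => A x * g (x * y⁻¹)) := by
  have h := av_shift (fun x => A x * g (x * y⁻¹)) y
  rw [← h]
  congr 1
  funext x
  rw [mul_inv_cancel_right]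

private theorem D5_P (A g f : (ZMod d)ˣ → ℝ) (t : ℝ) (hA : ∀ x, 0 ≤ A x)
    (hg : ∀ x, t * g x ≤ f x) (y : (ZMod d)ˣ) :
    t * av (fun x => A (x * y) * g x) ≤ av (fun x => A x * f (x * y⁻¹)) := by
  rw [← av_mul_left, ← D5_sh]
  refine av_mono fun x => ?_
  have h := mul_le_mul_of_nonneg_left (hg x) (hA (x * y))
  linarith

private theorem D5_abs (A s : (ZMod d)ˣ → ℝ) (hA : ∀ x, A x = 0 ∨ A x = 1)
    (hs : ∀ x, s x = 0 ∨ s x = 1) (y : (ZMod d)ˣ) (h : av s ≤ av A) :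
    av (fun x => |A (x * y) - s x|) ≤ 2 * av (fun x => A (x * y) * (1 - s x)) := by
  have h1 : ∀ x, |A (x * y) - s x| =
      2 * (A (x * y) * (1 - s x)) + ((-1) * A (x * y) + s x) := by
    intro x
    rcases hA (x * y) with h1 | h1 <;> rcases hs x with h2 | h2 <;> rw [h1, h2] <;> norm_num
  have h2 : av (fun x => |A (x * y) - s x|) =
      av (fun x => 2 * (A (x * y) * (1 - s x)) + ((-1) * A (x * y) + s x)) := by
    congr 1
    funext x
    exact h1 x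
  rw [h2, av_add, av_mul_left, av_add, av_mul_left, av_shift A y]
  have h3 : av (fun x => s x) = av s := rfl
  rw [h3]
  linarith

private theorem D5_le_of_mul {t a b : ℝ} (ht : 0 < t) (h : t * a ≤ b) : a ≤ b / t := by
  rw [le_div_iff₀ ht, mul_comm]
  exact h

/-- the average over `Y × Y` -/
private theorem D5_pick (Y : Finset ℕ) (w : ℕ → ℝ) (hw : ∀ i ∈ Y, 0 ≤ w i) (W0 : ℝ) (hW0 : 0 < W0)
    (hW : W0 ≤ ∑ i ∈ Y, w i) (E : ℕ → ℕ → ℝ) (a b : ℝ) (ha : 0 ≤ a) (hb : 0 ≤ b)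
    (h : ∑ i ∈ Y, w i * ∑ j ∈ Y, w j * E i j ≤ (∑ i ∈ Y, w i) * a + b) :
    ∃ i ∈ Y, ∃ j ∈ Y, E i j ≤ a / W0 + b / W0 ^ 2 := by
  obtain ⟨W, hWd⟩ : ∃ W, W = ∑ i ∈ Y, w i := ⟨_, rfl⟩
  rw [← hWd] at hW h
  have hWp : 0 < W := by linarith
  have hY : Y.Nonempty := by
    rw [nonempty_iff_ne_empty]
    intro h0
    rw [h0, sum_empty] at hWd
    linarith
  obtain ⟨q, hq, hmin⟩ := exists_min_image (Y ×ˢ Y) (fun q : ℕ × ℕ => E q.1 q.2)
    (hY.product hY)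
  obtain ⟨hq1, hq2⟩ := mem_product.1 hq
  refine ⟨q.1, hq1, q.2, hq2, ?_⟩
  have h1 : W * (W * E q.1 q.2) ≤ ∑ i ∈ Y, w i * ∑ j ∈ Y, w j * E i j := by
    rw [hWd, sum_mul]
    refine sum_le_sum fun i hi => mul_le_mul_of_nonneg_left ?_ (hw i hi)
    rw [sum_mul]
    refine sum_le_sum fun j hj => mul_le_mul_of_nonneg_left ?_ (hw j hj)
    exact hmin (i, j) (mem_product.2 ⟨hi, hj⟩)
  have h2 : W * (W * E q.1 q.2) ≤ W * a + b := h1.trans h
  have h3 : W ^ 2 * E q.1 q.2 ≤ W ^ 2 * (a / W0 + b / W0 ^ 2) := by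
    have h4 : W * a ≤ W ^ 2 * (a / W0) := by
      have h5 : W ^ 2 * (a / W0) = W * a * (W / W0) := by
        field_simp
      rw [h5]
      have h6 : 1 ≤ W / W0 := (one_le_div hW0).2 hW
      exact le_mul_of_one_le_right (by positivity) h6
    have h5 : b ≤ W ^ 2 * (b / W0 ^ 2) := by
      have h5 : W ^ 2 * (b / W0 ^ 2) = b * (W / W0) ^ 2 := by
        field_simp
      rw [h5]
      have h6 : 1 ≤ W / W0 := (one_le_div hW0).2 hW
      exact le_mul_of_one_le_right hb (one_le_pow₀ h6)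
    have h6 : W ^ 2 * E q.1 q.2 = W * (W * E q.1 q.2) := by ring
    rw [h6, mul_add]
    linarith
  exact le_of_mul_le_mul_left h3 (by positivity)

end

theorem dichotomy5 (C c1 W0 : ℝ) (hC : 1 ≤ C) (hc1 : 0 < c1) (hW0 : 0 < W0) : ∃ K : ℝ, 0 < K ∧ ∀ (d : ℕ) [NeZero d]
    (F1 F2 F3 f1 f2 : (ZMod d)ˣ → ℝ) (Y : Finset ℕ) (w : ℕ → ℝ) (y : ℕ → (ZMod d)ˣ) (η : ℝ) (c : (ZMod d)ˣ), 0 ≤ η →
    (∀ i ∈ Y, 0 ≤ w i) → W0 ≤ ∑ i ∈ Y, w i → (∀ x, 0 ≤ f1 x) → (∀ x, 0 ≤ f2 x) → (∀ x, f1 x ≤ F1 x) → (∀ x, f2 x ≤ F2 x) →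
    (∀ x, 0 ≤ F3 x) → (∀ x, F1 x ≤ C) → (∀ x, F2 x ≤ C) → (∀ x, F3 x ≤ C) → (∀ x, c1 ≤ f1 x + f2 x) →
    (∀ x, ∑ i ∈ Y, w i * f1 (x * (y i)⁻¹) ≤ 2 * F2 x) → (∀ x, ∑ i ∈ Y, w i * f2 (x * (y i)⁻¹) ≤ 3 * F3 x) →
    (∀ x, ∑ i ∈ Y, w i * ∑ j ∈ Y, w j * f1 (x * (y i)⁻¹ * (y j)⁻¹) ≤ 6 * F3 x) →
    cv F2 F2 c ≤ η → cv F1 F3 c ≤ η →
      av (fun x => (1 - ge1 F1 (c1 / 2) x) * F1 x) ≤ K * η ∧ av (fun x => ge1 F1 (c1 / 2) x * F2 x) ≤ K * η ∧
      av (fun x => (1 - ge1 F1 (c1 / 2) x) * F3 x) ≤ K * η ∧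
      av (fun x => |ge1 F1 (c1 / 2) (c * x⁻¹) + ge1 F1 (c1 / 2) x - 1|) ≤ K * η := by
  obtain ⟨t, ht⟩ : ∃ t, t = c1 / 2 := ⟨_, rfl⟩
  have ht0 : 0 < t := by rw [ht]; linarith
  obtain ⟨κ, hκ⟩ : ∃ κ, κ = (5 / t / W0 + 6 / t / W0 ^ 2) / t := ⟨_, rfl⟩
  obtain ⟨κ', hκ'⟩ : ∃ κ', κ' = 6 * κ + 2 / t ^ 2 := ⟨_, rfl⟩
  have hκ0 : 0 < κ := by rw [hκ]; positivity
  have hκ'0 : 0 < κ' := by rw [hκ']; positivity
  have hC0 : 0 < C := by linarith
  obtain ⟨K, hK⟩ : ∃ K, K = (3 / t + 4 * C / t ^ 2) / W0 + 1 / t + C * (2 * κ + κ') := ⟨_, rfl⟩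
  have hK0 : 0 < K := by rw [hK]; positivity
  refine ⟨K, hK0, ?_⟩
  intro d _ F1 F2 F3 f1 f2 Y w y η c hη hw hW nf1 nf2 hf1 hf2 nF3 u1 u2 u3 hcov ha hb hcc h22 h13
  rw [← ht]
  have nF1 : ∀ x, 0 ≤ F1 x := fun x => (nf1 x).trans (hf1 x)
  have nF2 : ∀ x, 0 ≤ F2 x := fun x => (nf2 x).trans (hf2 x)
  obtain ⟨s1, hs1⟩ : ∃ s1 : (ZMod d)ˣ → ℝ, s1 = ge1 F1 t := ⟨_, rfl⟩
  obtain ⟨s2, hs2⟩ : ∃ s2 : (ZMod d)ˣ → ℝ, s2 = ge1 F2 t := ⟨_, rfl⟩
  obtain ⟨r1, hr1⟩ : ∃ r1 : (ZMod d)ˣ → ℝ, r1 = ge1 f1 t := ⟨_, rfl⟩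
  obtain ⟨r2, hr2⟩ : ∃ r2 : (ZMod d)ˣ → ℝ, r2 = ge1 f2 t := ⟨_, rfl⟩
  rw [← hs1]
  have v1 : ∀ x, s1 x = 0 ∨ s1 x = 1 := fun x => hs1 ▸ ge1_val F1 t x
  have v2 : ∀ x, s2 x = 0 ∨ s2 x = 1 := fun x => hs2 ▸ ge1_val F2 t x
  have q1 : ∀ x, r1 x = 0 ∨ r1 x = 1 := fun x => hr1 ▸ ge1_val f1 t x
  have q2 : ∀ x, r2 x = 0 ∨ r2 x = 1 := fun x => hr2 ▸ ge1_val f2 t x
  have t1 : ∀ x, t * s1 x ≤ F1 x := fun x => hs1 ▸ D5_ge F1 t nF1 x
  have t2 : ∀ x, t * s2 x ≤ F2 x := fun x => hs2 ▸ D5_ge F2 t nF2 x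
  have p1 : ∀ x, t * r1 x ≤ f1 x := fun x => hr1 ▸ D5_ge f1 t nf1 x
  have p2 : ∀ x, t * r2 x ≤ f2 x := fun x => hr2 ▸ D5_ge f2 t nf2 x
  have m1 : ∀ x, r1 x ≤ s1 x := fun x => hs1 ▸ hr1 ▸ D5_mono f1 F1 hf1 t x
  have m2 : ∀ x, r2 x ≤ s2 x := fun x => hs2 ▸ hr2 ▸ D5_mono f2 F2 hf2 t x
  have hrr : ∀ x, 1 ≤ r1 x + r2 x := by
    intro x
    rcases q1 x with h1 | h1 <;> rcases q2 x with h2 | h2
    · exfalso
      have h3 := D5_lt f1 t x (by rw [← hr1]; exact h1)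
      have h4 := D5_lt f2 t x (by rw [← hr2]; exact h2)
      have h5 := hcov x
      rw [ht] at h3 h4
      linarith
    · rw [h1, h2]; norm_num
    · rw [h1, h2]; norm_num
    · rw [h1, h2]; norm_num
  have hss : ∀ x, 1 ≤ s1 x + s2 x := fun x => (hrr x).trans (add_le_add (m1 x) (m2 x))
  have g1 : ∀ x, t * (1 - r2 x) ≤ f1 x := by
    intro x
    have h1 := hrr x
    have h2 := mul_le_mul_of_nonneg_left (show 1 - r2 x ≤ r1 x by linarith) ht0.le
    exact h2.trans (p1 x)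
  have n1 : ∀ x, 0 ≤ s1 x := fun x => hs1 ▸ D5_nn F1 t x
  have n2 : ∀ x, 0 ≤ s2 x := fun x => hs2 ▸ D5_nn F2 t x
  have o1 : ∀ x, s1 x ≤ 1 := fun x => hs1 ▸ D5_le1 F1 t x
  have l1 : ∀ x, 0 ≤ r1 x := fun x => hr1 ▸ D5_nn f1 t x
  obtain ⟨A, hA⟩ : ∃ A : (ZMod d)ˣ → ℝ, A = fun x => s2 (c * x⁻¹) := ⟨_, rfl⟩
  obtain ⟨B, hB⟩ : ∃ B : (ZMod d)ˣ → ℝ, B = fun x => s1 (c * x⁻¹) := ⟨_, rfl⟩
  have hAx : ∀ x, A x = s2 (c * x⁻¹) := fun x => by rw [hA]
  have hBx : ∀ x, B x = s1 (c * x⁻¹) := fun x => by rw [hB]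
  have vA : ∀ x, A x = 0 ∨ A x = 1 := fun x => by rw [hAx]; exact v2 _
  have nA : ∀ x, 0 ≤ A x := fun x => by rw [hAx]; exact n2 _
  have nB : ∀ x, 0 ≤ B x := fun x => by rw [hBx]; exact n1 _
  have oA : ∀ x, A x ≤ 1 := fun x => by rcases vA x with h | h <;> rw [h]; exact zero_le_one
  have oB : ∀ x, B x ≤ 1 := fun x => by rw [hBx]; exact o1 _
  have hAB : ∀ x, 1 ≤ B x + A x := fun x => by rw [hAx, hBx]; exact hss _
  have avA : av A = av s2 := by rw [hA]; exact av_inv s2 c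
  -- (i) (ii) (iii)
  have i1 : av (fun x => A x * F2 x) ≤ η / t := by
    refine D5_le_of_mul ht0 ?_
    rw [← av_mul_left]
    refine (av_mono fun x => ?_).trans h22
    have h1 := mul_le_mul_of_nonneg_right (t2 (c * x⁻¹)) (nF2 x)
    rw [← hAx] at h1
    linarith
  have i2 : av (fun x => B x * F3 x) ≤ η / t := by
    refine D5_le_of_mul ht0 ?_
    rw [← av_mul_left]
    have h0 : cv F1 F3 c = av (fun x => F1 (c * x⁻¹) * F3 x) := by
      unfold cv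
      rw [← av_inv (fun x => F1 x * F3 (c * x⁻¹)) c]
      congr 1
      funext x
      rw [mul_inv, inv_inv, ← mul_assoc, mul_inv_cancel, one_mul]
    rw [h0] at h13
    refine (av_mono fun x => ?_).trans h13
    have h1 := mul_le_mul_of_nonneg_right (t1 (c * x⁻¹)) (nF3 x)
    rw [← hBx] at h1
    linarith
  have i3 : av (fun x => A x * s2 x) ≤ η / t / t := by
    refine D5_le_of_mul ht0 ?_
    rw [← av_mul_left]
    refine (av_mono fun x => ?_).trans i1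
    have h1 := mul_le_mul_of_nonneg_left (t2 x) (nA x)
    linarith
  -- (iv)
  obtain ⟨e, he⟩ : ∃ e : ℕ → ℝ, e = fun i => av (fun x => A x * f1 (x * (y i)⁻¹)) := ⟨_, rfl⟩
  obtain ⟨e', he'⟩ : ∃ e' : ℕ → ℝ, e' = fun i => av (fun x => B x * f2 (x * (y i)⁻¹)) :=
    ⟨_, rfl⟩
  obtain ⟨e2, he2⟩ : ∃ e2 : ℕ → ℕ → ℝ, e2 = fun i j =>
    av (fun x => B x * f1 (x * (y i)⁻¹ * (y j)⁻¹)) := ⟨_, rfl⟩
  have ne : ∀ i, 0 ≤ e i := fun i => by
    rw [he]
    exact av_nonneg fun x => mul_nonneg (nA x) (nf1 _)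
  have ne' : ∀ i, 0 ≤ e' i := fun i => by
    rw [he']
    exact av_nonneg fun x => mul_nonneg (nB x) (nf2 _)
  have ne2 : ∀ i j, 0 ≤ e2 i j := fun i j => by
    rw [he2]
    exact av_nonneg fun x => mul_nonneg (nB x) (nf1 _)
  have se : ∑ i ∈ Y, w i * e i ≤ 2 * (η / t) := by
    have h1 : ∑ i ∈ Y, w i * e i = av (fun x => A x * ∑ i ∈ Y, w i * f1 (x * (y i)⁻¹)) := by
      have h2 : ∀ x, A x * ∑ i ∈ Y, w i * f1 (x * (y i)⁻¹) =
          ∑ i ∈ Y, w i * (A x * f1 (x * (y i)⁻¹)) := fun x => by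
        rw [mul_sum]
        exact sum_congr rfl fun i _ => by ring
      rw [show (fun x => A x * ∑ i ∈ Y, w i * f1 (x * (y i)⁻¹)) =
        (fun x => ∑ i ∈ Y, w i * (A x * f1 (x * (y i)⁻¹))) from funext h2, av_sum]
      refine sum_congr rfl fun i _ => ?_
      rw [he, av_mul_left]
    rw [h1]
    have h2 : av (fun x => A x * ∑ i ∈ Y, w i * f1 (x * (y i)⁻¹)) ≤
        av (fun x => 2 * (A x * F2 x)) := by
      refine av_mono fun x => ?_
      have h3 := mul_le_mul_of_nonneg_left (ha x) (nA x)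
      linarith
    rw [av_mul_left] at h2
    linarith
  have se' : ∑ i ∈ Y, w i * e' i ≤ 3 * (η / t) := by
    have h1 : ∑ i ∈ Y, w i * e' i = av (fun x => B x * ∑ i ∈ Y, w i * f2 (x * (y i)⁻¹)) := by
      have h2 : ∀ x, B x * ∑ i ∈ Y, w i * f2 (x * (y i)⁻¹) =
          ∑ i ∈ Y, w i * (B x * f2 (x * (y i)⁻¹)) := fun x => by
        rw [mul_sum]
        exact sum_congr rfl fun i _ => by ring
      rw [show (fun x => B x * ∑ i ∈ Y, w i * f2 (x * (y i)⁻¹)) =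
        (fun x => ∑ i ∈ Y, w i * (B x * f2 (x * (y i)⁻¹))) from funext h2, av_sum]
      refine sum_congr rfl fun i _ => ?_
      rw [he', av_mul_left]
    rw [h1]
    have h2 : av (fun x => B x * ∑ i ∈ Y, w i * f2 (x * (y i)⁻¹)) ≤
        av (fun x => 3 * (B x * F3 x)) := by
      refine av_mono fun x => ?_
      have h3 := mul_le_mul_of_nonneg_left (hb x) (nB x)
      linarith
    rw [av_mul_left] at h2
    linarith
  have se2 : ∑ i ∈ Y, w i * ∑ j ∈ Y, w j * e2 i j ≤ 6 * (η / t) := by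
    have h1 : ∑ i ∈ Y, w i * ∑ j ∈ Y, w j * e2 i j =
        av (fun x => B x * ∑ i ∈ Y, w i * ∑ j ∈ Y, w j * f1 (x * (y i)⁻¹ * (y j)⁻¹)) := by
      have h2 : ∀ x, B x * ∑ i ∈ Y, w i * ∑ j ∈ Y, w j * f1 (x * (y i)⁻¹ * (y j)⁻¹) =
          ∑ i ∈ Y, w i * ∑ j ∈ Y, w j * (B x * f1 (x * (y i)⁻¹ * (y j)⁻¹)) := fun x => by
        rw [mul_sum]
        refine sum_congr rfl fun i _ => ?_
        rw [mul_left_comm]
        congr 1
        rw [mul_sum]
        exact sum_congr rfl fun j _ => by ring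
      rw [show (fun x => B x * ∑ i ∈ Y, w i * ∑ j ∈ Y, w j * f1 (x * (y i)⁻¹ * (y j)⁻¹)) =
        (fun x => ∑ i ∈ Y, w i * ∑ j ∈ Y, w j * (B x * f1 (x * (y i)⁻¹ * (y j)⁻¹))) from
        funext h2, av_sum]
      refine sum_congr rfl fun i _ => ?_
      rw [av_mul_left, av_sum]
      congr 1
      refine sum_congr rfl fun j _ => ?_
      rw [he2, av_mul_left]
    rw [h1]
    have h2 : av (fun x => B x * ∑ i ∈ Y, w i * ∑ j ∈ Y, w j * f1 (x * (y i)⁻¹ * (y j)⁻¹)) ≤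
        av (fun x => 6 * (B x * F3 x)) := by
      refine av_mono fun x => ?_
      have h3 := mul_le_mul_of_nonneg_left (hcc x) (nB x)
      linarith
    rw [av_mul_left] at h2
    linarith
  have hηt : 0 ≤ η / t := div_nonneg hη ht0.le
  obtain ⟨i, hi, j, hj, hij⟩ := D5_pick Y w hw W0 hW0 hW (fun i j => e i + e' i + e2 i j)
    (5 * (η / t)) (6 * (η / t)) (by positivity) (by positivity) (by
      have h1 : ∑ i ∈ Y, w i * ∑ j ∈ Y, w j * (e i + e' i + e2 i j) =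
          (∑ i ∈ Y, w i) * (∑ i ∈ Y, w i * e i + ∑ i ∈ Y, w i * e' i) +
            ∑ i ∈ Y, w i * ∑ j ∈ Y, w j * e2 i j := by
        rw [← sum_add_distrib, mul_sum, ← sum_add_distrib]
        refine sum_congr rfl fun i _ => ?_
        have h2 : ∑ j ∈ Y, w j * (e i + e' i + e2 i j) =
            (∑ j ∈ Y, w j) * (e i + e' i) + ∑ j ∈ Y, w j * e2 i j := by
          rw [sum_mul, ← sum_add_distrib]
          exact sum_congr rfl fun j _ => by ring
        rw [h2]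
        ring
      rw [h1]
      have hWp : 0 ≤ ∑ i ∈ Y, w i := by linarith
      have h2 := mul_le_mul_of_nonneg_left (show ∑ i ∈ Y, w i * e i + ∑ i ∈ Y, w i * e' i ≤
        5 * (η / t) by linarith) hWp
      linarith)
  obtain ⟨δ, hδ⟩ : ∃ δ, δ = κ * η := ⟨_, rfl⟩
  have hmδ : (5 * (η / t) / W0 + 6 * (η / t) / W0 ^ 2) / t = δ := by
    rw [hδ, hκ]
    ring
  have hd1 : e i / t ≤ δ := by
    rw [← hmδ]
    refine div_le_div_of_nonneg_right ?_ ht0.le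
    have := ne' i
    have := ne2 i j
    linarith
  have hd2 : e' i / t ≤ δ := by
    rw [← hmδ]
    refine div_le_div_of_nonneg_right ?_ ht0.le
    have := ne i
    have := ne2 i j
    linarith
  have hd3 : e2 i j / t ≤ δ := by
    rw [← hmδ]
    refine div_le_div_of_nonneg_right ?_ ht0.le
    have := ne i
    have := ne' i
    linarith
  -- (v)
  have hP : ∀ i, av (fun x => A (x * y i) * (1 - r2 x)) ≤ e i / t := fun i => by
    refine D5_le_of_mul ht0 ?_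
    rw [he]
    exact D5_P A (fun x => 1 - r2 x) f1 t nA g1 (y i)
  have hr2s2 : av r2 ≤ av A := by
    rw [avA]
    exact av_mono m2
  have hAbs : ∀ i, av (fun x => |A (x * y i) - r2 x|) ≤ 2 * (e i / t) := fun i =>
    (D5_abs A r2 vA q2 (y i) hr2s2).trans (mul_le_mul_of_nonneg_left (hP i) (by norm_num))
  have hs2r2 : av s2 - av r2 ≤ δ := by
    have h1 : av (fun x => A (x * y i)) ≤ av (fun x => r2 x + A (x * y i) * (1 - r2 x)) := by
      refine av_mono fun x => ?_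
      rcases vA (x * y i) with h1 | h1 <;> rcases q2 x with h2 | h2 <;> rw [h1, h2] <;> norm_num
    rw [av_add, av_shift A (y i), avA] at h1
    have h2 : av (fun x => r2 x) = av r2 := rfl
    have h3 := (hP i).trans hd1
    linarith
  -- (vi)
  have hBr2 : av (fun x => B (x * y i) * r2 x) ≤ δ := by
    refine le_trans (D5_le_of_mul ht0 ?_) hd2
    rw [he']
    exact D5_P B r2 f2 t nB p2 (y i)
  have hBA : av (fun x => B x * A x) ≤ 2 * δ := by
    rw [← av_shift (fun x => B x * A x) (y i)]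
    have h1 : av (fun x => B (x * y i) * A (x * y i)) ≤
        av (fun x => B (x * y i) * r2 x + A (x * y i) * (1 - r2 x)) := by
      refine av_mono fun x => ?_
      have h3 := oB (x * y i)
      have h4 := nB (x * y i)
      rcases vA (x * y i) with h1 | h1 <;> rcases q2 x with h2 | h2 <;> rw [h1, h2] <;> linarith
    rw [av_add] at h1
    have h3 := (hP i).trans hd1
    linarith
  have hs12 : av (fun x => s1 x * s2 x) ≤ 2 * δ := by
    rw [← av_inv (fun x => s1 x * s2 x) c]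
    refine le_trans (av_mono fun x => ?_) hBA
    rw [hAx, hBx]
  have hs1r1 : av s1 ≤ av r1 + 2 * δ := by
    have h1 : av s1 ≤ av (fun x => r1 x + s1 x * s2 x) := by
      refine av_mono fun x => ?_
      have h3 := hrr x
      have h4 := m2 x
      rcases v1 x with h1 | h1 <;> rcases q1 x with h2 | h2 <;> rcases v2 x with h5 | h5 <;>
        rcases q2 x with h6 | h6 <;> rw [h1, h2, h5] <;> rw [h2, h6] at h3 <;>
        rw [h5, h6] at h4 <;> linarith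
    rw [av_add] at h1
    have h2 : av (fun x => r1 x) = av r1 := rfl
    linarith
  -- (vii)
  have hBr1 : av (fun x => B (x * (y i * y j)) * r1 x) ≤ δ := by
    refine le_trans (D5_le_of_mul ht0 ?_) hd3
    have h1 := D5_P B r1 f1 t nB p1 (y i * y j)
    refine h1.trans (le_of_eq ?_)
    rw [he2]
    congr 1
    funext x
    rw [mul_inv, mul_assoc]
  have hAs2 : av (fun x => |A (x * y i) - s2 x|) ≤ 3 * δ := by
    have h1 : av (fun x => |A (x * y i) - s2 x|) ≤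
        av (fun x => |A (x * y i) - r2 x| + (s2 x + (-1) * r2 x)) := by
      refine av_mono fun x => ?_
      have h2 := m2 x
      have h3 := abs_sub_le (A (x * y i)) (r2 x) (s2 x)
      have h4 : |r2 x - s2 x| = s2 x - r2 x := by
        rw [abs_sub_comm, abs_of_nonneg (by linarith)]
      linarith
    rw [av_add, av_add, av_mul_left] at h1
    have h2 : av (fun x => s2 x) = av s2 := rfl
    have h3 : av (fun x => r2 x) = av r2 := rfl
    have h4 := hAbs i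
    rw [h2, h3] at h1
    linarith
  have hAs2' : av (fun x => |A (x * (y i * y j)) - s2 (x * y j)|) ≤ 3 * δ := by
    have h1 := av_shift (fun x => |A (x * y i) - s2 x|) (y j)
    refine le_trans (le_of_eq ?_) hAs2
    rw [← h1]
    congr 1
    funext x
    rw [mul_comm (y i), mul_assoc]
  have hr1s2 : av r1 ≤ av s2 + 4 * δ := by
    have h1 : av r1 ≤ av (fun x => s2 (x * y j) + (B (x * (y i * y j)) * r1 x +
        |A (x * (y i * y j)) - s2 (x * y j)|)) := by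
      refine av_mono fun x => ?_
      have h3 := hAB (x * (y i * y j))
      have h4 := le_abs_self (A (x * (y i * y j)) - s2 (x * y j))
      have h5 := abs_nonneg (A (x * (y i * y j)) - s2 (x * y j))
      have h6 := n2 (x * y j)
      rcases q1 x with h2 | h2 <;> rw [h2] <;> linarith
    rw [av_add, av_add, av_shift s2 (y j)] at h1
    linarith
  have hs1s2 : av s1 ≤ av s2 + 6 * δ := by linarith
  -- (viii)
  have hδ' : av (fun x => |s1 x - A x|) ≤ κ' * η := by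
    have h1 : av (fun x => |s1 x - A x|) ≤
        av (fun x => s1 x + ((-1) * A x + 2 * (A x * s2 x))) := by
      refine av_mono fun x => ?_
      have h3 := hss x
      have h4 := n2 x
      rcases v1 x with h1 | h1 <;> rcases vA x with h2 | h2 <;> rw [h1, h2] <;> rw [h1] at h3
      · norm_num
      · rw [zero_sub, abs_neg, abs_one]
        linarith
      · norm_num
      · rw [sub_self, abs_zero]
        linarith
    rw [av_add, av_add, av_mul_left, av_mul_left] at h1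
    have h2 : av (fun x => s1 x) = av s1 := rfl
    have h3 : av (fun x => A x) = av A := rfl
    rw [h2, h3, avA] at h1
    have h4 : κ' * η = 6 * δ + 2 * (η / t / t) := by
      rw [hκ', hδ]
      field_simp
    linarith
  -- (ix)
  have hfour : av (fun x => |s1 (c * x⁻¹) + s1 x - 1|) ≤ (2 * κ + κ') * η := by
    have h1 : av (fun x => |s1 (c * x⁻¹) + s1 x - 1|) ≤
        av (fun x => B x * A x + |s1 x - A x|) := by
      refine av_mono fun x => ?_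
      rw [← hBx]
      have h3 := hAB x
      have h4 : |B x + A x - 1| = B x * A x := by
        rw [abs_of_nonneg (by linarith)]
        have h5 : B x = 0 ∨ B x = 1 := by rw [hBx]; exact v1 _
        rcases h5 with h5 | h5 <;> rcases vA x with h2 | h2 <;> rw [h5, h2] <;>
          rw [h5, h2] at h3 <;> linarith
      have h5 := abs_add_le (B x + A x - 1) (s1 x - A x)
      have h6 : B x + A x - 1 + (s1 x - A x) = B x + s1 x - 1 := by ring
      rw [h6, h4] at h5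
      exact h5
    rw [av_add] at h1
    have h2 : (2 * κ + κ') * η = 2 * δ + κ' * η := by rw [hδ]; ring
    linarith
  have hsecond : av (fun x => s1 x * F2 x) ≤ η / t + C * (κ' * η) := by
    have h1 : av (fun x => s1 x * F2 x) ≤ av (fun x => A x * F2 x + C * |s1 x - A x|) := by
      refine av_mono fun x => ?_
      have h2 := le_abs_self (s1 x - A x)
      have h3 := mul_le_mul_of_nonneg_right h2 (nF2 x)
      have h4 := mul_le_mul_of_nonneg_left (u2 x) (abs_nonneg (s1 x - A x))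
      linarith
    rw [av_add, av_mul_left] at h1
    have h2 := mul_le_mul_of_nonneg_left hδ' hC0.le
    linarith
  have hthird : av (fun x => (1 - s1 x) * F3 x) ≤ η / t + C * ((2 * κ + κ') * η) := by
    have h1 : av (fun x => (1 - s1 x) * F3 x) ≤
        av (fun x => B x * F3 x + C * |s1 (c * x⁻¹) + s1 x - 1|) := by
      refine av_mono fun x => ?_
      have h2 := neg_abs_le (s1 (c * x⁻¹) + s1 x - 1)
      have h3 := mul_le_mul_of_nonneg_right (show 1 - s1 x ≤ B x + |s1 (c * x⁻¹) + s1 x - 1| by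
        rw [hBx]; linarith) (nF3 x)
      have h4 := mul_le_mul_of_nonneg_left (u3 x) (abs_nonneg (s1 (c * x⁻¹) + s1 x - 1))
      linarith
    rw [av_add, av_mul_left] at h1
    have h2 := mul_le_mul_of_nonneg_left hfour hC0.le
    linarith
  -- (x)
  have hfirst : W0 * av (fun x => (1 - s1 x) * F1 x) ≤ 3 * (η / t) + 4 * C * (η / t / t) := by
    obtain ⟨g, hg⟩ : ∃ g : (ZMod d)ˣ → ℝ, g = fun x => ∑ i ∈ Y, w i * r2 (x * (y i)⁻¹) :=
      ⟨_, rfl⟩
    have hgx : ∀ x, g x = ∑ i ∈ Y, w i * r2 (x * (y i)⁻¹) := fun x => by rw [hg]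
    have hgF : ∀ x, t * g x ≤ 3 * F3 x := by
      intro x
      rw [hgx, mul_sum]
      refine (sum_le_sum fun i hi => ?_).trans (hb x)
      have h1 := mul_le_mul_of_nonneg_left (p2 (x * (y i)⁻¹)) (hw i hi)
      linarith
    have hgA : av (fun x => |g x - (∑ i ∈ Y, w i) * A x|) ≤ 4 * (η / t / t) := by
      have h1 : av (fun x => |g x - (∑ i ∈ Y, w i) * A x|) ≤
          av (fun x => ∑ i ∈ Y, w i * |A x - r2 (x * (y i)⁻¹)|) := by
        refine av_mono fun x => ?_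
        have h2 : g x - (∑ i ∈ Y, w i) * A x = ∑ i ∈ Y, w i * (r2 (x * (y i)⁻¹) - A x) := by
          rw [hgx, sum_mul, ← sum_sub_distrib]
          exact sum_congr rfl fun i _ => by ring
        rw [h2]
        refine (abs_sum_le_sum_abs _ _).trans (sum_le_sum fun i hi => ?_)
        rw [abs_mul, abs_of_nonneg (hw i hi), abs_sub_comm]
      rw [av_sum] at h1
      have h2 : ∀ i ∈ Y, av (fun x => w i * |A x - r2 (x * (y i)⁻¹)|) ≤ w i * (2 * (e i / t)) := by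
        intro i hi
        rw [av_mul_left]
        refine mul_le_mul_of_nonneg_left ?_ (hw i hi)
        have h3 := av_shift (fun x => |A x - r2 (x * (y i)⁻¹)|) (y i)
        rw [← h3]
        refine le_trans (le_of_eq ?_) (hAbs i)
        congr 1
        funext x
        rw [mul_inv_cancel_right]
      have h3 := h1.trans (sum_le_sum h2)
      have h4 : ∑ i ∈ Y, w i * (2 * (e i / t)) = 2 / t * ∑ i ∈ Y, w i * e i := by
        rw [mul_sum]
        exact sum_congr rfl fun i _ => by ring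
      rw [h4] at h3
      have h5 := mul_le_mul_of_nonneg_left se (show 0 ≤ 2 / t by positivity)
      have h6 : 2 / t * (2 * (η / t)) = 4 * (η / t / t) := by ring
      linarith
    -- transport
    have h1 : av (fun x => F1 x * (t * ((∑ i ∈ Y, w i) * A (c * x⁻¹)))) ≤
        av (fun x => 3 * (F1 x * F3 (c * x⁻¹)) +
          t * C * |g (c * x⁻¹) - (∑ i ∈ Y, w i) * A (c * x⁻¹)|) := by
      refine av_mono fun x => ?_
      have h2 := hgF (c * x⁻¹)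
      have h3 := neg_abs_le (g (c * x⁻¹) - (∑ i ∈ Y, w i) * A (c * x⁻¹))
      have h4 := abs_nonneg (g (c * x⁻¹) - (∑ i ∈ Y, w i) * A (c * x⁻¹))
      have h5 : t * ((∑ i ∈ Y, w i) * A (c * x⁻¹)) ≤ 3 * F3 (c * x⁻¹) +
          t * |g (c * x⁻¹) - (∑ i ∈ Y, w i) * A (c * x⁻¹)| := by
        have h6 := mul_le_mul_of_nonneg_left (show (∑ i ∈ Y, w i) * A (c * x⁻¹) ≤ g (c * x⁻¹) +
          |g (c * x⁻¹) - (∑ i ∈ Y, w i) * A (c * x⁻¹)| by linarith) ht0.le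
        linarith
      have h6 := mul_le_mul_of_nonneg_left h5 (nF1 x)
      have h7 := mul_le_mul_of_nonneg_right (u1 x) (mul_nonneg ht0.le h4)
      linarith
    rw [av_add, av_mul_left, av_mul_left,
      av_inv (fun x => |g x - (∑ i ∈ Y, w i) * A x|) c] at h1
    have h2 : av (fun x => t * W0 * ((1 - s1 x) * F1 x)) ≤
        av (fun x => F1 x * (t * ((∑ i ∈ Y, w i) * A (c * x⁻¹)))) := by
      refine av_mono fun x => ?_
      have h3 : A (c * x⁻¹) = s2 x := by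
        rw [hAx, mul_inv, inv_inv, ← mul_assoc, mul_inv_cancel, one_mul]
      rw [h3]
      have h4 := hss x
      have h5 : W0 * (1 - s1 x) ≤ (∑ i ∈ Y, w i) * s2 x :=
        mul_le_mul hW (by linarith) (by linarith [o1 x]) (by linarith)
      have h6 := mul_le_mul_of_nonneg_left h5 (mul_nonneg (nF1 x) ht0.le)
      linarith
    rw [av_mul_left] at h2
    have h13' : av (fun x => F1 x * F3 (c * x⁻¹)) ≤ η := h13
    have h3 : t * C * av (fun x => |g x - (∑ i ∈ Y, w i) * A x|) ≤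
        t * C * (4 * (η / t / t)) :=
      mul_le_mul_of_nonneg_left hgA (by positivity)
    have h4 : t * (W0 * av (fun x => (1 - s1 x) * F1 x)) ≤
        t * (3 * (η / t) + 4 * C * (η / t / t)) := by
      have h5 : t * (3 * (η / t) + 4 * C * (η / t / t)) = 3 * η + t * C * (4 * (η / t / t)) := by
        field_simp
      rw [h5]
      linarith
    exact le_of_mul_le_mul_left h4 ht0
  have hCκ : 0 ≤ C * κ := by positivity
  have hCκ' : 0 ≤ C * κ' := by positivity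
  have hX : 0 ≤ (3 / t + 4 * C / t ^ 2) / W0 := by positivity
  have h1t : 0 ≤ 1 / t := by positivity
  refine ⟨?_, ?_, ?_, ?_⟩
  · have h1 : av (fun x => (1 - s1 x) * F1 x) ≤ (3 * (η / t) + 4 * C * (η / t / t)) / W0 := by
      rw [le_div_iff₀ hW0, mul_comm]
      exact hfirst
    refine h1.trans ?_
    have h2 : (3 * (η / t) + 4 * C * (η / t / t)) / W0 = (3 / t + 4 * C / t ^ 2) / W0 * η := by
      field_simp
    rw [h2]
    refine mul_le_mul_of_nonneg_right ?_ hη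
    rw [hK]
    linarith
  · refine hsecond.trans ?_
    have h2 : η / t + C * (κ' * η) = (1 / t + C * κ') * η := by ring
    rw [h2]
    refine mul_le_mul_of_nonneg_right ?_ hη
    rw [hK]
    linarith
  · refine hthird.trans ?_
    have h2 : η / t + C * ((2 * κ + κ') * η) = (1 / t + C * (2 * κ + κ')) * η := by ring
    rw [h2]
    refine mul_le_mul_of_nonneg_right ?_ hη
    rw [hK]
    linarith
  · refine hfour.trans (mul_le_mul_of_nonneg_right ?_ hη)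
    rw [hK]
    have h2 : 2 * κ + κ' ≤ C * (2 * κ + κ') := le_mul_of_one_le_left (by positivity) hC
    linarith

end Pool.Agent.Lib.MP_42948a_nt.TF
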