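import Pool.Agent.Lib.MP_42948a_nt.PS.Defs

/-!
# Exactly five primes at the exponent `2 + ε`, every modulus, every reduced class: definitions

Library `TF`. `OA`, `AC`, `TQ`, `PS` are earlier libraries of the same problem; we use `Rough`, `primesOff`, `chi` (`OA`),
`Fund`, `VV`, `ucl`, `ev`, `SF`, `AR` (`TQ`), `Wt`, `Pa` (`PS`).
`G = (ZMod d)ˣ`, `φ = Fintype.card G`.
-/

namespace Pool.Agent.Lib.MP_42948a_nt.TF

open Finset Pool.Agent.Lib.MP_42948a_nt.OA Pool.Agent.Lib.MP_42948a_nt.TQ Pool.Agent.Lib.MP_42948a_nt.PS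

/-- the mean over `G` -/
noncomputable def av {d : ℕ} [NeZero d] (f : (ZMod d)ˣ → ℝ) : ℝ := (∑ g : (ZMod d)ˣ, f g) / (Fintype.card (ZMod d)ˣ : ℝ)

open Classical in
/-- the products of exactly `i` primes `> d ^ α`, coprime to `d`, in the window `(d ^ a, d ^ b]` -/
noncomputable def EW (d : ℕ) (α : ℝ) (i : ℕ) (a b : ℝ) : Finset ℕ :=
  (Ioc ⌊(d : ℝ) ^ a⌋₊ ⌊(d : ℝ) ^ b⌋₊).filter
    (fun n => Rough ⌊(d : ℝ) ^ α⌋₊ n ∧ n.Coprime d ∧ ArithmeticFunction.cardFactors n = i)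

/-- the primes in the window `(d ^ a, d ^ b]` not dividing `d` -/
noncomputable def PW (d : ℕ) (a b : ℝ) : Finset ℕ := primesOff d ⌊(d : ℝ) ^ a⌋₊ ⌊(d : ℝ) ^ b⌋₊

/-- the density of `A` with the weights `1 / n` -/
noncomputable def den {d : ℕ} [NeZero d] (A : Finset ℕ) (x : (ZMod d)ˣ) : ℝ :=
  (Fintype.card (ZMod d)ˣ : ℝ) * ∑ n ∈ A, if ucl d n = x then 1 / (n : ℝ) else 0

/-- the density of `A` smoothed by `β` -/
noncomputable def sm {d : ℕ} (β : (ZMod d)ˣ → ℝ) (A : Finset ℕ) (x : (ZMod d)ˣ) : ℝ :=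
  ∑ n ∈ A, 1 / (n : ℝ) * β (x * (ucl d n)⁻¹)

/-- convolution, `cv f g c = E_x f(x) g(c / x)` -/
noncomputable def cv {d : ℕ} [NeZero d] (f g : (ZMod d)ˣ → ℝ) (c : (ZMod d)ˣ) : ℝ := av (fun x => f x * g (c * x⁻¹))

/-- a smoothing kernel: `β ≥ 0` of mean `1` with Fourier coefficients `b χ ∈ [0, 1]`, `≥ 1 - η` on `X`, and Wiener norm `≤ Q` -/
structure Ker {d : ℕ} [NeZero d] (X : Finset (DirichletCharacter ℂ d)) (η Q : ℝ) (β : (ZMod d)ˣ → ℝ)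
    (b : DirichletCharacter ℂ d → ℝ) : Prop where
  nonneg : ∀ g, 0 ≤ β g
  coef : ∀ χ, SF β χ = (((Fintype.card (ZMod d)ˣ : ℝ) * b χ : ℝ) : ℂ)
  b_nonneg : ∀ χ, 0 ≤ b χ
  b_le : ∀ χ, b χ ≤ 1
  b_one : b 1 = 1
  big : ∀ χ ∈ X, 1 - η ≤ b χ
  wn : ∑ χ, b χ ≤ Q

/-- the indicator of `{F ≥ t}` -/
noncomputable def ge1 {G : Type*} (F : G → ℝ) (t : ℝ) (x : G) : ℝ := open Classical in if t ≤ F x then 1 else 0

/-- the values of a real character of `G` as real numbers -/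
def rv {d : ℕ} (ψ : (ZMod d)ˣ →* ℤˣ) (x : (ZMod d)ˣ) : ℝ := (((ψ x : ℤˣ) : ℤ) : ℝ)

end Pool.Agent.Lib.MP_42948a_nt.TF
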