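import Pool.Agent.Lib.MP_42948a_nt.TF.A1

/-!
# Link between the partitions at two scales (job E1)

Full proof of `link`. `t = c1 / 2`, `s' = ge1 F1 t ∈ {0, 1}`. By `av_shift` (substitution `x ↦ x y⁻¹`) the left side is
`av (fun x => |s x + s' (x * y⁻¹) - 1|)`. Pointwise `|s x + s' (x y⁻¹) - 1| ≤ (2 / c1) * (s x * F1 (x y⁻¹) + (1 - s x) * F2 (x y⁻¹))`:
if `s x = 1`, `s' = 1`: left `= 1`, right `≥ (2 / c1) F1 ≥ 1`. If `s x = 0`, `s' = 0`: `F1 < c1 / 2`, so `F2 ≥ c1 / 2`, right `≥ 1`.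
Otherwise left `= 0`. Average.
`base`: the same with `y = 1`: pointwise `|s x - ge1 F1 t x| ≤ (2/c1) ((1 - s x) F1 x + s x F2 x)`.
-/

namespace Pool.Agent.Lib.MP_42948a_nt.TF

open Finset

private theorem E1_pw (c1 a b u v : ℝ) (hc1 : 0 < c1) (ha : a = 0 ∨ a = 1) (hu : 0 ≤ u) (hv : 0 ≤ v) (hcov : c1 ≤ u + v)
    (hb : b = if c1 / 2 ≤ u then 1 else 0) : |a + b - 1| ≤ 2 / c1 * (a * u + (1 - a) * v) := by
  have h2 : 0 < 2 / c1 := by positivity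
  have hn : 0 ≤ a * u + (1 - a) * v := by
    rcases ha with rfl | rfl
    · simp [hv]
    · simp [hu]
  have hR : 0 ≤ 2 / c1 * (a * u + (1 - a) * v) := mul_nonneg h2.le hn
  by_cases hx : c1 / 2 ≤ u
  · rw [if_pos hx] at hb
    subst hb
    rcases ha with rfl | rfl
    · simpa using hR
    · have h1 : (1 : ℝ) ≤ 2 / c1 * u := by
        calc (1 : ℝ) = 2 / c1 * (c1 / 2) := by field_simp
          _ ≤ 2 / c1 * u := mul_le_mul_of_nonneg_left hx h2.le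
      have h3 : |(1 : ℝ) + 1 - 1| = 1 := by norm_num
      rw [h3]
      simpa using h1
  · rw [if_neg hx] at hb
    subst hb
    push Not at hx
    rcases ha with rfl | rfl
    · have hv2 : c1 / 2 ≤ v := by linarith
      have h1 : (1 : ℝ) ≤ 2 / c1 * v := by
        calc (1 : ℝ) = 2 / c1 * (c1 / 2) := by field_simp
          _ ≤ 2 / c1 * v := mul_le_mul_of_nonneg_left hv2 h2.le
      have h3 : |(0 : ℝ) + 0 - 1| = 1 := by norm_num
      rw [h3]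
      simpa using h1
    · simpa using hR

theorem link {d : ℕ} [NeZero d] (s : (ZMod d)ˣ → ℝ) (hs : ∀ x, s x = 0 ∨ s x = 1) (F1 F2 : (ZMod d)ˣ → ℝ) (c1 : ℝ)
    (hc1 : 0 < c1) (n1 : ∀ x, 0 ≤ F1 x) (n2 : ∀ x, 0 ≤ F2 x) (hcov : ∀ x, c1 ≤ F1 x + F2 x) (y : (ZMod d)ˣ) :
    av (fun x => |s (x * y) + ge1 F1 (c1 / 2) x - 1|) ≤
      2 / c1 * (av (fun x => s x * F1 (x * y⁻¹)) + av (fun x => (1 - s x) * F2 (x * y⁻¹))) := by
  have h1 : av (fun x => |s (x * y) + ge1 F1 (c1 / 2) x - 1|) = av (fun x => |s x + ge1 F1 (c1 / 2) (x * y⁻¹) - 1|) := by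
    have h2 := av_shift (fun x => |s (x * y) + ge1 F1 (c1 / 2) x - 1|) y⁻¹
    rw [← h2]
    have h3 : (fun x : (ZMod d)ˣ => |s (x * y⁻¹ * y) + ge1 F1 (c1 / 2) (x * y⁻¹) - 1|) =
        fun x => |s x + ge1 F1 (c1 / 2) (x * y⁻¹) - 1| := by
      funext x
      rw [inv_mul_cancel_right]
    rw [h3]
  rw [h1, ← av_add, ← av_mul_left]
  refine av_mono ?_
  intro x
  exact E1_pw c1 (s x) _ (F1 (x * y⁻¹)) (F2 (x * y⁻¹)) hc1 (hs x) (n1 _) (n2 _) (hcov _) rfl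

theorem base {d : ℕ} [NeZero d] (s : (ZMod d)ˣ → ℝ) (hs : ∀ x, s x = 0 ∨ s x = 1) (F1 F2 : (ZMod d)ˣ → ℝ) (c1 : ℝ)
    (hc1 : 0 < c1) (n1 : ∀ x, 0 ≤ F1 x) (n2 : ∀ x, 0 ≤ F2 x) (hcov : ∀ x, c1 ≤ F1 x + F2 x) :
    av (fun x => |s x - ge1 F1 (c1 / 2) x|) ≤
      2 / c1 * (av (fun x => (1 - s x) * F1 x) + av (fun x => s x * F2 x)) := by
  rw [← av_add, ← av_mul_left]
  refine av_mono ?_
  intro x
  have h1 := E1_pw c1 (1 - s x) (ge1 F1 (c1 / 2) x) (F1 x) (F2 x) hc1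
    (by rcases hs x with h | h
        · right; rw [h]; norm_num
        · left; rw [h]; norm_num) (n1 _) (n2 _) (hcov _) rfl
  have h2 : |s x - ge1 F1 (c1 / 2) x| = |1 - s x + ge1 F1 (c1 / 2) x - 1| := by
    rw [abs_sub_comm]
    have h3 : ge1 F1 (c1 / 2) x - s x = 1 - s x + ge1 F1 (c1 / 2) x - 1 := by ring
    rw [h3]
  have h4 : (1 : ℝ) - (1 - s x) = s x := by ring
  rw [h4] at h1
  rw [h2]
  exact h1

end Pool.Agent.Lib.MP_42948a_nt.TF
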