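import Pool.Agent.Lib.MP_42948a_nt.TF.T2
import Pool.Agent.Lib.MP_42948a_nt.TF.E3

/-!
# The blocked class for one modulus

Everything is for one modulus. `B_i = EW d α i (1+ε0) (1+2ε0)`, `F_i = sm β B_i`, `T = PW d α (2α)`. If `c` is not a product of five primes, the
average of `cv F_2 F_2 (c / p) + cv F_1 F_3 (c / p)` over the tiny primes `p ∈ T` is small.
-/

namespace Pool.Agent.Lib.MP_42948a_nt.TF

open Finset Pool.Agent.Lib.MP_42948a_nt.OA Pool.Agent.Lib.MP_42948a_nt.TQ Pool.Agent.Lib.MP_42948a_nt.PS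

/-- the sum of the two convolutions of a blocked class divided by tiny primes is small -/
theorem blocked_sum {d : ℕ} [NeZero d] {X : Finset (DirichletCharacter ℂ d)} {η Q : ℝ} {β : (ZMod d)ˣ → ℝ}
    {b : DirichletCharacter ℂ d → ℝ} (hK : Ker X η Q β b) (hη : 0 ≤ η) (τ C α ε0 B : ℝ) (hτ : 0 ≤ τ)
    (hB : 2 * α + (2 + 4 * ε0) ≤ B)
    (hX : ∀ χ, χ ∉ X → ‖Pa (PW d α (2 * α)) χ‖ ≤ τ) (hW : 0 < Wt (PW d α (2 * α)))
    (hC : ∀ (i : ℕ) (x : (ZMod d)ˣ), den (EW d α i (1 + ε0) (1 + 2 * ε0)) x ≤ C) (c : (ZMod d)ˣ)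
    (hc : ∀ n : ℕ, (n : ℝ) ≤ (d : ℝ) ^ B → Rough ⌊(d : ℝ) ^ α⌋₊ n →
      ArithmeticFunction.cardFactors n = 5 → (n : ZMod d) ≠ (c : ZMod d)) :
    ∑ p ∈ PW d α (2 * α), 1 / (p : ℝ) *
      (cv (sm β (EW d α 2 (1 + ε0) (1 + 2 * ε0))) (sm β (EW d α 2 (1 + ε0) (1 + 2 * ε0))) (c * (ucl d p)⁻¹) +
        cv (sm β (EW d α 1 (1 + ε0) (1 + 2 * ε0))) (sm β (EW d α 3 (1 + ε0) (1 + 2 * ε0))) (c * (ucl d p)⁻¹)) ≤
      Wt (PW d α (2 * α)) * (2 * ((2 * η + τ) * C ^ 2)) := by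
  have hd : 1 ≤ d := NeZero.one_le
  have hd0 : (0 : ℝ) < d := by exact_mod_cast hd
  have hd1 : (1 : ℝ) ≤ d := by exact_mod_cast hd
  have key : ∀ i j : ℕ, 1 + i + j = 5 → ∑ p ∈ PW d α (2 * α), 1 / (p : ℝ) *
      cv (sm β (EW d α i (1 + ε0) (1 + 2 * ε0))) (sm β (EW d α j (1 + ε0) (1 + 2 * ε0))) (c * (ucl d p)⁻¹) ≤
      Wt (PW d α (2 * α)) * ((2 * η + τ) * C ^ 2) := by
    intro i j hij
    refine transfer hK hη τ C hτ _ _ _ (fun p hp => PW_coprime hp) (fun n hn => EW_coprime hn) (fun n hn => EW_coprime hn)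
      hW hX (hC i) (hC j) c ?_
    intro p hp m hm n hn
    have hp1 := mem_PW.mp hp
    rw [mem_EW] at hm hn
    obtain ⟨⟨hm1, hm2⟩, hm3, hm4, hm5⟩ := hm
    obtain ⟨⟨hn1, hn2⟩, hn3, hn4, hn5⟩ := hn
    apply hc
    · have h1 : (p : ℝ) ≤ (d : ℝ) ^ (2 * α) := (Nat.le_floor_iff (Real.rpow_nonneg hd0.le _)).mp hp1.2.2.1
      have h2 : (m : ℝ) ≤ (d : ℝ) ^ (1 + 2 * ε0) := (Nat.le_floor_iff (Real.rpow_nonneg hd0.le _)).mp hm2
      have h3 : (n : ℝ) ≤ (d : ℝ) ^ (1 + 2 * ε0) := (Nat.le_floor_iff (Real.rpow_nonneg hd0.le _)).mp hn2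
      push_cast
      calc (p : ℝ) * ((m : ℝ) * (n : ℝ)) ≤ (d : ℝ) ^ (2 * α) * ((d : ℝ) ^ (1 + 2 * ε0) * (d : ℝ) ^ (1 + 2 * ε0)) := by gcongr
        _ = (d : ℝ) ^ (2 * α + (2 + 4 * ε0)) := by
          rw [← Real.rpow_add hd0, ← Real.rpow_add hd0]
          congr 1
          ring
        _ ≤ (d : ℝ) ^ B := Real.rpow_le_rpow_of_exponent_le hd1 hB
    · refine Rough.mul ⟨hp1.1.pos, fun q hq hqp => ?_⟩ (Rough.mul hm3 hn3)
      rw [(Nat.prime_dvd_prime_iff_eq hq hp1.1).mp hqp]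
      exact hp1.2.1
    · rw [ArithmeticFunction.cardFactors_mul hp1.1.ne_zero (Nat.mul_ne_zero hm3.1.ne' hn3.1.ne'),
        ArithmeticFunction.cardFactors_mul hm3.1.ne' hn3.1.ne', ArithmeticFunction.cardFactors_apply_prime hp1.1, hm5, hn5,
        ← add_assoc]
      exact hij
  have h2 := key 2 2 rfl
  have h3 := key 1 3 rfl
  simp only [mul_add, sum_add_distrib]
  linarith

end Pool.Agent.Lib.MP_42948a_nt.TF
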