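import Pool.Agent.Lib.MP_42948a_nt.TF.E1
import Pool.Agent.Lib.MP_42948a_nt.TF.E3

/-!
# The chain of windows (job H1)

Notation: `a k = 1 + ε0 - k ε0 / 4`, window `I_k = (a k, a k + h]`, `s_k = ge1 (sm β (EW d α 1 (a k) (a k + h))) (c1 / 2)`,
`Y_k = PW d (if k = 0 then α else k ε0 / 4) (k ε0 / 4 + 7 ε0 / 8)`. In the lemma below everything is for one modulus; the numbers `w0` (lower bound for
the weights of the overlaps) and `W1` (upper bound for the weights) are hypotheses.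
Full proof.
(1) For all `k ≤ N` and `y ∈ Y_k`: `link` with `F1 = sm β (EW d α 1 (a k) (a k + h))`, `F2 = sm β (EW d α 2 (a k) (a k + h))` (`hcov`, as
`83/100 ≤ a k ≤ 11/10`) gives `av |s (x * ucl y) + s_k x - 1| ≤ 2 / c1 * eI β s α (a k) h (ucl y)`.
(2) `esum` with `a = a k`, `b`, `b'` the exponents of `Y_k`: `b ≥ α` and `1 + ε0 ≤ a k + b` (for `k = 0`: `a 0 + α ≥ 1 + ε0`), `a k + h + b' ≤ 1 + 2 ε0`
(as `h ≤ ε0 / 8`): `∑ y ∈ Y_k, 1/y * eI (a k) (ucl y) ≤ 5 E`; the same over any subset (terms `≥ 0`).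
(3) `D_k := av |s_k x - s x| ≤ (k + 1) * M * E`, `M = 4 / c1 + 20 / (c1 * w0)`, for `k ≤ N`. `k = 0`: `base` with the window `I_0 ⊆ (1 + ε0, 1 + 2 ε0]`
(`sm_mono`, `EW_mono`) gives `D_0 ≤ (2/c1) (E + E)`. Step: `O_k = PW d ((k+1) ε0/4) (k ε0/4 + 7 ε0/8)` is contained in `Y_k` and in `Y_{k+1}`, so
`∑ y ∈ O_k, 1/y * (eI (a k) + eI (a (k+1))) ≤ 10 E`, and since `w0 ≤ ∑ y ∈ O_k, 1/y`, some `y ∈ O_k` has `eI (a k) (ucl y) + eI (a (k+1)) (ucl y) ≤ 10 E / w0`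
(otherwise the sum would be `> 10 E`; `O_k` nonempty as `w0 > 0`); by (1) and the triangle inequality
`av |s_k - s_{k+1}| ≤ (2 / c1) (10 E / w0)`.
(4) for `y ∈ Y_k`: `av |s (x ucl y) + s x - 1| ≤ (2/c1) eI (a k) (ucl y) + D_k`. Sum over `Y_k` with the weights `1/y`: `≤ 10 E / c1 + W1 (N + 1) M E`.
(5) `PW d α (165/1000) ⊆ ⋃ k ≤ N, Y_k`: for `p ∈ PW d α (165/1000)` either `p ≤ ⌊d^(7ε0/8)⌋` (`k = 0`) or take the largest `k ≤ N` with `p > ⌊d^(kε0/4)⌋`;
if `k = N` then `p ≤ ⌊d^(165/1000)⌋ ≤ ⌊d^(Nε0/4 + 7ε0/8)⌋` (`hN2`), otherwise `p ≤ ⌊d^((k+1)ε0/4)⌋ ≤ ⌊d^(kε0/4+7ε0/8)⌋`.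
So the sum over `PW d α (165/1000)` is `≤ (N + 1) (10 / c1 + W1 (N + 1) M) E`.
-/

namespace Pool.Agent.Lib.MP_42948a_nt.TF

open Finset Pool.Agent.Lib.MP_42948a_nt.OA Pool.Agent.Lib.MP_42948a_nt.TQ

private theorem H1_pick (O : Finset ℕ) (e : ℕ → ℝ) (w0 E : ℝ) (hw0 : 0 < w0) (hE : 0 ≤ E) (hO : ∀ y ∈ O, 0 < (y : ℝ))
    (hw : w0 ≤ ∑ y ∈ O, 1 / (y : ℝ)) (hs : ∑ y ∈ O, 1 / (y : ℝ) * e y ≤ 10 * E) : ∃ y ∈ O, e y ≤ 10 * E / w0 := by
  by_contra hne
  push Not at hne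
  have hnem : O.Nonempty := by
    rw [Finset.nonempty_iff_ne_empty]
    intro h
    rw [h, Finset.sum_empty] at hw
    linarith
  have h1 : ∑ y ∈ O, 1 / (y : ℝ) * (10 * E / w0) < ∑ y ∈ O, 1 / (y : ℝ) * e y := by
    refine Finset.sum_lt_sum_of_nonempty hnem fun y hy => ?_
    exact mul_lt_mul_of_pos_left (hne y hy) (by have := hO y hy; positivity)
  rw [← Finset.sum_mul] at h1
  have h2 : w0 * (10 * E / w0) ≤ (∑ y ∈ O, 1 / (y : ℝ)) * (10 * E / w0) :=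
    mul_le_mul_of_nonneg_right hw (by positivity)
  rw [mul_div_cancel₀ _ hw0.ne'] at h2
  linarith

private theorem H1_tri {d : ℕ} [NeZero d] (t f g : (ZMod d)ˣ → ℝ) :
    av (fun x => |f x - g x|) ≤ av (fun x => |t x + f x - 1|) + av (fun x => |t x + g x - 1|) := by
  rw [← av_add]
  refine av_mono fun x => ?_
  have h : f x - g x = (t x + f x - 1) - (t x + g x - 1) := by ring
  rw [h]
  exact abs_sub _ _

private theorem H1_tri2 {d : ℕ} [NeZero d] (t f g : (ZMod d)ˣ → ℝ) :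
    av (fun x => |t x + f x - 1|) ≤ av (fun x => |t x + g x - 1|) + av (fun x => |f x - g x|) := by
  rw [← av_add]
  refine av_mono fun x => ?_
  have h : t x + f x - 1 = (t x + g x - 1) + (f x - g x) := by ring
  rw [h]
  exact abs_add_le _ _

private theorem H1_union (P : Finset ℕ) (Y : ℕ → Finset ℕ) (N : ℕ) (g : ℕ → ℝ) (hg : ∀ y, 0 ≤ g y)
    (hP : ∀ y ∈ P, ∃ k, k ≤ N ∧ y ∈ Y k) : ∑ y ∈ P, g y ≤ ∑ k ∈ range (N + 1), ∑ y ∈ Y k, g y := by
  classical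
  have h1 : ∀ y ∈ P, g y ≤ ∑ k ∈ range (N + 1), if y ∈ Y k then g y else 0 := by
    intro y hy
    obtain ⟨k, hk, hyk⟩ := hP y hy
    have h2 : (if y ∈ Y k then g y else 0) ≤ ∑ k ∈ range (N + 1), if y ∈ Y k then g y else 0 := by
      refine Finset.single_le_sum (f := fun k => if y ∈ Y k then g y else 0) (fun j _ => ?_) (mem_range.mpr (by omega))
      split_ifs
      · exact hg y
      · exact le_refl 0
    rwa [if_pos hyk] at h2
  refine le_trans (Finset.sum_le_sum h1) ?_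
  rw [Finset.sum_comm]
  refine Finset.sum_le_sum fun k _ => ?_
  rw [← Finset.sum_filter]
  refine Finset.sum_le_sum_of_subset_of_nonneg ?_ fun y _ _ => hg y
  intro y hy
  exact (mem_filter.mp hy).2

private theorem H1_cover (α ε0 : ℝ) (d N p : ℕ) (hε : 0 < ε0)
    (hN2 : 165 / 1000 ≤ (N : ℝ) * (ε0 / 4) + 7 * ε0 / 8) (hd : 1 ≤ d)
    (hp : p ∈ PW d α (165 / 1000)) :
    ∃ k, k ≤ N ∧ p ∈ PW d (if k = 0 then α else (k : ℝ) * (ε0 / 4)) ((k : ℝ) * (ε0 / 4) + 7 * ε0 / 8) := by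
  have hd1 : (1 : ℝ) ≤ d := by exact_mod_cast hd
  obtain ⟨hp1, hp2, hp3, hp4⟩ := mem_PW.mp hp
  have hfl : ∀ a b : ℝ, a ≤ b → ⌊(d : ℝ) ^ a⌋₊ ≤ ⌊(d : ℝ) ^ b⌋₊ := fun a b hab =>
    Nat.floor_mono (Real.rpow_le_rpow_of_exponent_le hd1 hab)
  -- induction on the bound
  have key : ∀ m : ℕ, p ≤ ⌊(d : ℝ) ^ ((m : ℝ) * (ε0 / 4) + 7 * ε0 / 8)⌋₊ →
      ∃ k, k ≤ m ∧ p ∈ PW d (if k = 0 then α else (k : ℝ) * (ε0 / 4)) ((k : ℝ) * (ε0 / 4) + 7 * ε0 / 8) := by
    intro m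
    induction m with
    | zero =>
      intro hm
      refine ⟨0, le_refl 0, ?_⟩
      rw [if_pos rfl, mem_PW]
      exact ⟨hp1, hp2, hm, hp4⟩
    | succ m ih =>
      intro hm
      by_cases hc : p ≤ ⌊(d : ℝ) ^ ((m : ℝ) * (ε0 / 4) + 7 * ε0 / 8)⌋₊
      · obtain ⟨k, hk, hk2⟩ := ih hc
        exact ⟨k, by omega, hk2⟩
      · refine ⟨m + 1, le_refl _, ?_⟩
        rw [if_neg (Nat.succ_ne_zero m), mem_PW]
        refine ⟨hp1, ?_, hm, hp4⟩
        refine lt_of_le_of_lt (hfl _ _ ?_) (not_le.mp hc)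
        push_cast
        nlinarith
  obtain ⟨k, hk, hk2⟩ := key N (hp3.trans (hfl _ _ hN2))
  exact ⟨k, hk, hk2⟩

theorem chain_fixed {d : ℕ} [NeZero d] {β s : (ZMod d)ˣ → ℝ} (hβ : ∀ g, 0 ≤ β g) (hs : ∀ x, s x = 0 ∨ s x = 1)
    (α ε0 h c1 w0 W1 E : ℝ) (N : ℕ) (hα : 0 < α) (hα1 : α ≤ ε0 / 4) (hε1 : ε0 ≤ 1 / 1000) (hh : 0 < h) (hh1 : h ≤ ε0 / 8)
    (hc1 : 0 < c1) (hw0 : 0 < w0) (hE0 : 0 ≤ E)
    (hN1 : (N : ℝ) * (ε0 / 4) + 7 * ε0 / 8 ≤ 165 / 1000 + ε0 / 4) (hN2 : 165 / 1000 ≤ (N : ℝ) * (ε0 / 4) + 7 * ε0 / 8)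
    (hov : ∀ k : ℕ, k < N → w0 ≤ ∑ p ∈ PW d ((k + 1 : ℝ) * (ε0 / 4)) ((k : ℝ) * (ε0 / 4) + 7 * ε0 / 8), 1 / (p : ℝ))
    (hW1 : ∑ p ∈ PW d α (1 / 2), 1 / (p : ℝ) ≤ W1)
    (hcov : ∀ a : ℝ, 83 / 100 ≤ a → a ≤ 11 / 10 → ∀ x : (ZMod d)ˣ,
      c1 ≤ sm β (EW d α 1 a (a + h)) x + sm β (EW d α 2 a (a + h)) x)
    (hE1 : av (fun x => (1 - s x) * sm β (EW d α 1 (1 + ε0) (1 + 2 * ε0)) x) ≤ E)
    (hE2 : av (fun x => s x * sm β (EW d α 2 (1 + ε0) (1 + 2 * ε0)) x) ≤ E)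
    (hE3 : av (fun x => (1 - s x) * sm β (EW d α 3 (1 + ε0) (1 + 2 * ε0)) x) ≤ E) :
    ∑ y ∈ PW d α (165 / 1000), 1 / (y : ℝ) * av (fun x => |s (x * ucl d y) + s x - 1|) ≤
      (N + 1 : ℝ) * (10 / c1 + W1 * ((N + 1 : ℝ) * (4 / c1 + 20 / (c1 * w0)))) * E := by
  have hd : 1 ≤ d := Nat.one_le_iff_ne_zero.mpr (NeZero.ne d)
  have hε : 0 < ε0 := by linarith
  have hw : ∀ y : ℕ, 0 ≤ 1 / (y : ℝ) := fun y => by positivity
  set M : ℝ := 4 / c1 + 20 / (c1 * w0) with hM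
  have hM0 : 0 ≤ M := by positivity
  have hW10 : 0 ≤ W1 := le_trans (Finset.sum_nonneg fun y _ => hw y) hW1
  set a : ℕ → ℝ := fun k => 1 + ε0 - (k : ℝ) * (ε0 / 4) with hadef
  set b : ℕ → ℝ := fun k => if k = 0 then α else (k : ℝ) * (ε0 / 4) with hbdef
  set b' : ℕ → ℝ := fun k => (k : ℝ) * (ε0 / 4) + 7 * ε0 / 8 with hb'def
  have hkN : ∀ k : ℕ, k ≤ N → (k : ℝ) * (ε0 / 4) ≤ (N : ℝ) * (ε0 / 4) := by
    intro k hk
    have : (k : ℝ) ≤ N := by exact_mod_cast hk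
    exact mul_le_mul_of_nonneg_right this (by positivity)
  have hk0 : ∀ k : ℕ, 0 ≤ (k : ℝ) * (ε0 / 4) := fun k => by positivity
  have ha1 : ∀ k : ℕ, k ≤ N → 83 / 100 ≤ a k := by
    intro k hk
    have := hkN k hk
    simp only [hadef]
    linarith
  have ha2 : ∀ k : ℕ, a k ≤ 11 / 10 := by
    intro k
    have := hk0 k
    simp only [hadef]
    linarith
  have hbα : ∀ k : ℕ, α ≤ b k := by
    intro k
    simp only [hbdef]
    split_ifs with h0
    · exact le_refl α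
    · have : (1 : ℝ) ≤ k := by exact_mod_cast Nat.one_le_iff_ne_zero.mpr h0
      nlinarith
  have hb1 : ∀ k : ℕ, 1 + ε0 ≤ a k + b k := by
    intro k
    simp only [hbdef, hadef]
    split_ifs with h0
    · rw [h0]
      push_cast
      linarith
    · linarith
  have hb2 : ∀ k : ℕ, a k + h + b' k ≤ 1 + 2 * ε0 := by
    intro k
    simp only [hb'def, hadef]
    linarith
  have hes : ∀ k : ℕ, ∑ y ∈ PW d (b k) (b' k), 1 / (y : ℝ) * eI β s α (a k) h (ucl d y) ≤ 5 * E := fun k =>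
    esum hβ hs α ε0 (a k) h (b k) (b' k) (hbα k) (hb1 k) (hb2 k) E hE2 hE3
  set sk : ℕ → (ZMod d)ˣ → ℝ := fun k => ge1 (sm β (EW d α 1 (a k) (a k + h))) (c1 / 2) with hskdef
  have hlink : ∀ k : ℕ, k ≤ N → ∀ y : (ZMod d)ˣ,
      av (fun x => |s (x * y) + sk k x - 1|) ≤ 2 / c1 * eI β s α (a k) h y := fun k hk y =>
    link s hs _ _ c1 hc1 (sm_nonneg hβ _) (sm_nonneg hβ _) (hcov (a k) (ha1 k hk) (ha2 k)) y
  -- the distance to the top window
  have hD : ∀ k : ℕ, k ≤ N → av (fun x => |s x - sk k x|) ≤ 4 / c1 * E + (k : ℝ) * (20 / (c1 * w0) * E) := by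
    intro k
    induction k with
    | zero =>
      intro _
      have h1 := base s hs _ _ c1 hc1 (sm_nonneg hβ (EW d α 1 (a 0) (a 0 + h))) (sm_nonneg hβ (EW d α 2 (a 0) (a 0 + h)))
        (hcov (a 0) (ha1 0 (Nat.zero_le N)) (ha2 0))
      have ha0 : a 0 = 1 + ε0 := by
        simp only [hadef]
        push_cast
        ring
      have hsub : ∀ i : ℕ, EW d α i (a 0) (a 0 + h) ⊆ EW d α i (1 + ε0) (1 + 2 * ε0) := fun i =>
        EW_mono hd (by rw [ha0]) (by rw [ha0]; linarith)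
      have h2 : av (fun x => (1 - s x) * sm β (EW d α 1 (a 0) (a 0 + h)) x) ≤ E := by
        refine le_trans (av_mono fun x => ?_) hE1
        refine mul_le_mul_of_nonneg_left (sm_mono hβ (hsub 1) x) ?_
        rcases hs x with h0 | h0 <;> rw [h0] <;> norm_num
      have h3 : av (fun x => s x * sm β (EW d α 2 (a 0) (a 0 + h)) x) ≤ E := by
        refine le_trans (av_mono fun x => ?_) hE2
        refine mul_le_mul_of_nonneg_left (sm_mono hβ (hsub 2) x) ?_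
        rcases hs x with h0 | h0 <;> rw [h0] <;> norm_num
      refine le_trans h1 ?_
      have h4 : 2 / c1 * (av (fun x => (1 - s x) * sm β (EW d α 1 (a 0) (a 0 + h)) x) +
          av (fun x => s x * sm β (EW d α 2 (a 0) (a 0 + h)) x)) ≤ 2 / c1 * (E + E) :=
        mul_le_mul_of_nonneg_left (add_le_add h2 h3) (by positivity)
      refine le_trans h4 (le_of_eq ?_)
      push_cast
      ring
    | succ k ih =>
      intro hk
      have hk' : k ≤ N := by omega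
      have hkc : k < N := by omega
      set O : Finset ℕ := PW d ((k + 1 : ℝ) * (ε0 / 4)) ((k : ℝ) * (ε0 / 4) + 7 * ε0 / 8) with hO
      have hO1 : O ⊆ PW d (b k) (b' k) := by
        refine PW_mono hd ?_ (le_refl _)
        simp only [hbdef]
        split_ifs with h0
        · rw [h0]
          push_cast
          linarith
        · linarith
      have hO2 : O ⊆ PW d (b (k + 1)) (b' (k + 1)) := by
        refine PW_mono hd ?_ ?_
        · simp only [hbdef]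
          rw [if_neg (Nat.succ_ne_zero k)]
          push_cast
          exact le_refl _
        · simp only [hb'def]
          push_cast
          linarith
      have hsum : ∑ y ∈ O, 1 / (y : ℝ) * (eI β s α (a k) h (ucl d y) + eI β s α (a (k + 1)) h (ucl d y)) ≤ 10 * E := by
        have e1 : ∑ y ∈ O, 1 / (y : ℝ) * eI β s α (a k) h (ucl d y) ≤ 5 * E :=
          le_trans (Finset.sum_le_sum_of_subset_of_nonneg hO1 fun y _ _ => mul_nonneg (hw y) (eI_nonneg hβ hs _ _ _ _)) (hes k)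
        have e2 : ∑ y ∈ O, 1 / (y : ℝ) * eI β s α (a (k + 1)) h (ucl d y) ≤ 5 * E :=
          le_trans (Finset.sum_le_sum_of_subset_of_nonneg hO2 fun y _ _ => mul_nonneg (hw y) (eI_nonneg hβ hs _ _ _ _))
            (hes (k + 1))
        have e3 : ∑ y ∈ O, 1 / (y : ℝ) * (eI β s α (a k) h (ucl d y) + eI β s α (a (k + 1)) h (ucl d y)) =
            ∑ y ∈ O, 1 / (y : ℝ) * eI β s α (a k) h (ucl d y) +
              ∑ y ∈ O, 1 / (y : ℝ) * eI β s α (a (k + 1)) h (ucl d y) := by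
          rw [← Finset.sum_add_distrib]
          exact Finset.sum_congr rfl fun y _ => mul_add _ _ _
        rw [e3]
        linarith
      obtain ⟨y, hy, hye⟩ := H1_pick O (fun y => eI β s α (a k) h (ucl d y) + eI β s α (a (k + 1)) h (ucl d y)) w0 E hw0 hE0
        (fun y hy => by exact_mod_cast (mem_PW.mp hy).1.pos) (hov k hkc) hsum
      have e4 : av (fun x => |sk k x - sk (k + 1) x|) ≤ 20 / (c1 * w0) * E := by
        refine le_trans (H1_tri (fun x => s (x * ucl d y)) (sk k) (sk (k + 1))) ?_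
        have e5 := hlink k hk' (ucl d y)
        have e6 := hlink (k + 1) hk (ucl d y)
        have e7 : 2 / c1 * (eI β s α (a k) h (ucl d y) + eI β s α (a (k + 1)) h (ucl d y)) ≤ 2 / c1 * (10 * E / w0) :=
          mul_le_mul_of_nonneg_left hye (by positivity)
        have e8 : 2 / c1 * (10 * E / w0) = 20 / (c1 * w0) * E := by
          field_simp
          ring
        rw [e8, mul_add] at e7
        linarith
      have e9 : av (fun x => |s x - sk (k + 1) x|) ≤ av (fun x => |s x - sk k x|) + av (fun x => |sk k x - sk (k + 1) x|) := by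
        rw [← av_add]
        refine av_mono fun x => ?_
        have e10 : s x - sk (k + 1) x = (s x - sk k x) + (sk k x - sk (k + 1) x) := by ring
        rw [e10]
        exact abs_add_le _ _
      have e11 := ih hk'
      push_cast
      linarith
  have hD2 : ∀ k : ℕ, k ≤ N → av (fun x => |s x - sk k x|) ≤ (N + 1 : ℝ) * M * E := by
    intro k hk
    refine le_trans (hD k hk) ?_
    have h1 : (k : ℝ) ≤ N := by exact_mod_cast hk
    have h2 : 0 ≤ 4 / c1 * E := by positivity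
    have h3 : 0 ≤ 20 / (c1 * w0) * E := by positivity
    have h4 : 0 ≤ (N : ℝ) := by positivity
    rw [hM]
    nlinarith [mul_le_mul_of_nonneg_right h1 h3, mul_nonneg h4 h2]
  -- one window
  have hwin : ∀ k : ℕ, k ≤ N → ∑ y ∈ PW d (b k) (b' k), 1 / (y : ℝ) * av (fun x => |s (x * ucl d y) + s x - 1|) ≤
      (10 / c1 + W1 * ((N + 1 : ℝ) * M)) * E := by
    intro k hk
    have h1 : ∀ y ∈ PW d (b k) (b' k), 1 / (y : ℝ) * av (fun x => |s (x * ucl d y) + s x - 1|) ≤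
        2 / c1 * (1 / (y : ℝ) * eI β s α (a k) h (ucl d y)) + 1 / (y : ℝ) * ((N + 1 : ℝ) * M * E) := by
      intro y _
      have e1 := H1_tri2 (fun x => s (x * ucl d y)) s (sk k)
      have e2 := hlink k hk (ucl d y)
      have e3 := hD2 k hk
      have e4 : av (fun x => |s (x * ucl d y) + s x - 1|) ≤ 2 / c1 * eI β s α (a k) h (ucl d y) + (N + 1 : ℝ) * M * E := by
        linarith
      have e5 := mul_le_mul_of_nonneg_left e4 (hw y)
      linarith
    refine le_trans (Finset.sum_le_sum h1) ?_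
    rw [Finset.sum_add_distrib, ← Finset.mul_sum, ← Finset.sum_mul]
    have h2 : 2 / c1 * ∑ y ∈ PW d (b k) (b' k), 1 / (y : ℝ) * eI β s α (a k) h (ucl d y) ≤ 2 / c1 * (5 * E) :=
      mul_le_mul_of_nonneg_left (hes k) (by positivity)
    have h3 : ∑ y ∈ PW d (b k) (b' k), 1 / (y : ℝ) ≤ W1 := by
      refine le_trans (Finset.sum_le_sum_of_subset_of_nonneg (PW_mono hd (hbα k) ?_) fun y _ _ => hw y) hW1
      have := hkN k hk
      simp only [hb'def]
      linarith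
    have h4 : (∑ y ∈ PW d (b k) (b' k), 1 / (y : ℝ)) * ((N + 1 : ℝ) * M * E) ≤ W1 * ((N + 1 : ℝ) * M * E) :=
      mul_le_mul_of_nonneg_right h3 (by positivity)
    have h5 : 2 / c1 * (5 * E) = 10 / c1 * E := by ring
    rw [h5] at h2
    linarith
  have hfin := H1_union (PW d α (165 / 1000)) (fun k => PW d (b k) (b' k)) N
    (fun y => 1 / (y : ℝ) * av (fun x => |s (x * ucl d y) + s x - 1|))
    (fun y => mul_nonneg (hw y) (av_nonneg fun x => abs_nonneg _))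
    (fun y hy => H1_cover α ε0 d N y hε hN2 hd hy)
  refine le_trans hfin ?_
  refine le_trans (Finset.sum_le_sum fun k hk => hwin k (by have := mem_range.mp hk; omega)) ?_
  rw [Finset.sum_const, card_range, nsmul_eq_mul]
  push_cast
  exact le_of_eq (by ring)

end Pool.Agent.Lib.MP_42948a_nt.TF
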