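import Pool.Agent.Lib.MP_42948a_nt.TF.G2
import Pool.Agent.Lib.MP_42948a_nt.TF.M1

/-!
# From small primes to all primes, one window (job P1)

For one modulus. `θ = ε0 / 4`. `two_step`: from windows where `ψ` is `-1` mostly to a third window.
Full proofs. Write `u_i = uw`, `x_i = xw` of the windows; `|x_i| ≤ u_i`.
`step3`: `triple` gives `u1 u2 u3 + x1 x2 x3 ≤ 6 E`. Hypotheses: `u1 + x1 ≤ e`, `u2 + x2 ≤ e`, `w ≤ u1, u2`, `e ≤ w / 2`: so `x1 ≤ -u1/2 < 0`, `x2 ≤ -u2/2 < 0`,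
`x1 x2 ≥ u1 u2 / 4 ≥ w²/4 > 0` and `x1 x2 ≤ u1 u2`. Then `x1 x2 (u3 + x3) ≤ u1 u2 u3 + x1 x2 x3 ≤ 6 E` (`u3 ≥ 0`), so (if `u3 + x3 ≥ 0`, always true) `u3 + x3 ≤ 24 E / w²`.
`step2`: `pair` with `τ = 1`: `u1 u2 - x1 x2 ≤ 2 E`, `x1 ≤ -u1/2`: with `p = -x1 ∈ [u1/2, u1]`: `u1 u2 + p x2 ≤ 2 E`, `p (u2 + x2) ≤ u1 u2 + p x2 ≤ 2 E`, so
`u2 + x2 ≤ 2 E / p ≤ 4 E / w`.
-/

namespace Pool.Agent.Lib.MP_42948a_nt.TF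

open Finset Pool.Agent.Lib.MP_42948a_nt.OA Pool.Agent.Lib.MP_42948a_nt.TQ

theorem step3 {d : ℕ} (hd : 1 ≤ d) (ψ : (ZMod d)ˣ →* ℤˣ) (α ε0 a a' b b' c c' E e w : ℝ) (ha : α ≤ a) (hb : α ≤ b) (hc : α ≤ c)
    (h1 : 1 + ε0 ≤ a + b + c) (h2 : a' + b' + c' ≤ 1 + 2 * ε0) (hw : 0 < w) (hw1 : w ≤ uw d a a') (hw2 : w ≤ uw d b b')
    (he : e ≤ w / 2) (he1 : uw d a a' + xw d ψ a a' ≤ e) (he2 : uw d b b' + xw d ψ b b' ≤ e)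
    (hE : ∑ n ∈ EW d α 3 (1 + ε0) (1 + 2 * ε0), 1 / (n : ℝ) * (1 + rv ψ (ucl d n)) ≤ E) :
    uw d c c' + xw d ψ c c' ≤ 24 * E / w ^ 2 := by
  have ht := triple hd ψ α ε0 a a' b b' c c' E ha hb hc h1 h2 hE
  have k1 := abs_le.1 (abs_xw_le ψ a a')
  have k2 := abs_le.1 (abs_xw_le ψ b b')
  have k3 := abs_le.1 (abs_xw_le ψ c c')
  obtain ⟨u1, hu1⟩ : ∃ u, u = uw d a a' := ⟨_, rfl⟩
  obtain ⟨u2, hu2⟩ : ∃ u, u = uw d b b' := ⟨_, rfl⟩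
  obtain ⟨u3, hu3⟩ : ∃ u, u = uw d c c' := ⟨_, rfl⟩
  obtain ⟨x1, hx1⟩ : ∃ u, u = xw d ψ a a' := ⟨_, rfl⟩
  obtain ⟨x2, hx2⟩ : ∃ u, u = xw d ψ b b' := ⟨_, rfl⟩
  obtain ⟨x3, hx3⟩ : ∃ u, u = xw d ψ c c' := ⟨_, rfl⟩
  rw [← hu1, ← hu2, ← hu3, ← hx1, ← hx2, ← hx3] at ht
  rw [← hu1, ← hx1] at k1 he1
  rw [← hu2, ← hx2] at k2 he2
  rw [← hu3, ← hx3] at k3
  rw [← hu1] at hw1
  rw [← hu2] at hw2
  rw [← hu3, ← hx3]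
  clear hE hu1 hu2 hu3 hx1 hx2 hx3
  have e1 : w / 2 ≤ -x1 := by linarith
  have e2 : w / 2 ≤ -x2 := by linarith
  have hw0 : 0 ≤ w / 2 := by linarith
  have hP1 : w / 2 * (w / 2) ≤ -x1 * -x2 := mul_le_mul e1 e2 hw0 (hw0.trans e1)
  have hP2 : -x1 * -x2 ≤ u1 * u2 :=
    mul_le_mul (by linarith) (by linarith) (hw0.trans e2) (by linarith)
  have h3 : 0 ≤ u3 + x3 := by linarith
  have hu30 : 0 ≤ u3 := by linarith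
  have h4 : w / 2 * (w / 2) * (u3 + x3) ≤ -x1 * -x2 * (u3 + x3) :=
    mul_le_mul_of_nonneg_right hP1 h3
  have h5 : -x1 * -x2 * u3 ≤ u1 * u2 * u3 := mul_le_mul_of_nonneg_right hP2 hu30
  have hw2' : 0 < w ^ 2 := pow_pos hw 2
  rw [le_div_iff₀ hw2']
  have h6 : (u3 + x3) * w ^ 2 = 4 * (w / 2 * (w / 2) * (u3 + x3)) := by ring
  have h7 : -x1 * -x2 * (u3 + x3) = -x1 * -x2 * u3 + x1 * x2 * x3 := by ring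
  linarith

theorem step2 {d : ℕ} (hd : 1 ≤ d) (ψ : (ZMod d)ˣ →* ℤˣ) (α ε0 a a' b b' E e w : ℝ) (ha : α ≤ a) (hb : α ≤ b)
    (h1 : 1 + ε0 ≤ a + b) (h2 : a' + b' ≤ 1 + 2 * ε0) (hw : 0 < w) (hw1 : w ≤ uw d a a')
    (he : e ≤ w / 2) (he1 : uw d a a' + xw d ψ a a' ≤ e)
    (hE : ∑ n ∈ EW d α 2 (1 + ε0) (1 + 2 * ε0), 1 / (n : ℝ) * (1 - rv ψ (ucl d n)) ≤ E) :
    uw d b b' + xw d ψ b b' ≤ 4 * E / w := by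
  have ht := pair hd ψ α ε0 a a' b b' 1 E ha hb h1 h2 (Or.inl rfl)
    (by
      refine le_trans (le_of_eq (sum_congr rfl fun n _ => ?_)) hE
      rw [one_mul])
  have k1 := abs_le.1 (abs_xw_le ψ a a')
  have k2 := abs_le.1 (abs_xw_le ψ b b')
  obtain ⟨u1, hu1⟩ : ∃ u, u = uw d a a' := ⟨_, rfl⟩
  obtain ⟨u2, hu2⟩ : ∃ u, u = uw d b b' := ⟨_, rfl⟩
  obtain ⟨x1, hx1⟩ : ∃ u, u = xw d ψ a a' := ⟨_, rfl⟩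
  obtain ⟨x2, hx2⟩ : ∃ u, u = xw d ψ b b' := ⟨_, rfl⟩
  rw [← hu1, ← hu2, ← hx1, ← hx2] at ht
  rw [← hu1, ← hx1] at k1 he1
  rw [← hu2, ← hx2] at k2
  rw [← hu1] at hw1
  rw [← hu2, ← hx2]
  clear hE hu1 hu2 hx1 hx2
  have e1 : w / 2 ≤ -x1 := by linarith
  have h3 : 0 ≤ u2 + x2 := by linarith
  have hu20 : 0 ≤ u2 := by linarith
  have h4 : w / 2 * (u2 + x2) ≤ -x1 * (u2 + x2) := mul_le_mul_of_nonneg_right e1 h3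
  have h5 : -x1 * u2 ≤ u1 * u2 := mul_le_mul_of_nonneg_right (by linarith) hu20
  rw [le_div_iff₀ hw]
  have h6 : (u2 + x2) * w = 2 * (w / 2 * (u2 + x2)) := by ring
  have h7 : -x1 * (u2 + x2) = -x1 * u2 - x1 * x2 := by ring
  linarith

end Pool.Agent.Lib.MP_42948a_nt.TF
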