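import Pool.Agent.Lib.MP_42948a_nt.TF.Defs
import Pool.Agent.Lib.MP_42948a_nt.TQ.B2

/-!
# Fourier coefficients of densities and convolutions (job T1)

Full proofs. `φ = Fintype.card G`.
(1) `SF_den`: `SF (den A) χ = ∑ c, φ * (∑ n ∈ A, if ucl d n = c then 1/n else 0) * conj (ev χ c) = φ ∑ n ∈ A, 1/n * conj (ev χ (ucl d n))`.
(2) `SF_sm`: `SF (sm β A) χ = ∑ n ∈ A, 1/n ∑ x, β (x * (ucl n)⁻¹) conj (ev χ x)`; substitute `x = y * ucl n`:
`conj (ev χ (y u)) = conj (ev χ y) conj (ev χ u)`. So it is `∑ n ∈ A, 1/n * conj (ev χ (ucl n)) * SF β χ`.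
(3) `SF_cv`: `φ * SF (cv f g) χ = ∑ c ∑ x f(x) g(c x⁻¹) conj (ev χ c)`; substitute `c = x y`: `= SF f χ * SF g χ`.
(4) `cv_exp`: by `TQ.inversion` for `cv f g`: `φ * cv f g c = ∑ χ, SF (cv f g) χ * ev χ c`, so `φ ^ 2 * cv f g c = ∑ χ, SF f χ * SF g χ * ev χ c`.
(5) `cv_den_zero`: `cv (den A) (den B) c = (1/φ) ∑ x, den A x * den B (c x⁻¹)`; if it is nonzero there are `m ∈ A`, `n ∈ B` with
`ucl m * ucl n = c`, i.e. (`ucl_val`, `m`, `n` coprime to `d`) `((m * n : ℕ) : ZMod d) = c`.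
-/

namespace Pool.Agent.Lib.MP_42948a_nt.TF

open Finset Pool.Agent.Lib.MP_42948a_nt.TQ

section
variable {d : ℕ} [NeZero d]

theorem SF_den (A : Finset ℕ) (χ : DirichletCharacter ℂ d) :
    SF (den A) χ = (Fintype.card (ZMod d)ˣ : ℂ) * ∑ n ∈ A, ((1 / (n : ℝ) : ℝ) : ℂ) * (starRingEnd ℂ) (ev χ (ucl d n)) := by
  have h : ∀ c : (ZMod d)ˣ, ((den A c : ℝ) : ℂ) * (starRingEnd ℂ) (ev χ c) = (Fintype.card (ZMod d)ˣ : ℂ) *
      ∑ n ∈ A, if ucl d n = c then ((1 / (n : ℝ) : ℝ) : ℂ) * (starRingEnd ℂ) (ev χ (ucl d n)) else 0 := by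
    intro c
    unfold den
    rw [Complex.ofReal_mul, Complex.ofReal_natCast, Complex.ofReal_sum, mul_assoc, Finset.sum_mul]
    refine congrArg _ (sum_congr rfl fun n _ => ?_)
    by_cases h : ucl d n = c
    · rw [if_pos h, if_pos h, h]
    · rw [if_neg h, if_neg h, Complex.ofReal_zero, zero_mul]
  unfold SF
  rw [sum_congr rfl fun c _ => h c, ← mul_sum, sum_comm]
  refine congrArg _ (sum_congr rfl fun n _ => ?_)
  rw [sum_ite_eq, if_pos (mem_univ _)]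

theorem SF_sm (β : (ZMod d)ˣ → ℝ) (A : Finset ℕ) (χ : DirichletCharacter ℂ d) :
    SF (sm β A) χ = SF β χ * ∑ n ∈ A, ((1 / (n : ℝ) : ℝ) : ℂ) * (starRingEnd ℂ) (ev χ (ucl d n)) := by
  have h : ∀ c : (ZMod d)ˣ, ((sm β A c : ℝ) : ℂ) * (starRingEnd ℂ) (ev χ c) =
      ∑ n ∈ A, ((1 / (n : ℝ) : ℝ) : ℂ) * ((β (c * (ucl d n)⁻¹) : ℝ) : ℂ) * (starRingEnd ℂ) (ev χ c) := by
    intro c
    unfold sm
    rw [Complex.ofReal_sum, Finset.sum_mul]
    refine sum_congr rfl fun n _ => ?_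
    rw [Complex.ofReal_mul]
  unfold SF
  rw [sum_congr rfl fun c _ => h c, sum_comm, mul_sum]
  refine sum_congr rfl fun n _ => ?_
  rw [← Equiv.sum_comp (Equiv.mulRight (ucl d n)), Finset.sum_mul]
  refine sum_congr rfl fun c _ => ?_
  rw [Equiv.coe_mulRight, mul_inv_cancel_right, ev_mul, map_mul]
  ring

theorem SF_cv (f g : (ZMod d)ˣ → ℝ) (χ : DirichletCharacter ℂ d) :
    (Fintype.card (ZMod d)ˣ : ℂ) * SF (cv f g) χ = SF f χ * SF g χ := by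
  have hφ : (Fintype.card (ZMod d)ˣ : ℂ) ≠ 0 := Nat.cast_ne_zero.2 Fintype.card_ne_zero
  have h : ∀ c : (ZMod d)ˣ, (Fintype.card (ZMod d)ˣ : ℂ) * (((cv f g c : ℝ) : ℂ) * (starRingEnd ℂ) (ev χ c)) =
      ∑ x : (ZMod d)ˣ, ((f x : ℝ) : ℂ) * (starRingEnd ℂ) (ev χ x) *
        (((g (c * x⁻¹) : ℝ) : ℂ) * (starRingEnd ℂ) (ev χ (c * x⁻¹))) := by
    intro c
    unfold cv av
    rw [Complex.ofReal_div, Complex.ofReal_natCast, Complex.ofReal_sum, ← mul_assoc, mul_div_cancel₀ _ hφ, Finset.sum_mul]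
    refine sum_congr rfl fun x _ => ?_
    have h1 : ev χ c = ev χ x * ev χ (c * x⁻¹) := by
      rw [← ev_mul, mul_comm x, inv_mul_cancel_right]
    rw [Complex.ofReal_mul, h1, map_mul]
    ring
  unfold SF
  rw [mul_sum, sum_congr rfl fun c _ => h c, sum_comm, sum_mul_sum]
  refine sum_congr rfl fun x _ => ?_
  rw [← Equiv.sum_comp (Equiv.mulRight x)]
  refine sum_congr rfl fun y _ => ?_
  rw [Equiv.coe_mulRight, mul_inv_cancel_right]

theorem cv_exp (f g : (ZMod d)ˣ → ℝ) (c : (ZMod d)ˣ) :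
    (Fintype.card (ZMod d)ˣ : ℂ) ^ 2 * ((cv f g c : ℝ) : ℂ) = ∑ χ : DirichletCharacter ℂ d, SF f χ * SF g χ * ev χ c := by
  have h1 := inversion (cv f g) c
  have h2 : (Fintype.card (ZMod d)ˣ : ℂ) ^ 2 * ((cv f g c : ℝ) : ℂ) =
      (Fintype.card (ZMod d)ˣ : ℂ) * ∑ χ : DirichletCharacter ℂ d, SF (cv f g) χ * ev χ c := by
    rw [h1]
    ring
  rw [h2, mul_sum]
  refine sum_congr rfl fun χ _ => ?_
  rw [← mul_assoc, SF_cv]

theorem cv_den_zero (A B : Finset ℕ) (hA : ∀ n ∈ A, n.Coprime d) (hB : ∀ n ∈ B, n.Coprime d) (c : (ZMod d)ˣ)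
    (h : ∀ m ∈ A, ∀ n ∈ B, ((m * n : ℕ) : ZMod d) ≠ (c : ZMod d)) : cv (den A) (den B) c = 0 := by
  unfold cv av
  rw [sum_eq_zero, zero_div]
  intro x _
  by_contra hne
  have hx := left_ne_zero_of_mul hne
  have hy := right_ne_zero_of_mul hne
  unfold den at hx hy
  obtain ⟨m, hm, hm'⟩ := exists_ne_zero_of_sum_ne_zero (right_ne_zero_of_mul hx)
  obtain ⟨n, hn, hn'⟩ := exists_ne_zero_of_sum_ne_zero (right_ne_zero_of_mul hy)
  have h1 : ucl d m = x := by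
    by_contra h1
    exact hm' (if_neg h1)
  have h2 : ucl d n = c * x⁻¹ := by
    by_contra h2
    exact hn' (if_neg h2)
  refine h m hm n hn ?_
  have h3 : ucl d (m * n) = c := by
    rw [ucl_mul (hA m hm) (hB n hn), h1, h2, mul_comm x, inv_mul_cancel_right]
  rw [← h3, ucl_val (Nat.Coprime.mul_left (hA m hm) (hB n hn))]

end

end Pool.Agent.Lib.MP_42948a_nt.TF
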