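import Pool.Agent.Lib.MP_42948a_nt.TF.T1

/-!
# Transference: a blocked class has small convolutions of the smoothed densities (job T2)

Full proof. Write `DA χ = ∑ n ∈ A, 1/n * conj (ev χ (ucl n))`, `DB χ` similarly, `φ = Fintype.card G`.
`SF (den A) χ = φ DA χ`, `SF (sm β A) χ = φ b(χ) DA χ` (`SF_den`, `SF_sm`, `hK.coef`). For `p ∈ T` put `c_p = c * (ucl d p)⁻¹`.
`cv_den_zero` at `c_p`: if `((m n : ℕ) : ZMod d) = c_p` then multiplying by `p` (`ucl_val`) gives `((p m n : ℕ) : ZMod d) = c`, excluded by `hc`; so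
`0 = φ² cv (den A) (den B) c_p = φ² ∑ χ, DA χ DB χ ev χ c_p`, and `φ² cv (sm β A) (sm β B) c_p = φ² ∑ χ, b(χ)² DA χ DB χ ev χ c_p` (`cv_exp`). Subtract:
`cv (sm β A) (sm β B) c_p = - ∑ χ, (1 - b(χ)²) DA χ DB χ ev χ c * conj (ev χ (ucl p))`. Multiply by `1/p` and sum over `p ∈ T`:
`∑ p ∈ T, 1/p * conj (ev χ (ucl p)) = conj (Wt T * Pa T χ)` (definition of `Pa`, `ev χ (ucl p) = χ p` for `p` coprime to `d`), norm `Wt T ‖Pa T χ‖`.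
So the left side is `≤ Wt T * ∑ χ, (1 - b(χ)²) ‖Pa T χ‖ ‖DA χ‖ ‖DB χ‖`, and `(1 - b²) ‖Pa‖ ≤ 2 η + τ` for every `χ`:
for `χ ∈ X`: `1 - b² ≤ 2 (1 - b) ≤ 2 η` (`0 ≤ b ≤ 1`, `hK.big`), `‖Pa‖ ≤ 1` (prove it: triangle inequality, `‖χ p‖ ≤ 1`, `Wt T > 0`);
for `χ ∉ X`: `1 - b² ≤ 1`, `‖Pa‖ ≤ τ`. Finally `∑ χ ‖DA‖ ‖DB‖ ≤ √(∑ ‖DA‖²) √(∑ ‖DB‖²)` (`Finset.sum_mul_le_sqrt_mul_sqrt` or
`inner_mul_le_norm_mul_norm`/`sum_mul_sq_le_sq_mul_sq`) and by `TQ.parseval_SF`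
`∑ χ ‖DA χ‖² = φ⁻² ∑ χ ‖SF (den A) χ‖² = φ⁻¹ ∑ c, (den A c)² ≤ C²` (`0 ≤ den A c ≤ C`). Total `≤ Wt T (2 η + τ) C²`.
-/

namespace Pool.Agent.Lib.MP_42948a_nt.TF

open Finset Pool.Agent.Lib.MP_42948a_nt.TQ Pool.Agent.Lib.MP_42948a_nt.PS

/-- the Fourier coefficient of `A` -/
private noncomputable def T2_D {d : ℕ} (A : Finset ℕ) (χ : DirichletCharacter ℂ d) : ℂ :=
  ∑ n ∈ A, ((1 / (n : ℝ) : ℝ) : ℂ) * (starRingEnd ℂ) (ev χ (ucl d n))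

private theorem T2_phi (d : ℕ) [NeZero d] : (0 : ℝ) < (Fintype.card (ZMod d)ˣ : ℝ) := by
  exact_mod_cast Fintype.card_pos

private theorem T2_phiC (d : ℕ) [NeZero d] : (Fintype.card (ZMod d)ˣ : ℂ) ≠ 0 := by
  exact_mod_cast (Fintype.card_pos (α := (ZMod d)ˣ)).ne'

private theorem T2_sm {d : ℕ} [NeZero d] {X : Finset (DirichletCharacter ℂ d)} {η Q : ℝ} {β : (ZMod d)ˣ → ℝ}
    {b : DirichletCharacter ℂ d → ℝ} (hK : Ker X η Q β b) (A B : Finset ℕ) (c : (ZMod d)ˣ) :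
    ((cv (sm β A) (sm β B) c : ℝ) : ℂ) =
      ∑ χ : DirichletCharacter ℂ d, (((b χ) ^ 2 : ℝ) : ℂ) * (T2_D A χ * T2_D B χ * ev χ c) := by
  have h1 := cv_exp (sm β A) (sm β B) c
  have h2 : ∀ χ : DirichletCharacter ℂ d, SF (sm β A) χ * SF (sm β B) χ * ev χ c =
      (Fintype.card (ZMod d)ˣ : ℂ) ^ 2 * ((((b χ) ^ 2 : ℝ) : ℂ) * (T2_D A χ * T2_D B χ * ev χ c)) := by
    intro χ
    rw [SF_sm, SF_sm, hK.coef]
    unfold T2_D
    push_cast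
    ring
  rw [Finset.sum_congr rfl fun χ _ => h2 χ, ← Finset.mul_sum] at h1
  exact mul_left_cancel₀ (pow_ne_zero 2 (T2_phiC d)) h1

private theorem T2_den {d : ℕ} [NeZero d] (A B : Finset ℕ) (c : (ZMod d)ˣ) :
    ((cv (den A) (den B) c : ℝ) : ℂ) =
      ∑ χ : DirichletCharacter ℂ d, T2_D A χ * T2_D B χ * ev χ c := by
  have h1 := cv_exp (den A) (den B) c
  have h2 : ∀ χ : DirichletCharacter ℂ d, SF (den A) χ * SF (den B) χ * ev χ c =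
      (Fintype.card (ZMod d)ˣ : ℂ) ^ 2 * (T2_D A χ * T2_D B χ * ev χ c) := by
    intro χ
    rw [SF_den, SF_den]
    unfold T2_D
    ring
  rw [Finset.sum_congr rfl fun χ _ => h2 χ, ← Finset.mul_sum] at h1
  exact mul_left_cancel₀ (pow_ne_zero 2 (T2_phiC d)) h1

private theorem T2_par {d : ℕ} [NeZero d] (A : Finset ℕ) (C : ℝ) (hC : ∀ x : (ZMod d)ˣ, den A x ≤ C) :
    ∑ χ : DirichletCharacter ℂ d, ‖T2_D A χ‖ ^ 2 ≤ C ^ 2 := by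
  have hφ := T2_phi d
  have h0 : ∀ x : (ZMod d)ˣ, 0 ≤ den A x := by
    intro x
    unfold den
    refine mul_nonneg hφ.le (Finset.sum_nonneg fun n _ => ?_)
    by_cases h : ucl d n = x
    · rw [if_pos h]
      positivity
    · rw [if_neg h]
  have h1 := parseval_SF (den A : (ZMod d)ˣ → ℝ)
  have h2 : ∀ χ : DirichletCharacter ℂ d, ‖SF (den A) χ‖ ^ 2 =
      (Fintype.card (ZMod d)ˣ : ℝ) ^ 2 * ‖T2_D A χ‖ ^ 2 := by
    intro χ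
    have h3 : SF (den A) χ = (Fintype.card (ZMod d)ˣ : ℂ) * T2_D A χ := SF_den A χ
    rw [h3, norm_mul, mul_pow, Complex.norm_natCast]
  rw [Finset.sum_congr rfl fun χ _ => h2 χ, ← Finset.mul_sum] at h1
  have h4 : ∑ c : (ZMod d)ˣ, den A c ^ 2 ≤ (Fintype.card (ZMod d)ˣ : ℝ) * C ^ 2 := by
    calc ∑ c : (ZMod d)ˣ, den A c ^ 2 ≤ ∑ _c : (ZMod d)ˣ, C ^ 2 :=
          Finset.sum_le_sum fun c _ => pow_le_pow_left₀ (h0 c) (hC c) 2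
      _ = (Fintype.card (ZMod d)ˣ : ℝ) * C ^ 2 := by
          rw [Finset.sum_const, Finset.card_univ, nsmul_eq_mul]
  have h5 : (Fintype.card (ZMod d)ˣ : ℝ) ^ 2 * ∑ χ : DirichletCharacter ℂ d, ‖T2_D A χ‖ ^ 2 ≤
      (Fintype.card (ZMod d)ˣ : ℝ) ^ 2 * C ^ 2 := by
    rw [h1]
    calc (Fintype.card (ZMod d)ˣ : ℝ) * ∑ c : (ZMod d)ˣ, den A c ^ 2 ≤
          (Fintype.card (ZMod d)ˣ : ℝ) * ((Fintype.card (ZMod d)ˣ : ℝ) * C ^ 2) :=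
          mul_le_mul_of_nonneg_left h4 hφ.le
      _ = (Fintype.card (ZMod d)ˣ : ℝ) ^ 2 * C ^ 2 := by ring
  exact le_of_mul_le_mul_left h5 (by positivity)

private theorem T2_Pa {d : ℕ} (T : Finset ℕ) (hT : ∀ p ∈ T, p.Coprime d) (hTW : 0 < Wt T)
    (χ : DirichletCharacter ℂ d) :
    ∑ p ∈ T, ((1 / (p : ℝ) : ℝ) : ℂ) * (starRingEnd ℂ) (ev χ (ucl d p)) =
      (starRingEnd ℂ) (((Wt T : ℝ) : ℂ) * Pa T χ) := by
  have h0 : ((Wt T : ℝ) : ℂ) ≠ 0 := by exact_mod_cast hTW.ne'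
  unfold Pa
  rw [mul_div_cancel₀ _ h0, map_sum]
  refine Finset.sum_congr rfl fun p hp => ?_
  rw [map_mul, Complex.conj_ofReal]
  unfold ev
  rw [ucl_val (hT p hp)]

private theorem T2_Pa_le {d : ℕ} (T : Finset ℕ) (hT : ∀ p ∈ T, p.Coprime d) (hTW : 0 < Wt T)
    (χ : DirichletCharacter ℂ d) : ‖Pa T χ‖ ≤ 1 := by
  unfold Pa
  rw [norm_div, Complex.norm_real, Real.norm_eq_abs, abs_of_pos hTW, div_le_one hTW]
  refine (norm_sum_le _ _).trans ?_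
  unfold Wt
  refine Finset.sum_le_sum fun p hp => ?_
  have h1 : ‖χ (p : ZMod d)‖ = 1 := by
    have h2 := norm_ev χ (ucl d p)
    unfold ev at h2
    rw [ucl_val (hT p hp)] at h2
    exact h2
  rw [norm_mul, h1, mul_one, Complex.norm_real, Real.norm_eq_abs, abs_of_nonneg (by positivity)]

theorem transfer {d : ℕ} [NeZero d] {X : Finset (DirichletCharacter ℂ d)} {η Q : ℝ} {β : (ZMod d)ˣ → ℝ}
    {b : DirichletCharacter ℂ d → ℝ} (hK : Ker X η Q β b) (hη : 0 ≤ η) (τ C : ℝ) (hτ : 0 ≤ τ) (T A B : Finset ℕ)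
    (hT : ∀ p ∈ T, p.Coprime d) (hA : ∀ n ∈ A, n.Coprime d) (hB : ∀ n ∈ B, n.Coprime d) (hTW : 0 < Wt T)
    (hX : ∀ χ, χ ∉ X → ‖Pa T χ‖ ≤ τ) (hCA : ∀ x : (ZMod d)ˣ, den A x ≤ C) (hCB : ∀ x : (ZMod d)ˣ, den B x ≤ C)
    (c : (ZMod d)ˣ) (hc : ∀ p ∈ T, ∀ m ∈ A, ∀ n ∈ B, ((p * (m * n) : ℕ) : ZMod d) ≠ (c : ZMod d)) :
    ∑ p ∈ T, 1 / (p : ℝ) * cv (sm β A) (sm β B) (c * (ucl d p)⁻¹) ≤ Wt T * ((2 * η + τ) * C ^ 2) := by
  -- the convolution of the densities vanishes at `c / p`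
  have hz : ∀ p ∈ T, ∑ χ : DirichletCharacter ℂ d, T2_D A χ * T2_D B χ * ev χ (c * (ucl d p)⁻¹) = 0 := by
    intro p hp
    rw [← T2_den, cv_den_zero A B hA hB, Complex.ofReal_zero]
    intro m hm n hn h
    apply hc p hp m hm n hn
    rw [Nat.cast_mul, h, ← ucl_val (hT p hp), ← Units.val_mul, mul_comm c, mul_inv_cancel_left]
  -- the smoothed convolution
  have hs : ∀ p ∈ T, ((cv (sm β A) (sm β B) (c * (ucl d p)⁻¹) : ℝ) : ℂ) =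
      -∑ χ : DirichletCharacter ℂ d, ((1 - (b χ) ^ 2 : ℝ) : ℂ) * (T2_D A χ * T2_D B χ * ev χ c) *
        (starRingEnd ℂ) (ev χ (ucl d p)) := by
    intro p hp
    have h1 := hz p hp
    rw [T2_sm hK, ← sub_eq_zero, sub_neg_eq_add, ← Finset.sum_add_distrib, ← h1]
    refine Finset.sum_congr rfl fun χ _ => ?_
    rw [ev_mul, conj_ev]
    push_cast
    ring
  -- the sum over `T`
  have hsum : ((∑ p ∈ T, 1 / (p : ℝ) * cv (sm β A) (sm β B) (c * (ucl d p)⁻¹) : ℝ) : ℂ) =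
      -∑ χ : DirichletCharacter ℂ d, ((1 - (b χ) ^ 2 : ℝ) : ℂ) * (T2_D A χ * T2_D B χ * ev χ c) *
        (starRingEnd ℂ) (((Wt T : ℝ) : ℂ) * Pa T χ) := by
    rw [Complex.ofReal_sum]
    have h1 : ∀ p ∈ T, ((1 / (p : ℝ) * cv (sm β A) (sm β B) (c * (ucl d p)⁻¹) : ℝ) : ℂ) =
        -∑ χ : DirichletCharacter ℂ d, ((1 - (b χ) ^ 2 : ℝ) : ℂ) * (T2_D A χ * T2_D B χ * ev χ c) *
          (((1 / (p : ℝ) : ℝ) : ℂ) * (starRingEnd ℂ) (ev χ (ucl d p))) := by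
      intro p hp
      rw [Complex.ofReal_mul, hs p hp, mul_neg, Finset.mul_sum]
      refine congrArg Neg.neg (Finset.sum_congr rfl fun χ _ => ?_)
      ring
    rw [Finset.sum_congr rfl h1, Finset.sum_neg_distrib, Finset.sum_comm]
    refine congrArg Neg.neg (Finset.sum_congr rfl fun χ _ => ?_)
    rw [← Finset.mul_sum, T2_Pa T hT hTW χ]
  -- the weights
  have hw : ∀ χ : DirichletCharacter ℂ d, (1 - (b χ) ^ 2) * ‖Pa T χ‖ ≤ 2 * η + τ := by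
    intro χ
    have hb0 := hK.b_nonneg χ
    have hb1 := hK.b_le χ
    have hP := T2_Pa_le T hT hTW χ
    have hP0 := norm_nonneg (Pa T χ)
    by_cases h : χ ∈ X
    · have h1 := hK.big χ h
      have h2 : 1 - (b χ) ^ 2 ≤ 2 * η := by nlinarith
      have h3 : 0 ≤ 1 - (b χ) ^ 2 := by nlinarith
      calc (1 - (b χ) ^ 2) * ‖Pa T χ‖ ≤ (1 - (b χ) ^ 2) * 1 := mul_le_mul_of_nonneg_left hP h3
        _ ≤ 2 * η + τ := by linarith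
    · have h1 := hX χ h
      have h2 : 1 - (b χ) ^ 2 ≤ 1 := by nlinarith
      calc (1 - (b χ) ^ 2) * ‖Pa T χ‖ ≤ 1 * ‖Pa T χ‖ := mul_le_mul_of_nonneg_right h2 hP0
        _ ≤ 2 * η + τ := by linarith
  have hb2 : ∀ χ : DirichletCharacter ℂ d, 0 ≤ 1 - (b χ) ^ 2 := by
    intro χ
    have hb0 := hK.b_nonneg χ
    have hb1 := hK.b_le χ
    nlinarith
  -- the bound
  have hmain : ∑ p ∈ T, 1 / (p : ℝ) * cv (sm β A) (sm β B) (c * (ucl d p)⁻¹) ≤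
      ∑ χ : DirichletCharacter ℂ d, Wt T * (2 * η + τ) * (‖T2_D A χ‖ * ‖T2_D B χ‖) := by
    refine (le_abs_self _).trans ?_
    rw [← Real.norm_eq_abs, ← Complex.norm_real, hsum, norm_neg]
    refine (norm_sum_le _ _).trans (Finset.sum_le_sum fun χ _ => ?_)
    rw [norm_mul, norm_mul, norm_mul, norm_mul, norm_ev, mul_one, RCLike.norm_conj, norm_mul,
      Complex.norm_real, Complex.norm_real, Real.norm_eq_abs, Real.norm_eq_abs,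
      abs_of_nonneg (hb2 χ), abs_of_pos hTW]
    have h1 : 0 ≤ ‖T2_D A χ‖ * ‖T2_D B χ‖ := mul_nonneg (norm_nonneg _) (norm_nonneg _)
    calc (1 - (b χ) ^ 2) * (‖T2_D A χ‖ * ‖T2_D B χ‖) * (Wt T * ‖Pa T χ‖) =
          Wt T * ((1 - (b χ) ^ 2) * ‖Pa T χ‖) * (‖T2_D A χ‖ * ‖T2_D B χ‖) := by ring
      _ ≤ Wt T * (2 * η + τ) * (‖T2_D A χ‖ * ‖T2_D B χ‖) :=
          mul_le_mul_of_nonneg_right (mul_le_mul_of_nonneg_left (hw χ) hTW.le) h1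
  refine hmain.trans ?_
  rw [← Finset.mul_sum]
  have hAB : ∑ χ : DirichletCharacter ℂ d, ‖T2_D A χ‖ * ‖T2_D B χ‖ ≤ C ^ 2 := by
    calc ∑ χ : DirichletCharacter ℂ d, ‖T2_D A χ‖ * ‖T2_D B χ‖ ≤
          ∑ χ : DirichletCharacter ℂ d, (‖T2_D A χ‖ ^ 2 / 2 + ‖T2_D B χ‖ ^ 2 / 2) := by
          refine Finset.sum_le_sum fun χ _ => ?_
          nlinarith [sq_nonneg (‖T2_D A χ‖ - ‖T2_D B χ‖)]
      _ = (∑ χ : DirichletCharacter ℂ d, ‖T2_D A χ‖ ^ 2) / 2 +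
          (∑ χ : DirichletCharacter ℂ d, ‖T2_D B χ‖ ^ 2) / 2 := by
          rw [Finset.sum_add_distrib, Finset.sum_div, Finset.sum_div]
      _ ≤ C ^ 2 := by
          have h1 := T2_par A C hCA
          have h2 := T2_par B C hCB
          linarith
  calc Wt T * (2 * η + τ) * ∑ χ : DirichletCharacter ℂ d, ‖T2_D A χ‖ * ‖T2_D B χ‖ ≤
        Wt T * (2 * η + τ) * C ^ 2 :=
        mul_le_mul_of_nonneg_left hAB (mul_nonneg hTW.le (by linarith))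
    _ = Wt T * ((2 * η + τ) * C ^ 2) := by ring

end Pool.Agent.Lib.MP_42948a_nt.TF
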