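import Pool.Agent.Lib.MP_42948a_nt.TF.Defs
import Pool.Agent.Lib.MP_42948a_nt.TQ.A4
import Pool.Agent.Lib.MP_42948a_nt.TQ.A3

/-!
# Rough numbers in a residue class: one dyadic block (job U1)

Full proof. `A = (Ioc N (2 N)).filter (n ≡ x)`. For `T ⊆ PP z`, `P = ∏ p ∈ T, p`, count `n ∈ Ioc N (2N)` with `P ∣ n` and `(n : ZMod d) = x` (`x` a unit): if some `p ∈ T`
divides `d`, there is none (`p ∣ n`, `p ∣ d` contradicts that `n` is coprime to `d`); otherwise `P` is coprime to `d` (`T` a set of primes `∤ d`) and the condition is one residue class modulo `P d`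
(Chinese remainder, `Nat.chineseRemainder`, or: `n = P k`, `k ≡ x P⁻¹ mod d`, `k ∈ Ioc (N/P) (2N/P)`), so the count is `N/(P d) + O(1)`: in absolute value the error is `≤ 1`...
use `≤ 2` (natural divisions). So with `X = N/d`, `g = gd d` (`TQ.gd_prod`): `|count - X ∏ p ∈ T, g p| ≤ 2`.
The library has `TQ.sieve2` (file `TQ.A3`): hypotheses `w = 1`, `hR` as above with `R T = 2` gives
`|#{n ∈ A rough} - X VV d z| ≤ τ X VV d z + ∑ T ∈ TT z K, R T ≤ τ X VV + 2 z ^ K` (see its exact statement; `TQ.card_TT`, `TQ.adm_gd`).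
(`n` with no prime `≤ z` dividing it, `n ≥ 1`, is exactly `Rough z n`.)
-/

namespace Pool.Agent.Lib.MP_42948a_nt.TF

open Finset Pool.Agent.Lib.MP_42948a_nt.OA Pool.Agent.Lib.MP_42948a_nt.TQ

private theorem U1_count (N r v : ℕ) (hr : 0 < r) :
    |(((Ioc N (2 * N)).filter (fun n : ℕ => n ≡ v [MOD r])).card : ℝ) - (N : ℝ) / r| ≤ 1 := by
  have h := Nat.Ioc_filter_modEq_card N (2 * N) hr v
  set c : ℕ := ((Ioc N (2 * N)).filter (fun n : ℕ => n ≡ v [MOD r])).card with hc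
  have hr0 : (0 : ℚ) < r := by exact_mod_cast hr
  have hBA : (((2 * N : ℕ) : ℚ) - v) / r - ((N : ℚ) - v) / r = (N : ℚ) / r := by
    push_cast
    field_simp
    ring
  have hN : (0 : ℚ) ≤ (N : ℚ) / r := by positivity
  have hle : ⌊((N : ℚ) - v) / r⌋ ≤ ⌊(((2 * N : ℕ) : ℚ) - v) / r⌋ :=
    Int.floor_le_floor (by linarith)
  have h2 : (c : ℤ) = ⌊(((2 * N : ℕ) : ℚ) - v) / r⌋ - ⌊((N : ℚ) - v) / r⌋ := by
    rw [h]
    exact max_eq_left (by linarith)
  have h3 : (c : ℚ) = (⌊(((2 * N : ℕ) : ℚ) - v) / r⌋ : ℚ) - (⌊((N : ℚ) - v) / r⌋ : ℚ) := by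
    have h4 : ((c : ℤ) : ℚ) = ((⌊(((2 * N : ℕ) : ℚ) - v) / r⌋ - ⌊((N : ℚ) - v) / r⌋ : ℤ) : ℚ) := by
      rw [h2]
    push_cast at h4
    push_cast
    exact h4
  have a1 := Int.floor_le ((((2 * N : ℕ) : ℚ) - v) / r)
  have a2 := Int.lt_floor_add_one ((((2 * N : ℕ) : ℚ) - v) / r)
  have b1 := Int.floor_le (((N : ℚ) - v) / r)
  have b2 := Int.lt_floor_add_one (((N : ℚ) - v) / r)
  have h5 : |(c : ℚ) - (N : ℚ) / r| ≤ 1 := by
    rw [abs_le]
    constructor
    · linarith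
    · linarith
  have h6 : ((|(c : ℚ) - (N : ℚ) / r| : ℚ) : ℝ) ≤ ((1 : ℚ) : ℝ) := by exact_mod_cast h5
  push_cast at h6
  exact h6

private theorem U1_term (d : ℕ) [NeZero d] (N : ℕ) (x : (ZMod d)ˣ) (T : Finset ℕ)
    (hT : ∀ p ∈ T, p.Prime) :
    |((((Ioc N (2 * N)).filter (fun n : ℕ => (n : ZMod d) = (x : ZMod d))).filter
        (fun n : ℕ => ∀ p ∈ T, p ∣ n)).card : ℝ) - (N : ℝ) / d * ∏ p ∈ T, gd d p| ≤ 2 := by
  have hd : 0 < d := Nat.pos_of_ne_zero (NeZero.ne d)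
  rw [gd_prod]
  split_ifs with h
  · have hcop : Nat.Coprime (∏ p ∈ T, p) d :=
      Nat.Coprime.prod_left fun p hp => (Nat.Prime.coprime_iff_not_dvd (hT p hp)).2 (h p hp)
    obtain ⟨a, ha1, ha2⟩ := Nat.chineseRemainder hcop 0 (x : ZMod d).val
    have hP : 0 < ∏ p ∈ T, p := Finset.prod_pos fun p hp => (hT p hp).pos
    have hset : ((Ioc N (2 * N)).filter (fun n : ℕ => (n : ZMod d) = (x : ZMod d))).filter
        (fun n : ℕ => ∀ p ∈ T, p ∣ n) =
        (Ioc N (2 * N)).filter (fun n : ℕ => n ≡ a [MOD ((∏ p ∈ T, p) * d)]) := by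
      ext n
      simp only [mem_filter]
      rw [and_assoc, ← Nat.modEq_and_modEq_iff_modEq_mul hcop]
      refine and_congr_right fun _ => ?_
      have e1 : (n : ZMod d) = (x : ZMod d) ↔ n ≡ a [MOD d] := by
        have e3 : (x : ZMod d) = ((a : ℕ) : ZMod d) := by
          rw [← ZMod.natCast_zmod_val (x : ZMod d)]
          exact ((ZMod.natCast_eq_natCast_iff _ _ _).2 ha2).symm
        rw [e3]
        exact ZMod.natCast_eq_natCast_iff _ _ _
      have e2 : (∀ p ∈ T, p ∣ n) ↔ n ≡ a [MOD (∏ p ∈ T, p)] := by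
        constructor
        · intro hn
          have h1 : (∏ p ∈ T, p) ∣ n :=
            Finset.prod_primes_dvd n (fun p hp => (hT p hp).prime) hn
          have h2 : n ≡ 0 [MOD (∏ p ∈ T, p)] := (Nat.modEq_zero_iff_dvd).2 h1
          exact h2.trans ha1.symm
        · intro hn p hp
          have h1 : (∏ p ∈ T, p) ∣ n := (Nat.modEq_zero_iff_dvd).1 (hn.trans ha1)
          exact (Finset.dvd_prod_of_mem _ hp).trans h1
      rw [e1, e2]
      exact and_comm
    rw [hset]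
    have h3 := U1_count N ((∏ p ∈ T, p) * d) a (Nat.mul_pos hP hd)
    have h4 : (N : ℝ) / d * (1 / ∏ p ∈ T, (p : ℝ)) = (N : ℝ) / (((∏ p ∈ T, p) * d : ℕ) : ℝ) := by
      push_cast
      rw [div_mul_div_comm, mul_one, mul_comm (d : ℝ)]
    rw [h4]
    linarith
  · push Not at h
    obtain ⟨p, hp, hpd⟩ := h
    have hset : ((Ioc N (2 * N)).filter (fun n : ℕ => (n : ZMod d) = (x : ZMod d))).filter
        (fun n : ℕ => ∀ p ∈ T, p ∣ n) = ∅ := by
      rw [Finset.eq_empty_iff_forall_notMem]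
      intro n hn
      simp only [mem_filter] at hn
      have h1 : IsUnit (n : ZMod d) := by
        rw [hn.1.2]
        exact x.isUnit
      have h2 : Nat.Coprime n d := (ZMod.isUnit_iff_coprime n d).1 h1
      have h3 : p ∣ Nat.gcd n d := Nat.dvd_gcd (hn.2 p hp) hpd
      rw [h2] at h3
      exact (hT p hp).one_lt.ne' (Nat.dvd_one.1 h3)
    rw [hset, Finset.card_empty, mul_zero]
    norm_num

private theorem U1_main {τ : ℝ} {K z : ℕ} {u l : Finset ℕ → ℝ} (hF : Fund τ K z u l) (d : ℕ) [NeZero d]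
    (N : ℕ) (x : (ZMod d)ˣ) :
    ((((Ioc N (2 * N)).filter (fun n : ℕ => (n : ZMod d) = (x : ZMod d))).filter
        (fun n : ℕ => ∀ p ∈ PP z, ¬ p ∣ n)).card : ℝ) ≤
      (1 + τ) * ((N : ℝ) / d * VV d z) + 2 * (z : ℝ) ^ K := by
  have h := sieve2 hF ((Ioc N (2 * N)).filter (fun n : ℕ => (n : ZMod d) = (x : ZMod d)))
    (fun _ => 1) (gd d) ((N : ℝ) / d) (fun _ => 2) (fun _ _ => zero_le_one) (adm_gd d z)
    (by positivity) (by
      intro T hT
      have hT' : T ⊆ PP z := by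
        unfold TT at hT
        exact mem_powerset.1 (mem_filter.1 hT).1
      have h1 := U1_term d N x T (fun p hp => (mem_filter.1 (hT' hp)).2)
      rw [Finset.sum_const, nsmul_eq_mul, mul_one]
      exact h1)
  rw [Finset.sum_const, nsmul_eq_mul, mul_one, Finset.sum_const, nsmul_eq_mul] at h
  have h2 := (abs_le.1 h).2
  have h3 := card_TT z K
  unfold VV
  nlinarith

open Classical in
theorem class_block {τ : ℝ} {K z : ℕ} {u l : Finset ℕ → ℝ} (hF : Fund τ K z u l) (d : ℕ) [NeZero d] (N : ℕ) (x : (ZMod d)ˣ) :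
    (((Ioc N (2 * N)).filter (fun n : ℕ => Rough z n ∧ (n : ZMod d) = (x : ZMod d))).card : ℝ) ≤
      (1 + τ) * ((N : ℝ) / d * VV d z) + 2 * (z : ℝ) ^ K := by
  refine le_trans ?_ (U1_main hF d N x)
  have h : ((Ioc N (2 * N)).filter (fun n : ℕ => Rough z n ∧ (n : ZMod d) = (x : ZMod d))).card ≤
      (((Ioc N (2 * N)).filter (fun n : ℕ => (n : ZMod d) = (x : ZMod d))).filter
        (fun n : ℕ => ∀ p ∈ PP z, ¬ p ∣ n)).card := by
    apply Finset.card_le_card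
    intro n hn
    simp only [mem_filter] at hn ⊢
    refine ⟨⟨hn.1, hn.2.2⟩, ?_⟩
    intro p hp hpn
    have h1 := hn.2.1.2 p (mem_filter.1 hp).2 hpn
    have h2 := (mem_Icc.1 (mem_filter.1 hp).1).2
    omega
  exact_mod_cast h

end Pool.Agent.Lib.MP_42948a_nt.TF
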